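import Pool.Agent.P.MP_c18ddb_co.Q.Def1

/-! Five sampled points: averaging. -/

namespace Pool.Agent.P.MP_c18ddb_co.Q

open Finset

/-- every colouring can be reordered into one of `reps`; `w` lists the reorderings -/
noncomputable def cover (reps : List ℕ) (w : ℕ) : Bool :=
  (List.range 1024).all fun i => reps.elem (gperm (2 * i) (lk 0 SM (w / 128 ^ i % 128)))
    && Nat.blt (w / 128 ^ i % 128) 120

theorem m1_bit (l : List Bool) : ∀ k, Nat.land (Nat.shiftRight (nb l) k) 1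
    = bif l.getD k false then 1 else 0 := by
  induction l with
  | nil => intro k; simp [nb]
  | cons b l ih =>
    intro k
    cases k with
    | zero =>
      show (nb (b :: l) >>> 0) &&& 1 = _
      rw [Nat.and_one_is_mod]
      cases b <;> simp [nb]
    | succ k =>
      have h : nb (b :: l) / 2 = nb l := by
        cases b <;> simp only [nb, cond_true, cond_false] <;> omega
      show (nb (b :: l) >>> (k + 1)) &&& 1 = _
      rw [Nat.shiftRight_succ_inside, h]
      simpa using ih k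

theorem m1_parts : ∀ b1 b2 b3 b4 b5 b6 b7 b8 b9 b10 : Bool,
    nb [false, b1, b2, b3, b4, b5, b6, b7, b8, b9, b10] / 2 % 8 = nb [b1, b2, b3] ∧
    nb [false, b1, b2, b3, b4, b5, b6, b7, b8, b9, b10] / 16 % 8 = nb [b4, b5, b6] ∧
    nb [false, b1, b2, b3, b4, b5, b6, b7, b8, b9, b10] / 128 % 8 = nb [b7, b8, b9] ∧
    nb [false, b1, b2, b3, b4, b5, b6, b7, b8, b9, b10] / 2 % 64 = nb [b1, b2, b3, b4, b5, b6] ∧
    nb [false, b1, b2, b3, b4, b5, b6, b7, b8, b9, b10] % 2 = 0 ∧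
    nb [false, b1, b2, b3, b4, b5, b6, b7, b8, b9, b10] / 2 < 1024 := by
  decide +kernel

theorem m1_tab : ∀ t < 120,
    (perms5.getD t [] ∈ perms5) ∧
    sl (SM.getD t 0) 1 = slot ((perms5.getD t []).getD 0 0) ((perms5.getD t []).getD 1 0) ∧
    sl (SM.getD t 0) 2 = slot ((perms5.getD t []).getD 0 0) ((perms5.getD t []).getD 2 0) ∧
    sl (SM.getD t 0) 3 = slot ((perms5.getD t []).getD 1 0) ((perms5.getD t []).getD 2 0) ∧
    sl (SM.getD t 0) 4 = slot ((perms5.getD t []).getD 0 0) ((perms5.getD t []).getD 3 0) ∧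
    sl (SM.getD t 0) 5 = slot ((perms5.getD t []).getD 1 0) ((perms5.getD t []).getD 3 0) ∧
    sl (SM.getD t 0) 6 = slot ((perms5.getD t []).getD 2 0) ((perms5.getD t []).getD 3 0) ∧
    sl (SM.getD t 0) 7 = slot ((perms5.getD t []).getD 0 0) ((perms5.getD t []).getD 4 0) ∧
    sl (SM.getD t 0) 8 = slot ((perms5.getD t []).getD 1 0) ((perms5.getD t []).getD 4 0) ∧
    sl (SM.getD t 0) 9 = slot ((perms5.getD t []).getD 2 0) ((perms5.getD t []).getD 4 0) ∧
    sl (SM.getD t 0) 10 = slot ((perms5.getD t []).getD 3 0) ((perms5.getD t []).getD 4 0) := by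
  decide +kernel

theorem m1_pm : ∀ π ∈ perms5, π.length = 5 ∧ (∀ i < 5, π.getD i 0 < 5) ∧
    (∀ j < 5, ∀ i < j, π.getD i 0 ≠ π.getD j 0) := by
  decide +kernel

theorem m1_p5 : perms5.isPerm [0, 1, 2, 3, 4].permutations' = true := by
  decide +kernel

theorem m1_rho : ∀ ρ ∈ perms5,
    ([0, 1, 2, 3, 4].map fun i => ρ.getD i 0).isPerm [0, 1, 2, 3, 4] = true := by
  decide +kernel

theorem m1_perm (ρ : List ℕ) (hρ : ρ ∈ perms5) :
    (perms5.map fun π => π.map fun i => ρ.getD i 0).Perm perms5 := by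
  have h := List.isPerm_iff.1 m1_p5
  refine (h.map _).trans (List.Perm.trans ?_ h.symm)
  have := List.map_permutations' (fun i => ρ.getD i 0) [0, 1, 2, 3, 4]
  exact (List.Perm.of_eq this).trans (List.isPerm_iff.1 (m1_rho ρ hρ)).permutations'

section
variable {V : Type} [Fintype V]

theorem m1_col (S : WS V (3 / 7)) (q : ℕ → V) (a b : ℕ) (ha : a < 5) (hb : b < 5) (h : a ≠ b) :
    Nat.land (Nat.shiftRight (gS S q) (slot a b)) 1 = bif S.c (q a) (q b) then 1 else 0 := by
  rw [gS, m1_bit]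
  interval_cases a <;> interval_cases b <;> first
    | exact absurd rfl h
    | rfl
    | (symm; rw [S.c_symm]; rfl)

theorem m1_gperm (S : WS V (3 / 7)) (q : ℕ → V) (t : ℕ) (ht : t < 120) :
    gS S (fun i => q ((perms5.getD t []).getD i 0)) = gperm (gS S q) (SM.getD t 0) := by
  obtain ⟨hm, h1, h2, h3, h4, h5, h6, h7, h8, h9, h10⟩ := m1_tab t ht
  obtain ⟨-, hl, hn⟩ := m1_pm _ hm
  generalize perms5.getD t [] = π at *
  have hc : ∀ j < 5, ∀ i < j, Nat.land (Nat.shiftRight (gS S q) (slot (π.getD i 0) (π.getD j 0))) 1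
      = bif S.c (q (π.getD i 0)) (q (π.getD j 0)) then 1 else 0 := fun j hj i hi =>
    m1_col S q _ _ (hl i (by omega)) (hl j hj) (hn j hj i hi)
  rw [gperm, nsum_eq]
  simp only [List.map_cons, List.map_nil, h1, h2, h3, h4, h5, h6, h7, h8, h9, h10]
  rw [hc 1 (by omega) 0 (by omega), hc 2 (by omega) 0 (by omega), hc 2 (by omega) 1 (by omega),
    hc 3 (by omega) 0 (by omega), hc 3 (by omega) 1 (by omega), hc 3 (by omega) 2 (by omega),
    hc 4 (by omega) 0 (by omega), hc 4 (by omega) 1 (by omega), hc 4 (by omega) 2 (by omega),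
    hc 4 (by omega) 3 (by omega)]
  simp only [gS, nb, List.sum_cons, List.sum_nil, Nat.shiftLeft_eq', Nat.shiftLeft_eq, cond_false]
  ring

/-- the integrand -/
noncomputable def m1F (C : C1) (S : WS V (3 / 7)) (q : ℕ → V) : ℝ := TR C (gS S q) (dS S q)

theorem m1_congr (C : C1) (S : WS V (3 / 7)) {q q' : ℕ → V} (h : ∀ i < 5, q i = q' i) :
    m1F C S q = m1F C S q' := by
  have hg : gS S q = gS S q' := by
    simp only [gS, h 0 (by omega), h 1 (by omega), h 2 (by omega), h 3 (by omega), h 4 (by omega)]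
  have hd : dS S q = dS S q' := by
    funext k
    simp only [dS, h 0 (by omega), h 1 (by omega), h 2 (by omega), h 3 (by omega), h 4 (by omega)]
  rw [m1F, m1F, hg, hd]

theorem m1_HR (C : C1) (S : WS V (3 / 7)) (q : ℕ → V) :
    HR C S q = (perms5.map fun π => m1F C S fun i => q (π.getD i 0)).sum := rfl

theorem m1_HR_perm (C : C1) (S : WS V (3 / 7)) (q : ℕ → V) (ρ : List ℕ) (hρ : ρ ∈ perms5) :
    HR C S (fun i => q (ρ.getD i 0)) = HR C S q := by
  have hp := m1_perm ρ hρ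
  rw [m1_HR, m1_HR, ← (hp.map fun π => m1F C S fun i => q (π.getD i 0)).sum_eq, List.map_map]
  refine congrArg List.sum (List.map_congr_left fun π hπ => m1_congr C S fun i hi => ?_)
  have hl := (m1_pm π hπ).1
  have hi' : i < π.length := by omega
  simp [List.getD_eq_getElem?_getD, List.getElem?_eq_getElem hi']

theorem m1_neg (C : C1) (reps : List ℕ) (w : ℕ) (hc : cover reps w = true)
    (h : ∀ g ∈ reps, Hneg C g) (S : WS V (3 / 7)) (hH : Heavy S) (q : ℕ → V) : HR C S q < 0 := by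
  obtain ⟨-, -, -, -, h1, h2⟩ := m1_parts (S.c (q 0) (q 1)) (S.c (q 0) (q 2)) (S.c (q 1) (q 2))
    (S.c (q 0) (q 3)) (S.c (q 1) (q 3)) (S.c (q 2) (q 3)) (S.c (q 0) (q 4)) (S.c (q 1) (q 4))
    (S.c (q 2) (q 4)) (S.c (q 3) (q 4))
  change gS S q % 2 = 0 at h1
  change gS S q / 2 < 1024 at h2
  have h3 := List.all_eq_true.1 hc (gS S q / 2) (List.mem_range.2 h2)
  rw [Bool.and_eq_true, Nat.blt_eq, List.elem_eq_mem, decide_eq_true_eq, lk_eq,
    show 2 * (gS S q / 2) = gS S q by omega] at h3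
  obtain ⟨h4, h5⟩ := h3
  rw [← m1_HR_perm C S q _ (m1_tab _ h5).1]
  exact h _ h4 V S hH _ (m1_gperm S q _ h5)

def m1ext (p : Fin 5 → V) (i : ℕ) : V := p (Fin.ofNat 5 i)

noncomputable def m1E (S : WS V (3 / 7)) (f : (ℕ → V) → ℝ) : ℝ := by
  classical exact ∑ p : Fin 5 → V, (∏ i, S.x (p i)) * f (m1ext p)

theorem m1_bij : ∀ π ∈ perms5,
    Function.Bijective fun i : Fin 5 => Fin.ofNat 5 (π.getD i 0) := by
  decide +kernel

theorem m1E_perm (C : C1) (S : WS V (3 / 7)) (π : List ℕ) (hπ : π ∈ perms5) :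
    m1E S (fun q => m1F C S fun i => q (π.getD i 0)) = m1E S (m1F C S) := by
  classical
  let e : Fin 5 ≃ Fin 5 := Equiv.ofBijective _ (m1_bij π hπ)
  unfold m1E
  refine Fintype.sum_equiv (Equiv.arrowCongr e.symm (Equiv.refl V)) _ _ fun p => ?_
  have h1 : ∏ i, S.x ((Equiv.arrowCongr e.symm (Equiv.refl V)) p i) = ∏ i, S.x (p i) :=
    Equiv.prod_comp e fun i => S.x (p i)
  rw [h1]
  refine congrArg _ (m1_congr C S fun i hi => ?_)
  show p (Fin.ofNat 5 (π.getD i 0)) = p (Fin.ofNat 5 (π.getD (i % 5) 0))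
  rw [Nat.mod_eq_of_lt hi]

theorem m1E_list (S : WS V (3 / 7)) {α : Type} (l : List α) (f : α → (ℕ → V) → ℝ) :
    m1E S (fun q => (l.map fun a => f a q).sum) = (l.map fun a => m1E S (f a)).sum := by
  induction l with
  | nil => simp [m1E]
  | cons a l ih =>
    simp only [List.map_cons, List.sum_cons, ← ih]
    simp only [m1E, mul_add, sum_add_distrib]

theorem m1_cons [DecidableEq V] {n : ℕ} (g : (Fin (n + 1) → V) → ℝ) :
    ∑ p, g p = ∑ a, ∑ p : Fin n → V, g (Matrix.vecCons a p) := by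
  rw [← Fintype.sum_prod_type']
  exact (Fintype.sum_equiv (Fin.consEquiv fun _ => V) _ _ fun _ => rfl).symm

theorem m1E_nest (S : WS V (3 / 7)) (f : (ℕ → V) → ℝ) :
    m1E S f = ∑ a, ∑ b, ∑ c, S.x a * S.x b * S.x c *
      ∑ d, ∑ e, S.x d * S.x e * f (m1ext ![a, b, c, d, e]) := by
  classical
  unfold m1E
  simp only [m1_cons, Fintype.sum_unique, mul_sum]
  refine sum_congr rfl fun a _ => sum_congr rfl fun b _ => sum_congr rfl fun c _ =>
    sum_congr rfl fun d _ => sum_congr rfl fun e _ => ?_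
  rw [Fin.prod_univ_five]
  have : (default : Fin 0 → V) = ![] := Subsingleton.elim _ _
  rw [this]
  simp only [Matrix.cons_val]
  ring

theorem m1_list2 (x : V → ℝ) {α : Type} (l : List α) (T : α → V → V → ℝ)
    (h : ∀ a ∈ l, 0 ≤ ∑ d, ∑ e, x d * x e * T a d e) :
    0 ≤ ∑ d, ∑ e, x d * x e * (l.map fun a => T a d e).sum := by
  induction l with
  | nil => simp
  | cons a l ih =>
    simp only [List.map_cons, List.sum_cons, mul_add, sum_add_distrib]
    exact add_nonneg (h a (by simp)) (ih fun b hb => h b (by simp [hb]))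

theorem m1_sq (x : V → ℝ) (r : ℕ) (φ : ℕ → V → ℝ) (l : ℝ) (hl : 0 ≤ l) :
    0 ≤ ∑ d, ∑ e, x d * x e * ((∑ k ∈ range r, φ k d * φ k e) * l) := by
  have : ∑ d, ∑ e, x d * x e * ((∑ k ∈ range r, φ k d * φ k e) * l)
      = (∑ k ∈ range r, (∑ d, x d * φ k d) * (∑ d, x d * φ k d)) * l := by
    simp only [sum_mul_sum]
    rw [sum_comm (s := range r), sum_mul]
    refine sum_congr rfl fun d _ => ?_
    rw [sum_comm (s := range r), sum_mul]
    refine sum_congr rfl fun e _ => ?_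
    simp only [mul_sum, sum_mul]
    exact sum_congr rfl fun k _ => by ring
  rw [this]
  exact mul_nonneg (sum_nonneg fun k _ => mul_self_nonneg _) hl

theorem m1_flag (C : C1) (S : WS V (3 / 7)) (hH : Heavy S) (a b c : V) :
    0 ≤ ∑ d, ∑ e, S.x d * S.x e *
      flagR C (gS S (m1ext ![a, b, c, d, e])) (dS S (m1ext ![a, b, c, d, e])) := by
  have hp := fun d e => m1_parts (S.c a b) (S.c a c) (S.c b c) (S.c a d) (S.c b d) (S.c c d)
    (S.c a e) (S.c b e) (S.c c e) (S.c d e)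
  have h1 : ∀ d e, gS S (m1ext ![a, b, c, d, e]) / 2 % 8 = nb [S.c a b, S.c a c, S.c b c] :=
    fun d e => (hp d e).1
  have h2 : ∀ d e, gS S (m1ext ![a, b, c, d, e]) / 16 % 8 = nb [S.c a d, S.c b d, S.c c d] :=
    fun d e => (hp d e).2.1
  have h3 : ∀ d e, gS S (m1ext ![a, b, c, d, e]) / 128 % 8 = nb [S.c a e, S.c b e, S.c c e] :=
    fun d e => (hp d e).2.2.1
  have h4 : ∀ d e, db (dS S (m1ext ![a, b, c, d, e])) 4 = db (dS S (m1ext ![a, b, c, a, a])) 4 := by
    intro d e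
    funext k
    unfold db
    split_ifs with hk
    · interval_cases k <;> rfl
    · rfl
  simp only [flagR, h1, h2, h3, h4]
  refine m1_list2 S.x _ _ fun bl _ => ?_
  cases hok : okM (2 * nb [S.c a b, S.c a c, S.c b c]) (14 - 2 * nb [S.c a b, S.c a c, S.c b c])
    (rowM bl.1)
  · simp
  · simp only [cond_true, sqR]
    exact m1_sq S.x bl.2.1 (fun k y => vecR C.Qv
      [1, S.D a b, S.D a c, S.D b c, S.D a y, S.D b y, S.D c y]
      (bl.2.2.getD (nb [S.c a y, S.c b y, S.c c y]) 0 / (C.Qv ^ 7) ^ k % C.Qv ^ 7)) _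
      (row3_nonneg S hH _ _ (by rw [h1]; exact hok))

theorem m1_reg (C : C1) (S : WS V (3 / 7)) (a b c : V) :
    0 ≤ ∑ d, ∑ e, S.x d * S.x e *
      regR C (gS S (m1ext ![a, b, c, d, e])) (dS S (m1ext ![a, b, c, d, e])) := by
  have h1 : ∀ d e, gS S (m1ext ![a, b, c, d, e]) / 2 % 64
      = nb [S.c a b, S.c a c, S.c b c, S.c a d, S.c b d, S.c c d] := fun d e =>
    (m1_parts (S.c a b) (S.c a c) (S.c b c) (S.c a d) (S.c b d) (S.c c d)
      (S.c a e) (S.c b e) (S.c c e) (S.c d e)).2.2.2.1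
  have h2 : ∀ d e n, matR C.Qr n (dS S (m1ext ![a, b, c, d, e]))
      = matR C.Qr n (dS S (m1ext ![a, b, c, d, a])) := by
    intro d e n
    refine sum_congr rfl fun k hk => ?_
    have := mem_range.1 hk
    interval_cases k <;> rfl
  have h3 : ∀ (v : V) (m : ℝ), ∑ e, S.x e * (m * (7 * S.D v e - 3 * 1)) = 0 := by
    intro v m
    have : ∑ e, S.x e * (m * (7 * S.D v e - 3 * 1))
        = m * (7 * ∑ e, S.x e * S.D v e - 3 * ∑ e, S.x e) := by
      simp only [mul_sum, ← sum_sub_distrib]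
      exact sum_congr rfl fun e _ => by ring
    rw [this, S.reg, S.x_sum]
    ring
  simp only [regR, h1, h2]
  refine sum_nonneg fun d _ => ?_
  simp only [mul_assoc (S.x d), ← mul_sum]
  refine mul_nonneg (S.x_nonneg d) ?_
  have hl : ∀ p ∈ ((C.rg.getD (nb [S.c a b, S.c a c, S.c b c, S.c a d, S.c b d, S.c c d]) []).take
      4).zipIdx, p.2 < 4 := by
    intro p hp
    have := (List.mem_zipIdx' (x := p.1) (i := p.2) hp).1
    exact lt_of_lt_of_le this (List.length_take_le _ _)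
  generalize ((C.rg.getD (nb [S.c a b, S.c a c, S.c b c, S.c a d, S.c b d, S.c c d]) []).take
      4).zipIdx = l at hl
  induction l with
  | nil => simp
  | cons p l ih =>
    simp only [List.map_cons, List.sum_cons, mul_add, sum_add_distrib]
    refine add_nonneg (ge_of_eq ?_) (ih fun b hb => hl b (by simp [hb]))
    have := hl p (by simp)
    obtain ⟨n, v⟩ := p
    interval_cases v
    exacts [h3 a _, h3 b _, h3 c _, h3 d _]

theorem m1E_nonneg (C : C1) (S : WS V (3 / 7)) (hH : Heavy S) : 0 ≤ m1E S (m1F C S) := by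
  rw [m1E_nest]
  refine sum_nonneg fun a _ => sum_nonneg fun b _ => sum_nonneg fun c _ => mul_nonneg
    (mul_nonneg (mul_nonneg (S.x_nonneg a) (S.x_nonneg b)) (S.x_nonneg c)) ?_
  simp only [m1F, TR, mul_add, sum_add_distrib]
  exact add_nonneg (m1_flag C S hH a b c) (m1_reg C S a b c)

theorem m1E_neg (S : WS V (3 / 7)) (f : (ℕ → V) → ℝ) (h : ∀ q, f q < 0) : m1E S f < 0 := by
  classical
  obtain ⟨v, hv⟩ : ∃ v, 0 < S.x v := by
    by_contra hn
    push Not at hn
    have := sum_nonpos (s := univ) fun v _ => hn v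
    rw [S.x_sum] at this
    linarith
  unfold m1E
  rw [← neg_pos, ← sum_neg_distrib]
  refine sum_pos' (fun p _ => ?_) ⟨fun _ => v, mem_univ _, ?_⟩
  · exact neg_nonneg.2 (mul_nonpos_of_nonneg_of_nonpos
      (prod_nonneg fun i _ => S.x_nonneg _) (h _).le)
  · exact neg_pos.2 (mul_neg_of_pos_of_neg (prod_pos fun i _ => hv) (h _))

end

theorem light_of_hneg (C : C1) (reps : List ℕ) (w : ℕ) (hc : cover reps w = true)
    (h : ∀ g ∈ reps, Hneg C g) (V : Type) [Fintype V] (S : WS V (3 / 7)) :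
    ∃ a b d e f, Pent S a b d e f ∧ tot S a b d e f ≤ 6 / 5 := by
  by_contra hn
  have hH : Heavy S := fun a b d e f hp => by
    by_contra h'
    exact hn ⟨a, b, d, e, f, hp, (not_le.1 h').le⟩
  have h1 := m1E_neg S _ (m1_neg C reps w hc h S hH)
  have h2 : m1E S (HR C S)
      = (perms5.map fun π => m1E S fun q => m1F C S fun i => q (π.getD i 0)).sum :=
    m1E_list S perms5 fun π q => m1F C S fun i => q (π.getD i 0)
  rw [h2] at h1
  refine absurd h1 (not_lt.2 (List.sum_nonneg fun y hy => ?_))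
  obtain ⟨π, hπ, rfl⟩ := List.mem_map.1 hy
  rw [m1E_perm C S π hπ]
  exact m1E_nonneg C S hH

end Pool.Agent.P.MP_c18ddb_co.Q
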