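import Pool.Agent.P.MP_c18ddb_co.Q.S1C14
import Pool.Agent.P.MP_c18ddb_co.Q.S1C15
import Pool.Agent.P.MP_c18ddb_co.Q.S1C16
import Pool.Agent.P.MP_c18ddb_co.Q.Main1

namespace Pool.Agent.P.MP_c18ddb_co.Q

theorem stage1 (V : Type) [Fintype V] (S : WS V (3 / 7)) :
    ∃ a b d e f, Pent S a b d e f ∧ tot S a b d e f ≤ 6 / 5 := by
  refine light_of_hneg cS [0, 2046, 2, 2044, 6, 2040, 14, 2032, 22, 2024, 24, 2022, 26, 2020, 30, 2016, 60, 1986, 62, 1984, 126, 1920, 152, 1894, 154, 1892, 172, 1874, 174, 188, 1858, 232, 1814, 472]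
    0x3003c618001808400000030048681024060f18900860248680007821908708183094384087819906a099f0c4081c1e912250ca091e0024105010204381200c4a1000035d060c102387005f1a0c645051c07112204886819a5d1e384ad10197eb983070c018f0f299156e9c1b336954702044464f990a1420434680de506cc184224f5b4a6c1c6490cc704281d1e4281d5ba490c694c933f44e9901e4254be5a50f36e2b8f063c0109045470081261493f09040d956742c054f4cd8060c1c137004c0e0c6157895615eb4fd6ad23057dfb8f45c02a54bdeb5196c72b1b0708429a0a74898b1162858a641d95c4689c1f4689c5ab0c1e6f7db5e7680c19b072d81da7a259ae78c15ea7e85f3672589e4b1b15e8278b0e1c45050a841da072a505a7141d4d3d4a8cd158aa7dcb7153a7211d4dd862daa884c52d212244a9660d428bc152a826589dcb71572f278976ad0b22124489d1fc848a12032e4da5ab111f463c8cdbb0c4c61e3c8db8a8e23776406ccbe0d5ae1a406da4285c9b4244810bb0d5e82c5cb64c183112d0aa101c8fd3d19152751d4f67561f2e44be5013c11f02458e1512d01b2a4c9e6fd4291b29452eaf52d0204484c9101429204485ab44089052a20489840890a095ef5a4a250d52a1ff39326544a10aa70b12200f829e07297225acad3956aa33aa48a250964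0309568258b060c858b96d0ae1dd20408a136e50a1b43480d5cac55f98351bb6f111c5b64478f8c121dd9a887a33e8962db52658124509643ee91222511668d4bb1135eba2dbb84cb13509445e50a01b35224489a4958c216d45c3baa63814e9e2dbb93d52ca26556aa62838a4e2ca150ed03c21428a62c38713ed0f3658c84d0b96cf90bfd4ad83c12cc4bdb40db3960cd840ecf36bedef18583ee11233ee11230ec83b2142c50b62c513a14d0542e1823158eb635abc5ca958009edcbebe0805ab5fdabd0aac4af098f0802601b820c183b065eaa0a14eabb2042047e482930204e2a0848260c7831a6dd99252ca80aa13c81327e99d226d2612523ce90213ce9021e0621a4060cda5b6784a13060da80204d1a0810285327cca20810e2ad39b660d23864ce587180183864cd6203085a2470f0cd03341024409e2001028a3018d0000e1c0408183ba180004224190021c081022821200f1250192a4483ce102018f93500cc833c102074a60c103810c843c0000d2404301483078c200408d240018000002010c00c0c1e0018000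
    (by decide +kernel) ?_ V S
  simp only [List.forall_mem_cons, List.not_mem_nil, false_imp_iff, implies_true, and_true]
  exact ⟨h0, h1023, h1, h1022, h3, h1020, h7, h1016, h11, h1012, h12, h1011, h13, h1010, h15, h1008, h30, h993, h31, h992, h63, h960, h76, h947, h77, h946, h86, h937, h87, h94, h929, h116, h907, h236⟩

end Pool.Agent.P.MP_c18ddb_co.Q
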