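import Pool.Agent.P.MP_c18ddb_co.Q.Chain
import Pool.Agent.P.MP_c18ddb_co.Q.Stage1

namespace Pool.Agent.P.MP_c18ddb_co.Q

theorem core : Core := by
  intro V _ S
  obtain ⟨R, rfl, ht, hq⟩ := exists_root S (6 / 5) (stage1 V S)
  refine zero_of_eta R ?_
  have h0 : 0 ≤ R.eta := by
    have := (GZ_eta R 0 1).1 (GZ_nonneg R _ (by decide))
    push_cast at this
    linarith
  by_cases h1 : 1000 * R.eta ≤ 300
  · exact chainA R hq (by linarith) h1
  by_cases h2 : 1000 * R.eta ≤ 600
  · exact (chainB R hq (by linarith) h2).elim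
  by_cases h3 : 1000 * R.eta ≤ 900
  · exact (chainC R hq (by linarith) h3).elim
  by_cases h4 : 1000 * R.eta ≤ 1050
  · exact (chainD R hq (by linarith) h4).elim
  · exact (chainE R hq (by linarith) (by linarith)).elim

end Pool.Agent.P.MP_c18ddb_co.Q
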