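import Pool.Agent.P.MP_c18ddb_co.Q.Defs

namespace Pool.Agent.P.MP_c18ddb_co.Q

open Finset

theorem avg_mem_Cl {V : Type} [DecidableEq V] {c : V → V → Bool} {S T K : Finset V} (h : T ⊆ S) :
    K ∈ Cl c T ↔ K ∈ Cl c S ∧ K ⊆ T := by
  simp only [Cl, mem_filter, mem_powerset]
  exact ⟨fun k => ⟨⟨k.1.trans h, k.2⟩, k.1⟩, fun k => ⟨k.2, k.1.2⟩⟩

theorem avg_swap {V : Type} [DecidableEq V] (c : V → V → Bool) (S : Finset V) (m : ℕ)
    (p : Finset V → Prop) [DecidablePred p] (g : Finset V → Finset V → ℝ) :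
    ∑ K ∈ (Cl c S).filter p, ∑ T ∈ (S.powersetCard m).filter (fun T => K ∈ Cl c T), g T K =
      ∑ T ∈ S.powersetCard m, ∑ K ∈ (Cl c T).filter p, g T K := by
  refine sum_comm' fun K T => ?_
  simp only [mem_filter]
  constructor
  · rintro ⟨⟨-, h2⟩, h3, h4⟩
    exact ⟨⟨h4, h2⟩, h3⟩
  · rintro ⟨⟨h4, h2⟩, h3⟩
    exact ⟨⟨((avg_mem_Cl (mem_powersetCard.1 h3).1).1 h4).1, h2⟩, h3, h4⟩

theorem avg_count {V : Type} [DecidableEq V] {c : V → V → Bool} {S : Finset V} {m : ℕ}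
    {φ : Finset V → Finset V → ℝ} (h : ∀ T ∈ S.powersetCard m, FracPack c T (φ T))
    {e t : Finset V} (he : e.card = 2) (het : e ⊆ t) (ht : t ⊆ S) (htm : t.card ≤ m)
    (p : Finset V → Prop) [DecidablePred p] (hp : ∀ K, p K → t ⊆ K) :
    ∑ T ∈ S.powersetCard m, ∑ K ∈ (Cl c T).filter p, φ T K ≤
      ((S.card - t.card).choose (m - t.card) : ℝ) := by
  rw [← card_filter_powersetCard_subset t S m ht htm, card_filter]
  push_cast
  refine sum_le_sum fun T hT => ?_
  split_ifs with k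
  · refine le_trans (sum_le_sum_of_subset_of_nonneg ?_ fun K _ _ => (h T hT).1 K)
      ((h T hT).2 e (mem_powersetCard.2 ⟨het.trans k, he⟩))
    intro K hK
    rw [mem_filter] at hK ⊢
    exact ⟨hK.1, het.trans (hp K hK.2)⟩
  · refine le_of_eq (sum_eq_zero fun K hK => absurd ?_ k)
    rw [mem_filter] at hK
    exact (hp K hK.2).trans ((avg_mem_Cl (Subset.refl T)).1 hK.1).2

/-- averaging over all `m`-subsets gives a spread fractional packing -/
theorem avg_pack {V : Type} [DecidableEq V] (S : Finset V) (c : V → V → Bool) (m : ℕ)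
    (hm : 3 ≤ m) (hmS : m ≤ S.card) (L : ℝ)
    (h : ∀ T ∈ S.powersetCard m, ∃ φ, FracPack c T φ ∧ L ≤ value c T φ) :
    ∃ φ, FracPack c S φ ∧
      L * ((S.card : ℝ) * (S.card - 1) / (m * (m - 1))) ≤ value c S φ ∧
      ∀ e ∈ S.powersetCard 2, ∀ e' ∈ S.powersetCard 2, e ≠ e' →
        ∑ K ∈ (Cl c S).filter (fun K => e ⊆ K ∧ e' ⊆ K), φ K ≤ ((m : ℝ) - 2) / (S.card - 2) := by
  choose! φ h1 h2 using h
  obtain ⟨j, rfl⟩ := Nat.exists_eq_add_of_le' hm
  obtain ⟨k, hk⟩ := Nat.exists_eq_add_of_le' (hm.trans hmS)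
  have hN : (0 : ℝ) < ((k + 1).choose (j + 1) : ℝ) := by
    exact_mod_cast Nat.choose_pos (by omega)
  have c1 : ((k : ℝ) + 1) * k.choose j = (k + 1).choose (j + 1) * (j + 1) := by
    exact_mod_cast Nat.add_one_mul_choose_eq k j
  have c2 : ((k : ℝ) + 2) * (k + 1).choose (j + 1) = (k + 2).choose (j + 2) * (j + 2) := by
    exact_mod_cast Nat.add_one_mul_choose_eq (k + 1) (j + 1)
  have c3 : ((k : ℝ) + 3) * (k + 2).choose (j + 2) = (k + 3).choose (j + 3) * (j + 3) := by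
    exact_mod_cast Nat.add_one_mul_choose_eq (k + 2) (j + 2)
  refine ⟨fun K => (∑ T ∈ (S.powersetCard (j + 3)).filter (fun T => K ∈ Cl c T), φ T K) /
    ((k + 1).choose (j + 1) : ℝ), ⟨fun K => ?_, fun e he => ?_⟩, ?_, fun e he e' he' hne => ?_⟩
  · exact div_nonneg (sum_nonneg fun T hT => (h1 T (mem_filter.1 hT).1).1 K) hN.le
  · rw [← sum_div, avg_swap, div_le_one hN]
    obtain ⟨k1, k2⟩ := mem_powersetCard.1 he
    have := avg_count h1 k2 (Subset.refl e) k1 (by omega) (fun K => e ⊆ K) fun K hK => hK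
    rwa [k2, hk] at this
  · have e1 := avg_swap c S (j + 3) (fun _ => True) fun T K => val K * φ T K
    simp only [filter_true] at e1
    simp only [value, ← mul_div_assoc, mul_sum]
    rw [← sum_div, e1, le_div_iff₀ hN]
    refine le_trans (le_of_eq ?_) (card_nsmul_le_sum _ _ L h2)
    rw [card_powersetCard, hk, nsmul_eq_mul]
    push_cast
    have p2 : (j : ℝ) + 3 - 1 ≠ 0 := by
      have : (0 : ℝ) ≤ j := by positivity
      linarith
    field_simp
    linear_combination L * ((k + 3) * c2 + (j + 2) * c3)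
  · rw [← sum_div, avg_swap, div_le_iff₀ hN]
    obtain ⟨k1, k2⟩ := mem_powersetCard.1 he
    obtain ⟨k3, k4⟩ := mem_powersetCard.1 he'
    obtain ⟨a, ha, ha'⟩ : ∃ a ∈ e', a ∉ e := by
      by_contra hn
      push Not at hn
      exact hne (eq_of_subset_of_card_le hn (by omega)).symm
    have k5 : (insert a e).card = 3 := by rw [card_insert_of_notMem ha', k2]
    have := avg_count h1 k2 (subset_insert a e) (insert_subset (k3 ha) k1) (by omega)
      (fun K => e ⊆ K ∧ e' ⊆ K) fun K hK => insert_subset (hK.2 ha) hK.1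
    rw [k5, hk] at this
    refine this.trans (le_of_eq ?_)
    rw [hk, Nat.add_sub_cancel, Nat.add_sub_cancel]
    push_cast
    have p2 : (k : ℝ) + 3 - 2 ≠ 0 := by
      have : (0 : ℝ) ≤ k := by positivity
      linarith
    field_simp
    linear_combination c1

end Pool.Agent.P.MP_c18ddb_co.Q
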