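import Pool.Agent.P.MP_c18ddb_co.Q.S2C0
import Pool.Agent.P.MP_c18ddb_co.Q.S2C1
import Pool.Agent.P.MP_c18ddb_co.Q.S2C2
import Pool.Agent.P.MP_c18ddb_co.Q.S2C3
import Pool.Agent.P.MP_c18ddb_co.Q.S2C4
import Pool.Agent.P.MP_c18ddb_co.Q.S2C5
import Pool.Agent.P.MP_c18ddb_co.Q.S2C6
import Pool.Agent.P.MP_c18ddb_co.Q.S2C7
import Pool.Agent.P.MP_c18ddb_co.Q.S2C8
import Pool.Agent.P.MP_c18ddb_co.Q.S2C9
import Pool.Agent.P.MP_c18ddb_co.Q.S2C10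
import Pool.Agent.P.MP_c18ddb_co.Q.S2C11
import Pool.Agent.P.MP_c18ddb_co.Q.S2X

namespace Pool.Agent.P.MP_c18ddb_co.Q

theorem chainA {V : Type} [Fintype V] (R : Rt V)
    (hq : GM R [-1, -1, 1, 1, 0, 0, 0, 0, 0, 0, 0]) (hlo : (0 : ℝ) ≤ 1000 * R.eta)
    (hhi : 1000 * R.eta ≤ 300) : R.eta ≤ 0 := by
  have z1 : GZ R [0, 0, 0, 0, 0, 0, 0, 0, 1, 0, 0] := GZ_nonneg R _ (by decide)
  have z2 : GZ R [0, 0, 0, 1, 0, 0, 0, 0, 0, 0, 0] := GZ_nonneg R _ (by decide)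
  have z3 : GZ R [0, 1, 0, 0, 0, 0, 0, 0, 0, 0, 0] := GZ_nonneg R _ (by decide)
  have z4 : GZ R [300, -1000, -1000, -1000, -1000, -1000, -1000, -1000, -1000, -1000, -1000] :=
    (GZ_eta R _ _).2 (by push_cast; linarith)
  have h0 := stepM iA0 R ⟨hq, trivial⟩ ⟨z3, z2, z1, z4, trivial⟩
  have h1 := stepM iA1 R ⟨hq, h0, trivial⟩ ⟨z3, z2, z1, z4, trivial⟩
  have h2 := stepM iA2 R ⟨hq, h1, h0, trivial⟩ ⟨z3, z2, z1, z4, trivial⟩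
  have h3 := stepM iA3 R ⟨hq, h2, h1, h0, trivial⟩ ⟨z3, z2, z1, z4, trivial⟩
  have h4 := stepM iA4 R ⟨hq, h2, h1, h3, h0, trivial⟩ ⟨z3, z2, z1, z4, trivial⟩
  have h5 := stepM iA5 R ⟨hq, h2, h1, h4, h3, h0, trivial⟩ ⟨z3, z2, z1, z4, trivial⟩
  have h6 := stepM iA6 R ⟨hq, h2, h1, h4, h3, h5, h0, trivial⟩ ⟨z3, z2, z1, z4, trivial⟩
  have h7 := stepZ iA7 R ⟨hq, h2, h1, h4, h3, h5, h6, h0, trivial⟩ ⟨z3, z2, z1, z4, trivial⟩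
  have h8 := stepZ iA8 R ⟨hq, h2, h1, h4, h3, h5, h6, h0, trivial⟩ ⟨z3, h7, z2, z1, z4, trivial⟩
  have h9 := stepZ iA9 R ⟨hq, h2, h1, h4, h3, h5, h6, h0, trivial⟩ ⟨z3, h7, z2, h8, z1, z4, trivial⟩
  have h10 := stepM iA10 R ⟨hq, h2, h4, h3, h5, h6, h0, trivial⟩ ⟨z3, h7, z2, h8, z1, h9, z4, trivial⟩
  have h11 := stepM iA11 R ⟨hq, h2, h4, h3, h5, h6, h10, trivial⟩ ⟨z3, h7, z2, h8, z1, h9, z4, trivial⟩
  have h12 := stepM iA12 R ⟨hq, h11, h1, h4, h3, h5, h6, h10, trivial⟩ ⟨z3, h7, z2, h8, z1, h9, z4, trivial⟩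
  have h13 := stepM iA13 R ⟨hq, h11, h1, h4, h12, h5, h6, h10, trivial⟩ ⟨z3, h7, z2, h8, z1, h9, z4, trivial⟩
  have h14 := stepM iA14 R ⟨hq, h11, h1, h13, h12, h5, h6, h10, trivial⟩ ⟨z3, h7, z2, h8, z1, h9, z4, trivial⟩
  have h15 := stepM iA15 R ⟨hq, h11, h1, h13, h12, h14, h6, h10, trivial⟩ ⟨z3, h7, z2, h8, z1, h9, z4, trivial⟩
  have h16 := stepZ iA16 R ⟨hq, h11, h1, h13, h12, h14, h15, h10, trivial⟩ ⟨z3, h7, z2, h8, z1, h9, z4, trivial⟩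
  have h17 := stepZ iA17 R ⟨hq, h11, h1, h13, h12, h14, h15, h10, trivial⟩ ⟨z3, h16, z2, h8, z1, h9, z4, trivial⟩
  have h18 := stepZ iA18 R ⟨hq, h11, h1, h13, h12, h14, h15, h10, trivial⟩ ⟨z3, h16, z2, h17, z1, h9, z4, trivial⟩
  have h19 := stepM iA19 R ⟨hq, h11, h13, h12, h14, h15, h10, trivial⟩ ⟨z3, h16, z2, h17, z1, h18, z4, trivial⟩
  have h20 := stepM iA20 R ⟨hq, h11, h1, h13, h12, h14, h15, h19, trivial⟩ ⟨z3, h16, z2, h17, z1, h18, z4, trivial⟩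
  have h21 := stepM iA21 R ⟨hq, h11, h13, h12, h14, h15, h19, trivial⟩ ⟨z3, h16, z2, h17, z1, z4, trivial⟩
  have h22 := stepM iA22 R ⟨hq, h21, h20, h13, h12, h14, h15, h19, trivial⟩ ⟨z3, h16, z2, h17, z1, h18, z4, trivial⟩
  have h23 := stepM iA23 R ⟨hq, h21, h20, h13, h22, h14, h15, h19, trivial⟩ ⟨z3, h16, z2, h17, z1, h18, z4, trivial⟩
  have h24 := stepM iA24 R ⟨hq, h21, h20, h23, h22, h14, h15, h19, trivial⟩ ⟨z3, h16, z2, h17, z1, h18, z4, trivial⟩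
  have h25 := stepM iA25 R ⟨hq, h21, h20, h23, h22, h24, h15, h19, trivial⟩ ⟨z3, h16, z2, h17, z1, h18, z4, trivial⟩
  have h26 := stepM iA26 R ⟨hq, h21, h20, h23, h22, h24, h25, h15, h19, trivial⟩ ⟨z3, h16, z2, h17, z1, h18, z4, trivial⟩
  have h27 := stepZ iA27 R ⟨hq, h21, h20, h23, h22, h24, h25, h26, h19, trivial⟩ ⟨z3, h16, z2, h17, z1, h18, z4, trivial⟩
  have h28 := stepZ iA28 R ⟨hq, h21, h20, h23, h22, h24, h25, h26, h19, trivial⟩ ⟨z3, h27, z2, h17, z1, h18, z4, trivial⟩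
  have h29 := stepZ iA29 R ⟨hq, h21, h20, h23, h22, h24, h25, h26, h19, trivial⟩ ⟨z3, h27, z2, h28, z1, h18, z4, trivial⟩
  have h30 := stepZ iA30 R ⟨hq, h21, h20, h23, h22, h24, h25, h26, h19, trivial⟩ ⟨z3, h27, z2, h28, z1, h29, z4, trivial⟩
  obtain ⟨ha, hb⟩ := contract R _ _ _ xA xB ⟨hq, h24, h25, h26, h19, trivial⟩ ⟨z3, h27, z2, h28, z1, h29, h30, trivial⟩ ⟨z3, h27, z2, h28, z1, h29, h30, trivial⟩ h21 h23
  have h := (GZ_eta R 0 (-1)).1 (stepZ iG R ⟨ha, hb, hq, h24, h25, h26, h19, trivial⟩ ⟨z3, h27, z2, h28, z1, h29, h30, trivial⟩)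
  push_cast at h
  linarith

theorem chainB {V : Type} [Fintype V] (R : Rt V)
    (hq : GM R [-1, -1, 1, 1, 0, 0, 0, 0, 0, 0, 0]) (hlo : (300 : ℝ) ≤ 1000 * R.eta)
    (hhi : 1000 * R.eta ≤ 600) : False := by
  have z1 : GZ R [-300, 1000, 1000, 1000, 1000, 1000, 1000, 1000, 1000, 1000, 1000] :=
    (GZ_eta R _ _).2 (by push_cast; linarith)
  have z2 : GZ R [0, 0, 0, 0, 0, 0, 0, 0, 1, 0, 0] := GZ_nonneg R _ (by decide)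
  have z3 : GZ R [0, 0, 0, 1, 0, 0, 0, 0, 0, 0, 0] := GZ_nonneg R _ (by decide)
  have z4 : GZ R [0, 1, 0, 0, 0, 0, 0, 0, 0, 0, 0] := GZ_nonneg R _ (by decide)
  have z5 : GZ R [600, -1000, -1000, -1000, -1000, -1000, -1000, -1000, -1000, -1000, -1000] :=
    (GZ_eta R _ _).2 (by push_cast; linarith)
  have h0 := stepM iB0 R ⟨hq, trivial⟩ ⟨z4, z3, z2, z1, z5, trivial⟩
  have h1 := stepM iB1 R ⟨hq, h0, trivial⟩ ⟨z4, z3, z2, z1, z5, trivial⟩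
  have h2 := stepM iB2 R ⟨hq, h1, h0, trivial⟩ ⟨z4, z3, z2, z1, z5, trivial⟩
  have h3 := stepM iB3 R ⟨hq, h2, h1, h0, trivial⟩ ⟨z4, z3, z2, z1, z5, trivial⟩
  have h4 := stepM iB4 R ⟨hq, h2, h1, h3, h0, trivial⟩ ⟨z4, z3, z2, z1, z5, trivial⟩
  have h5 := stepM iB5 R ⟨hq, h2, h1, h4, h3, h0, trivial⟩ ⟨z4, z3, z2, z1, z5, trivial⟩
  have h6 := stepM iB6 R ⟨hq, h2, h1, h4, h3, h5, h0, trivial⟩ ⟨z4, z3, z2, z1, z5, trivial⟩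
  have h7 := stepZ iB7 R ⟨hq, h2, h1, h4, h3, h5, h6, h0, trivial⟩ ⟨z4, z3, z2, z1, z5, trivial⟩
  have h8 := stepZ iB8 R ⟨hq, h2, h1, h4, h3, h5, h6, h0, trivial⟩ ⟨z4, h7, z3, z2, z1, z5, trivial⟩
  have h9 := stepZ iB9 R ⟨hq, h2, h1, h4, h3, h5, h6, h0, trivial⟩ ⟨z4, h7, z3, h8, z2, z1, z5, trivial⟩
  have h10 := stepM iB10 R ⟨hq, h1, h4, h3, h5, h6, h0, trivial⟩ ⟨z4, h7, z3, h8, z2, h9, z1, z5, trivial⟩
  have h11 := stepM iB11 R ⟨hq, h2, h1, h4, h3, h5, h6, h10, trivial⟩ ⟨z4, h7, z3, h8, z2, h9, z1, z5, trivial⟩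
  have h12 := stepM iB12 R ⟨hq, h11, h1, h4, h3, h5, h6, h10, trivial⟩ ⟨z4, h7, z3, h8, z2, h9, z1, z5, trivial⟩
  have h13 := stepM iB13 R ⟨hq, h11, h1, h4, h12, h5, h6, h10, trivial⟩ ⟨z4, h7, z3, h8, z2, h9, z1, z5, trivial⟩
  have h14 := stepM iB14 R ⟨hq, h11, h1, h13, h12, h5, h6, h10, trivial⟩ ⟨z4, h7, z3, h8, z2, h9, z1, z5, trivial⟩
  have h15 := stepZ iB15 R ⟨hq, h11, h1, h13, h12, h14, h6, h10, trivial⟩ ⟨z4, h7, z3, h8, z2, h9, z1, z5, trivial⟩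
  have h16 := stepZ iB16 R ⟨hq, h11, h1, h13, h12, h14, h6, h10, trivial⟩ ⟨z4, h15, z3, h8, z2, h9, z1, z5, trivial⟩
  have h17 := stepZ iB17 R ⟨hq, h11, h1, h13, h12, h14, h6, h10, trivial⟩ ⟨z4, h15, z3, h16, z2, h9, z1, z5, trivial⟩
  have h18 := stepM iB18 R ⟨hq, h11, h1, h13, h12, h14, h6, h10, trivial⟩ ⟨z4, h15, z3, h16, z2, h17, z1, z5, trivial⟩
  have h19 := stepM iB19 R ⟨hq, h11, h13, h12, h14, h6, h18, trivial⟩ ⟨z4, h15, z3, h16, z2, h17, z1, z5, trivial⟩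
  have h20 := stepM iB20 R ⟨hq, h19, h1, h13, h12, h14, h6, h18, trivial⟩ ⟨z4, h15, z3, h16, z2, h17, z1, z5, trivial⟩
  have h21 := stepM iB21 R ⟨hq, h19, h1, h13, h20, h14, h6, h18, trivial⟩ ⟨z4, h15, z3, h16, z2, h17, z1, z5, trivial⟩
  have h22 := stepZ iB22 R ⟨hq, h19, h1, h21, h20, h14, h6, h18, trivial⟩ ⟨z4, h15, z3, h16, z2, h17, z1, z5, trivial⟩
  have h23 := stepZ iB23 R ⟨hq, h19, h1, h21, h20, h14, h6, h18, trivial⟩ ⟨z4, h22, z3, h16, z2, h17, z1, z5, trivial⟩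
  have h24 := stepZ iB24 R ⟨hq, h19, h1, h21, h20, h14, h6, h18, trivial⟩ ⟨z4, h22, z3, h23, z2, h17, z1, z5, trivial⟩
  have h25 := stepM iB25 R ⟨hq, h19, h1, h21, h20, h14, h6, h18, trivial⟩ ⟨z4, h22, z3, h23, z2, h24, z1, z5, trivial⟩
  have h26 := stepM iB26 R ⟨hq, h19, h1, h21, h20, h14, h6, h25, trivial⟩ ⟨z4, h22, z3, h23, z2, h24, z1, z5, trivial⟩
  have h27 := stepM iB27 R ⟨hq, h26, h1, h21, h20, h14, h6, h25, trivial⟩ ⟨z4, h22, z3, h23, z2, h24, z1, z5, trivial⟩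
  have h28 := stepM iB28 R ⟨hq, h26, h1, h21, h27, h14, h6, h25, trivial⟩ ⟨z4, h22, z3, h23, z2, h24, z1, z5, trivial⟩
  have h29 := stepM iB29 R ⟨hq, h26, h1, h28, h27, h14, h6, h25, trivial⟩ ⟨z4, h22, z3, h23, z2, h24, z1, z5, trivial⟩
  have h30 := stepM iB30 R ⟨hq, h26, h1, h28, h27, h29, h6, h25, trivial⟩ ⟨z4, h22, z3, h23, z2, h24, z1, z5, trivial⟩
  have h31 := stepZ iB31 R ⟨hq, h26, h1, h28, h27, h29, h30, h25, trivial⟩ ⟨z4, h22, z3, h23, z2, h24, z1, z5, trivial⟩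
  have h32 := stepZ iB32 R ⟨hq, h26, h28, h27, h29, h30, h25, trivial⟩ ⟨z4, h31, z3, h23, z2, h24, z1, z5, trivial⟩
  have h33 := stepZ iB33 R ⟨hq, h26, h1, h28, h27, h29, h30, h25, trivial⟩ ⟨z4, h31, z3, h32, z2, h24, z1, z5, trivial⟩
  have h34 := stepZ iB34 R ⟨hq, h26, h1, h28, h27, h29, h30, h25, trivial⟩ ⟨z4, h31, z3, h32, z2, h33, z5, trivial⟩
  have h35 := stepM iB35 R ⟨hq, h26, h1, h28, h27, h29, h30, h25, trivial⟩ ⟨z4, h31, z3, h32, z2, h33, z1, h34, trivial⟩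
  have h36 := stepM iB36 R ⟨hq, h1, h28, h27, h29, h30, h35, trivial⟩ ⟨z4, h31, z3, h32, z2, h33, z1, h34, trivial⟩
  have h37 := stepM iB37 R ⟨hq, h26, h36, h28, h27, h29, h30, h35, trivial⟩ ⟨z4, h31, z3, h32, z2, h33, z1, h34, trivial⟩
  have h38 := stepM iB38 R ⟨hq, h37, h36, h28, h27, h29, h30, h35, trivial⟩ ⟨z4, h31, z3, h32, z2, h33, z1, h34, trivial⟩
  have h39 := stepM iB39 R ⟨hq, h37, h36, h28, h38, h29, h30, h35, trivial⟩ ⟨z4, h31, z3, h32, z2, h33, z1, h34, trivial⟩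
  have h40 := stepM iB40 R ⟨hq, h37, h36, h39, h38, h29, h30, h35, trivial⟩ ⟨z4, h31, z3, h32, z2, h33, z1, h34, trivial⟩
  have h41 := stepM iB41 R ⟨hq, h37, h36, h39, h38, h40, h30, h35, trivial⟩ ⟨z4, h31, z3, h32, z2, h33, z1, h34, trivial⟩
  have h42 := stepM iB42 R ⟨hq, h37, h36, h39, h38, h40, h41, h30, h35, trivial⟩ ⟨z4, h31, z3, h32, z2, h33, z1, h34, trivial⟩
  have h44 := stepM iB44 R ⟨h37, h40, h41, h42, trivial⟩ trivial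
  exact GM_false R h44

theorem chainC {V : Type} [Fintype V] (R : Rt V)
    (hq : GM R [-1, -1, 1, 1, 0, 0, 0, 0, 0, 0, 0]) (hlo : (600 : ℝ) ≤ 1000 * R.eta)
    (hhi : 1000 * R.eta ≤ 900) : False := by
  have z1 : GZ R [-600, 1000, 1000, 1000, 1000, 1000, 1000, 1000, 1000, 1000, 1000] :=
    (GZ_eta R _ _).2 (by push_cast; linarith)
  have z2 : GZ R [0, 0, 0, 0, 0, 0, 0, 0, 1, 0, 0] := GZ_nonneg R _ (by decide)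
  have z3 : GZ R [0, 0, 0, 1, 0, 0, 0, 0, 0, 0, 0] := GZ_nonneg R _ (by decide)
  have z4 : GZ R [0, 1, 0, 0, 0, 0, 0, 0, 0, 0, 0] := GZ_nonneg R _ (by decide)
  have z5 : GZ R [900, -1000, -1000, -1000, -1000, -1000, -1000, -1000, -1000, -1000, -1000] :=
    (GZ_eta R _ _).2 (by push_cast; linarith)
  have h0 := stepM iC0 R ⟨hq, trivial⟩ ⟨z4, z3, z2, z1, z5, trivial⟩
  have h1 := stepM iC1 R ⟨hq, h0, trivial⟩ ⟨z4, z3, z2, z1, z5, trivial⟩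
  have h2 := stepM iC2 R ⟨hq, h1, h0, trivial⟩ ⟨z4, z3, z2, z1, z5, trivial⟩
  have h3 := stepM iC3 R ⟨hq, h1, h2, h0, trivial⟩ ⟨z4, z3, z2, z1, z5, trivial⟩
  have h4 := stepM iC4 R ⟨hq, h1, h3, h2, h0, trivial⟩ ⟨z4, z3, z2, z1, z5, trivial⟩
  have h5 := stepM iC5 R ⟨hq, h1, h3, h2, h4, h0, trivial⟩ ⟨z4, z3, z2, z1, z5, trivial⟩
  have h6 := stepZ iC6 R ⟨hq, h1, h3, h2, h4, h5, h0, trivial⟩ ⟨z4, z3, z2, z1, z5, trivial⟩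
  have h7 := stepZ iC7 R ⟨hq, h1, h3, h2, h4, h5, h0, trivial⟩ ⟨z4, h6, z3, z2, z1, z5, trivial⟩
  have h8 := stepZ iC8 R ⟨hq, h1, h3, h2, h4, h5, h0, trivial⟩ ⟨z4, h6, z3, h7, z2, z1, z5, trivial⟩
  have h9 := stepM iC9 R ⟨hq, h1, h3, h2, h4, h5, h0, trivial⟩ ⟨z4, h6, z3, h7, z2, h8, z1, z5, trivial⟩
  have h10 := stepM iC10 R ⟨hq, h1, h3, h2, h4, h5, h9, trivial⟩ ⟨z4, h6, z3, h7, z2, h8, z1, z5, trivial⟩
  have h11 := stepM iC11 R ⟨hq, h10, h1, h3, h2, h4, h5, h9, trivial⟩ ⟨z4, h6, z3, h7, z2, h8, z1, z5, trivial⟩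
  have h12 := stepM iC12 R ⟨hq, h10, h1, h3, h11, h4, h5, h9, trivial⟩ ⟨z4, h6, z3, h7, z2, h8, z1, z5, trivial⟩
  have h13 := stepM iC13 R ⟨hq, h10, h1, h12, h11, h4, h5, h9, trivial⟩ ⟨z4, h6, z3, h7, z2, h8, z1, z5, trivial⟩
  have h14 := stepZ iC14 R ⟨hq, h10, h1, h12, h11, h13, h5, h9, trivial⟩ ⟨z4, h6, z3, h7, z2, h8, z1, z5, trivial⟩
  have h15 := stepZ iC15 R ⟨hq, h10, h1, h12, h11, h13, h5, h9, trivial⟩ ⟨z4, h14, z3, h7, z2, h8, z1, z5, trivial⟩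
  have h16 := stepZ iC16 R ⟨hq, h10, h1, h12, h11, h13, h5, h9, trivial⟩ ⟨z4, h14, z3, h15, z2, h8, z1, z5, trivial⟩
  have h17 := stepM iC17 R ⟨hq, h10, h1, h12, h11, h13, h5, h9, trivial⟩ ⟨z4, h14, z3, h15, z2, h16, z1, z5, trivial⟩
  have h18 := stepM iC18 R ⟨hq, h10, h1, h12, h11, h13, h5, h17, trivial⟩ ⟨z4, h14, z3, h15, z2, h16, z1, z5, trivial⟩
  have h19 := stepM iC19 R ⟨hq, h18, h1, h12, h11, h13, h5, h17, trivial⟩ ⟨z4, h14, z3, h15, z2, h16, z1, z5, trivial⟩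
  have h20 := stepM iC20 R ⟨hq, h18, h1, h12, h19, h13, h5, h17, trivial⟩ ⟨z4, h14, z3, h15, z2, h16, z1, z5, trivial⟩
  have h21 := stepM iC21 R ⟨hq, h18, h1, h20, h19, h13, h5, h17, trivial⟩ ⟨z4, h14, z3, h15, z2, h16, z1, z5, trivial⟩
  have h22 := stepM iC22 R ⟨hq, h18, h1, h20, h19, h21, h5, h17, trivial⟩ ⟨z4, h14, z3, h15, z2, h16, z1, z5, trivial⟩
  have h23 := stepZ iC23 R ⟨hq, h18, h1, h20, h19, h21, h22, h17, trivial⟩ ⟨z4, h14, z3, h15, z2, h16, z1, z5, trivial⟩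
  have h24 := stepZ iC24 R ⟨hq, h18, h1, h20, h19, h21, h22, h17, trivial⟩ ⟨z4, h23, z3, h15, z2, h16, z1, z5, trivial⟩
  have h25 := stepZ iC25 R ⟨hq, h18, h1, h20, h19, h21, h22, h17, trivial⟩ ⟨z4, h23, z3, h24, z2, h16, z1, z5, trivial⟩
  have h27 := stepM iC27 R ⟨hq, h18, h1, h20, h19, h21, h22, h17, trivial⟩ ⟨z4, h23, z3, h24, z2, h25, z1, z5, trivial⟩
  exact GM_false R h27

theorem chainD {V : Type} [Fintype V] (R : Rt V)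
    (hq : GM R [-1, -1, 1, 1, 0, 0, 0, 0, 0, 0, 0]) (hlo : (900 : ℝ) ≤ 1000 * R.eta)
    (hhi : 1000 * R.eta ≤ 1050) : False := by
  have z1 : GZ R [-900, 1000, 1000, 1000, 1000, 1000, 1000, 1000, 1000, 1000, 1000] :=
    (GZ_eta R _ _).2 (by push_cast; linarith)
  have z2 : GZ R [0, 0, 0, 0, 0, 0, 0, 0, 1, 0, 0] := GZ_nonneg R _ (by decide)
  have z3 : GZ R [0, 0, 0, 1, 0, 0, 0, 0, 0, 0, 0] := GZ_nonneg R _ (by decide)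
  have z4 : GZ R [0, 1, 0, 0, 0, 0, 0, 0, 0, 0, 0] := GZ_nonneg R _ (by decide)
  have z5 : GZ R [1050, -1000, -1000, -1000, -1000, -1000, -1000, -1000, -1000, -1000, -1000] :=
    (GZ_eta R _ _).2 (by push_cast; linarith)
  have h0 := stepM iD0 R ⟨hq, trivial⟩ ⟨z4, z3, z2, z1, z5, trivial⟩
  have h1 := stepM iD1 R ⟨hq, h0, trivial⟩ ⟨z4, z3, z2, z1, z5, trivial⟩
  have h2 := stepM iD2 R ⟨hq, h1, h0, trivial⟩ ⟨z4, z3, z2, z1, z5, trivial⟩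
  have h3 := stepM iD3 R ⟨hq, h1, h2, h0, trivial⟩ ⟨z4, z3, z2, z1, z5, trivial⟩
  have h4 := stepM iD4 R ⟨hq, h1, h3, h2, h0, trivial⟩ ⟨z4, z3, z2, z1, z5, trivial⟩
  have h5 := stepM iD5 R ⟨hq, h1, h3, h2, h4, h0, trivial⟩ ⟨z4, z3, z2, z1, z5, trivial⟩
  have h6 := stepZ iD6 R ⟨hq, h1, h3, h2, h4, h5, h0, trivial⟩ ⟨z4, z3, z2, z1, z5, trivial⟩
  have h7 := stepZ iD7 R ⟨hq, h1, h3, h2, h4, h5, h0, trivial⟩ ⟨z4, h6, z3, z2, z1, z5, trivial⟩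
  have h8 := stepZ iD8 R ⟨hq, h1, h3, h2, h4, h5, h0, trivial⟩ ⟨z4, h6, z3, h7, z2, z1, z5, trivial⟩
  have h9 := stepM iD9 R ⟨hq, h1, h3, h2, h4, h5, h0, trivial⟩ ⟨z4, h6, z3, h7, z2, h8, z1, z5, trivial⟩
  have h10 := stepM iD10 R ⟨hq, h1, h3, h2, h4, h5, h9, trivial⟩ ⟨z4, h6, z3, h7, z2, h8, z1, z5, trivial⟩
  have h11 := stepM iD11 R ⟨hq, h1, h3, h10, h4, h5, h9, trivial⟩ ⟨z4, h6, z3, h7, z2, h8, z1, z5, trivial⟩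
  have h12 := stepM iD12 R ⟨hq, h1, h11, h10, h4, h5, h9, trivial⟩ ⟨z4, h6, z3, h7, z2, h8, z1, z5, trivial⟩
  have h13 := stepM iD13 R ⟨hq, h1, h11, h10, h12, h5, h9, trivial⟩ ⟨z4, h6, z3, h7, z2, h8, z1, z5, trivial⟩
  have h14 := stepZ iD14 R ⟨hq, h1, h11, h10, h12, h13, h9, trivial⟩ ⟨z4, h6, z3, h7, z2, h8, z1, z5, trivial⟩
  have h15 := stepZ iD15 R ⟨hq, h1, h11, h10, h12, h13, h9, trivial⟩ ⟨z4, h14, z3, h7, z2, h8, z1, z5, trivial⟩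
  have h16 := stepZ iD16 R ⟨hq, h1, h11, h10, h12, h13, h9, trivial⟩ ⟨z4, h14, z3, h15, z2, h8, z1, z5, trivial⟩
  have h17 := stepM iD17 R ⟨hq, h11, h10, h12, h13, h9, trivial⟩ ⟨z4, h14, z3, h15, z2, h16, z1, z5, trivial⟩
  have h18 := stepM iD18 R ⟨hq, h1, h11, h10, h12, h13, h17, trivial⟩ ⟨z4, h14, z3, h15, z2, h16, z1, z5, trivial⟩
  have h19 := stepM iD19 R ⟨hq, h18, h11, h10, h12, h13, h17, trivial⟩ ⟨z4, h14, z3, h15, z2, h16, z1, z5, trivial⟩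
  have h20 := stepM iD20 R ⟨hq, h19, h18, h11, h10, h12, h13, h17, trivial⟩ ⟨z4, h14, z3, h15, z2, h16, z1, z5, trivial⟩
  have h21 := stepM iD21 R ⟨hq, h19, h18, h11, h20, h12, h13, h17, trivial⟩ ⟨z4, h14, z3, h15, z2, h16, z1, z5, trivial⟩
  have h22 := stepM iD22 R ⟨hq, h19, h18, h21, h20, h12, h13, h17, trivial⟩ ⟨z4, h14, z3, h15, z2, h16, z1, z5, trivial⟩
  have h24 := stepM iD24 R ⟨hq, h19, h18, h21, h20, h22, h13, h17, trivial⟩ ⟨z4, h14, z3, h15, z2, h16, z1, z5, trivial⟩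
  exact GM_false R h24

theorem chainE {V : Type} [Fintype V] (R : Rt V)
    (hq : GM R [-1, -1, 1, 1, 0, 0, 0, 0, 0, 0, 0]) (hlo : (1050 : ℝ) ≤ 1000 * R.eta)
    (hhi : 1000 * R.eta ≤ 1200) : False := by
  have z1 : GZ R [-1050, 1000, 1000, 1000, 1000, 1000, 1000, 1000, 1000, 1000, 1000] :=
    (GZ_eta R _ _).2 (by push_cast; linarith)
  have z2 : GZ R [0, 0, 0, 0, 0, 0, 0, 0, 1, 0, 0] := GZ_nonneg R _ (by decide)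
  have z3 : GZ R [0, 0, 0, 1, 0, 0, 0, 0, 0, 0, 0] := GZ_nonneg R _ (by decide)
  have z4 : GZ R [0, 1, 0, 0, 0, 0, 0, 0, 0, 0, 0] := GZ_nonneg R _ (by decide)
  have z5 : GZ R [1200, -1000, -1000, -1000, -1000, -1000, -1000, -1000, -1000, -1000, -1000] :=
    (GZ_eta R _ _).2 (by push_cast; linarith)
  have h0 := stepM iE0 R ⟨hq, trivial⟩ ⟨z4, z3, z2, z1, z5, trivial⟩
  have h1 := stepM iE1 R ⟨hq, h0, trivial⟩ ⟨z4, z3, z2, z1, z5, trivial⟩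
  have h2 := stepM iE2 R ⟨hq, h1, h0, trivial⟩ ⟨z4, z3, z2, z1, z5, trivial⟩
  have h3 := stepM iE3 R ⟨hq, h1, h2, h0, trivial⟩ ⟨z4, z3, z2, z1, z5, trivial⟩
  have h4 := stepM iE4 R ⟨hq, h1, h3, h2, h0, trivial⟩ ⟨z4, z3, z2, z1, z5, trivial⟩
  have h5 := stepM iE5 R ⟨hq, h1, h3, h2, h4, h0, trivial⟩ ⟨z4, z3, z2, z1, z5, trivial⟩
  have h6 := stepZ iE6 R ⟨hq, h1, h3, h2, h4, h5, h0, trivial⟩ ⟨z4, z3, z2, z1, z5, trivial⟩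
  have h7 := stepZ iE7 R ⟨hq, h1, h3, h2, h4, h5, h0, trivial⟩ ⟨z4, h6, z3, z2, z1, z5, trivial⟩
  have h8 := stepZ iE8 R ⟨hq, h1, h3, h2, h4, h5, h0, trivial⟩ ⟨z4, h6, z3, h7, z2, z1, z5, trivial⟩
  have h9 := stepM iE9 R ⟨hq, h1, h3, h2, h4, h5, h0, trivial⟩ ⟨z4, h6, z3, h7, z2, h8, z1, z5, trivial⟩
  have h10 := stepM iE10 R ⟨hq, h1, h3, h9, h4, h5, h0, trivial⟩ ⟨z4, h6, z3, h7, z2, h8, z1, z5, trivial⟩
  have h11 := stepM iE11 R ⟨hq, h1, h10, h9, h4, h5, h0, trivial⟩ ⟨z4, h6, z3, h7, z2, h8, z1, z5, trivial⟩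
  have h12 := stepM iE12 R ⟨hq, h1, h10, h9, h11, h5, h0, trivial⟩ ⟨z4, h6, z3, h7, z2, h8, z1, z5, trivial⟩
  have h13 := stepZ iE13 R ⟨hq, h1, h10, h9, h11, h12, h0, trivial⟩ ⟨z4, h6, z3, h7, z2, h8, z1, z5, trivial⟩
  have h14 := stepZ iE14 R ⟨hq, h1, h10, h9, h11, h12, h0, trivial⟩ ⟨z4, h13, z3, h7, z2, h8, z1, z5, trivial⟩
  have h15 := stepZ iE15 R ⟨hq, h1, h10, h9, h11, h12, h0, trivial⟩ ⟨z4, h13, z3, h14, z2, h8, z1, z5, trivial⟩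
  have h16 := stepM iE16 R ⟨hq, h1, h10, h9, h11, h12, h0, trivial⟩ ⟨z4, h13, z3, h14, z2, h15, z1, z5, trivial⟩
  have h17 := stepM iE17 R ⟨hq, h1, h10, h9, h11, h12, h16, trivial⟩ ⟨z4, h13, z3, h14, z2, h15, z1, z5, trivial⟩
  have h18 := stepM iE18 R ⟨hq, h17, h10, h9, h11, h12, h16, trivial⟩ ⟨z4, h13, z3, h14, z2, h15, z1, z5, trivial⟩
  have h19 := stepM iE19 R ⟨hq, h17, h10, h18, h11, h12, h16, trivial⟩ ⟨z4, h13, z3, h14, z2, h15, z1, z5, trivial⟩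
  have h20 := stepM iE20 R ⟨hq, h17, h19, h18, h11, h12, h16, trivial⟩ ⟨z4, h13, z3, h14, z2, h15, z1, z5, trivial⟩
  have h21 := stepM iE21 R ⟨hq, h17, h19, h18, h20, h12, h16, trivial⟩ ⟨z4, h13, z3, h14, z2, h15, z1, z5, trivial⟩
  have h22 := stepZ iE22 R ⟨hq, h17, h19, h18, h20, h21, h16, trivial⟩ ⟨z4, h13, z3, h14, z2, h15, z1, z5, trivial⟩
  have h23 := stepZ iE23 R ⟨hq, h17, h19, h18, h20, h21, h16, trivial⟩ ⟨z4, h22, z3, h14, z2, h15, z1, z5, trivial⟩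
  have h24 := stepZ iE24 R ⟨hq, h17, h19, h18, h20, h21, h16, trivial⟩ ⟨z4, h22, z3, h23, z2, h15, z1, z5, trivial⟩
  have h25 := stepM iE25 R ⟨hq, h17, h19, h18, h20, h21, h16, trivial⟩ ⟨z4, h22, z3, h23, z2, h24, z1, z5, trivial⟩
  have h26 := stepM iE26 R ⟨hq, h19, h18, h20, h21, h25, trivial⟩ ⟨z4, h22, z3, h23, z2, h24, z1, z5, trivial⟩
  have h27 := stepM iE27 R ⟨hq, h26, h17, h19, h18, h20, h21, h25, trivial⟩ ⟨z4, h22, z3, h23, z2, h24, z1, z5, trivial⟩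
  have h28 := stepM iE28 R ⟨hq, h26, h17, h19, h27, h20, h21, h25, trivial⟩ ⟨z4, h22, z3, h23, z2, h24, z1, z5, trivial⟩
  have h29 := stepM iE29 R ⟨hq, h26, h17, h28, h27, h20, h21, h25, trivial⟩ ⟨z4, h22, z3, h23, z2, h24, z1, z5, trivial⟩
  have h30 := stepM iE30 R ⟨hq, h26, h17, h28, h27, h29, h21, h25, trivial⟩ ⟨z4, h22, z3, h23, z2, h24, z1, z5, trivial⟩
  have h32 := stepM iE32 R ⟨hq, h26, h17, h28, h27, h29, h30, h21, h25, trivial⟩ ⟨z4, h22, z3, h23, z2, h24, z1, z5, trivial⟩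
  exact GM_false R h32

end Pool.Agent.P.MP_c18ddb_co.Q
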