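import Pool.Agent.P.MP_c18ddb_co.Q.Def1

/-! Five sampled points, cubic certificates: the checker. -/

namespace Pool.Agent.P.MP_c18ddb_co.Q

open Finset

def BA : ℕ := 79228162514264337593543950336

def uA (k : ℕ) : ℕ := bif Nat.blt k 11 then Nat.add (Nat.pow BA k) (Nat.pow BA 11) else 0
def uB (k : ℕ) : ℕ :=
  bif Nat.blt k 11 then Nat.add (Nat.pow (Nat.pow BA 12) k) (Nat.pow (Nat.pow BA 12) 11) else 0
def uC (k : ℕ) : ℕ := upos (Nat.pow BA 144) 11 11 k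
def nC (k : ℕ) : ℕ := uneg (Nat.pow BA 144) 11 11 k

noncomputable section

def dotU (Q : ℕ) (us : List ℕ) : ℕ → ℕ :=
  List.rec (motive := fun _ => ℕ → ℕ) (fun _ => 0)
    (fun u _ ih a => Nat.add (Nat.mul (Nat.mod a Q) u) (ih (Nat.div a Q))) us

def sqP (Q QL r : ℕ) (us vs : List ℕ) : ℕ → ℕ → ℕ :=
  Nat.rec (motive := fun _ => ℕ → ℕ → ℕ) (fun _ _ => 0)
    (fun _ ih a b => Nat.add (Nat.mul (dotU Q us (Nat.mod a QL)) (dotU Q vs (Nat.mod b QL)))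
      (ih (Nat.div a QL) (Nat.div b QL))) r

def sxP (Q QL r : ℕ) (us : List ℕ) : ℕ → ℕ :=
  Nat.rec (motive := fun _ => ℕ → ℕ) (fun _ => 0)
    (fun _ ih a => Nat.add (dotU Q us (Nat.mod a QL)) (ih (Nat.div a QL))) r

/-- positive and negative part of a sum of products of two linear forms -/
def sqPos (Q QL r : ℕ) (us vs : List ℕ) (U V a b : ℕ) : ℕ :=
  Nat.add (sqP Q QL r us vs a b)
    (Nat.mul (Nat.mul r (Nat.mul (Nat.div Q 2) (Nat.div Q 2))) (Nat.mul U V))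
def sqNeg (Q QL r : ℕ) (us vs : List ℕ) (U V a b : ℕ) : ℕ :=
  Nat.mul (Nat.div Q 2) (Nat.add (Nat.mul (sxP Q QL r us a) V) (Nat.mul U (sxP Q QL r vs b)))

/-- `(p - m) * l` -/
def tm3 (p m : ℕ) (u nu : ℕ → ℕ) (l : List (ℤ × ℕ)) : ℕ :=
  Nat.add (Nat.mul p (spn u nu l)) (Nat.mul m (spn nu u l))

def flagP (C : C1) (s pa pb : ℕ) (us vs : List ℕ) (U V : ℕ) (u nu : ℕ → ℕ) : ℕ :=
  nsum (fun bl => bif okM (Nat.mul 2 s) (Nat.sub 14 (Nat.mul 2 s)) (rowM bl.1) then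
    tm3 (sqPos C.Qv (Nat.pow C.Qv 7) bl.2.1 us vs U V (lk 0 bl.2.2 pa) (lk 0 bl.2.2 pb))
      (sqNeg C.Qv (Nat.pow C.Qv 7) bl.2.1 us vs U V (lk 0 bl.2.2 pa) (lk 0 bl.2.2 pb))
      u nu (row1 bl.1) else 0) (lk [] C.fl s)

def matP (Q : ℕ) (vs us : List ℕ) : ℕ → ℕ :=
  List.rec (motive := fun _ => ℕ → ℕ) (fun _ => 0)
    (fun u _ ih a => Nat.add (Nat.mul u (dotU Q vs (Nat.mod a (Nat.pow Q 7))))
      (ih (Nat.div a (Nat.pow Q 7)))) us

def regP (C : C1) (t : ℕ) (us vs : List ℕ) (m : ℕ) (u nu : ℕ → ℕ) : ℕ :=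
  nsum (fun p => tm3 (matP C.Qr vs us p.1) m u nu [(7, Nat.add 7 p.2), (-3, 0)])
    ((lk [] C.rg t).take 4).zipIdx

def TP2 (C : C1) (g n : ℕ) (us vs ws : List ℕ) (U : ℕ) : ℕ :=
  Nat.add
    (fN (Nat.mod (Nat.div g 2) 8) fun s => fN (Nat.mod (Nat.div g 16) 8) fun pa =>
      fN (Nat.mod (Nat.div g 128) 8) fun pb =>
        flagP C s pa pb us vs U (nsum id vs) (fun k => bif Nat.blt k 4 then uC (sl n k) else 0)
          (fun k => bif Nat.blt k 4 then nC (sl n k) else 0))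
    (fN (Nat.mod (Nat.div g 2) 64) fun t =>
      regP C t us ws (Nat.mul (Nat.div C.Qr 2) (Nat.mul U (nsum id ws))) (fun k => uC (sl n k))
        (fun k => nC (sl n k)))

def TP1 (C : C1) (g n : ℕ) (us : List ℕ) : ℕ :=
  TP2 C g n us
    [uB 0, uB (sl n 1), uB (sl n 2), uB (sl n 3), uB (sl n 7), uB (sl n 8), uB (sl n 9)]
    [uB 0, uB (sl n 1), uB (sl n 2), uB (sl n 3), uB (sl n 4), uB (sl n 5), uB (sl n 6)]
    (nsum id us)

def TP (C : C1) (g0 n : ℕ) : ℕ :=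
  fN (gperm g0 n) fun g => TP1 C g n
    [uA 0, uA (sl n 1), uA (sl n 2), uA (sl n 3), uA (sl n 4), uA (sl n 5), uA (sl n 6)]

def zf0 (_ : ℕ) : ℕ := 0

/-- positive (`s = true`) or negative part of `y * l * l'`; entry `c + 2^19 c' + 2^38 y` -/
def prP (g : ℕ) (s : Bool) (e : ℕ) : ℕ :=
  fN (Nat.mod e 524288) fun c => fN (Nat.mod (Nat.div e 524288) 524288) fun c' =>
    bif okM g (Nat.sub 2046 g) (rowM c) && okM g (Nat.sub 2046 g) (rowM c') then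
      Nat.mul (Nat.div e 274877906944) (bif s then
        Nat.add (Nat.mul (spn uA zf0 (row1 c)) (spn uB zf0 (row1 c')))
          (Nat.mul (spn zf0 uA (row1 c)) (spn zf0 uB (row1 c')))
      else
        Nat.add (Nat.mul (spn uA zf0 (row1 c)) (spn zf0 uB (row1 c')))
          (Nat.mul (spn zf0 uA (row1 c)) (spn uB zf0 (row1 c'))))
    else 0

def usA : List ℕ := [uA 0, uA 1, uA 2, uA 3, uA 4, uA 5, uA 6, uA 7, uA 8, uA 9, uA 10]
def usB : List ℕ := [uB 0, uB 1, uB 2, uB 3, uB 4, uB 5, uB 6, uB 7, uB 8, uB 9, uB 10]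

/-- a valid form times a sum of squares and products of two valid forms -/
def pwP (Q Qp g : ℕ) (bl : ℕ × ℕ × ℕ × ℕ) : ℕ :=
  bif okM g (Nat.sub 2046 g) (rowM bl.1) then
    tm3
      (Nat.add (sqPos Q (Nat.pow Q 11) bl.2.1 usA usB (nsum id usA) (nsum id usB) bl.2.2.1 bl.2.2.1)
        (ploop Qp (prP g true) 2000 bl.2.2.2))
      (Nat.add (sqNeg Q (Nat.pow Q 11) bl.2.1 usA usB (nsum id usA) (nsum id usB) bl.2.2.1 bl.2.2.1)
        (ploop Qp (prP g false) 2000 bl.2.2.2))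
      uC nC (row1 bl.1)
  else 0

def slc (f c : ℕ) : ℕ := Nat.mod (Nat.div f (Nat.pow (Nat.pow BA 144) c)) (Nat.pow BA 144)
def dg (f a b c : ℕ) : ℕ := Nat.mod (Nat.div (slc f c) (Nat.pow BA (Nat.add a (Nat.mul 12 b)))) BA

/-- sum over the six orders; `f i`, `f j`, `f k` are the slices -/
def s6 (f i j k i' j' k' : ℕ) : ℕ :=
  Nat.add (Nat.add (Nat.add (dg f i j k') (dg f j i k')) (Nat.add (dg f i k j') (dg f k i j')))
    (Nat.add (dg f j k i') (dg f k j i'))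

def r11 : List (ℕ × ℕ) :=
  [(0, 11), (1, 12), (2, 13), (3, 14), (4, 15), (5, 16), (6, 17), (7, 18), (8, 19), (9, 20), (10, 21)]

def bad (f : ℕ) : ℕ :=
  nsum (fun k => nsum (fun j => bif Nat.ble j.1 k.1 then nsum (fun i => bif Nat.ble i.1 j.1 then
    Nat.sub (s6 f i.1 j.1 k.1 i.1 j.1 k.1) (s6 f i.1 j.1 k.1 i.2 j.2 k.2) else 0) r11 else 0) r11)
    r11

def fin1 (f : ℕ) : Bool :=
  Nat.blt f (Nat.pow BA 3312) &&
    Nat.blt (Nat.add (dg f 0 0 0) (Nat.mul 27 (bad f))) (dg f 0 0 11)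

def chk1 (C : C1) (g Q Qp : ℕ) (pw : List (ℕ × ℕ × ℕ × ℕ)) : Bool :=
  fN (Nat.add (nsum (TP C g) SM) (nsum (pwP Q Qp g) pw)) fin1

end

end Pool.Agent.P.MP_c18ddb_co.Q
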