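import Pool.Agent.P.MP_c18ddb_co.Q.RowsN

/-! Checker for certificates about rooted structures. -/

namespace Pool.Agent.P.MP_c18ddb_co.Q

open Finset

structure C2 where
  Q : ℕ
  Qv : ℕ
  m0 : ℕ
  one : List (List ℕ)
  reg : List ℕ
  ker : List (ℕ × ℕ × List ℕ)
  prs : ℕ
  pw : List (ℕ × ℕ)

def BB : ℕ := 340282366920938463463374607431768211456

def regF (Q n : ℕ) : List (ℤ × ℕ) :=
  (uns Q 6 n).zipIdx.flatMap fun p => [(Int.mul 7 p.1, 16 + p.2), (Int.mul (-3) p.1, 0)]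

def cfgs : List (ℕ × ℕ) :=
  (List.range 11).flatMap fun F => (List.range (11 - F)).map fun i => (F, F + i)

noncomputable section

def wsw (f : ℕ) : ℕ × ℕ := (f, swp (Nat.pow BB 22) f)

/-- terms that depend on the first point: products with mass inequalities, regularity -/
def tabF (C : C2) (LM : List (List ℤ)) (pk u nu : ℕ → ℕ) (F : ℕ) : List (List ℤ × ℕ × ℕ) × ℕ :=
  ((lk [] C.one F).map fun g => (lk [] LM (Nat.mod g 256),
      wsw (cmb C.Q (red2 F 11 0) (blue2 F 11 0) pk (Nat.div g 256))),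
    spn u nu (regF C.Q (lk 0 C.reg F)))

def useT (t : List (List ℤ × ℕ × ℕ) × ℕ) (G : ℕ) : ℕ :=
  Nat.add t.2 (nsum (fun g => sm2 (lk 0 g.1 G) g.2.1 g.2.2) t.1)

/-- root forms with sums of squares: rank, columns, packed form and its negative -/
def kerT (C : C2) (Zs : List (List (ℤ × ℕ))) (u nu : ℕ → ℕ) : List (ℕ × List ℕ × ℕ × ℕ) :=
  C.ker.map fun k => (k.2.1, k.2.2, wsw (spn u nu (lk [] ([(1, 0)] :: Zs) k.1)))

def useK (Qv F G : ℕ) (k : ℕ × List ℕ × ℕ × ℕ) : ℕ :=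
  Nat.add
    (Nat.mul (Nat.add (dotp Qv k.1 (lk 0 k.2.1 F) (lk 0 k.2.1 G))
      (Nat.mul k.1 (Nat.mul (Nat.div Qv 2) (Nat.div Qv 2)))) k.2.2.1)
    (Nat.mul (Nat.mul (Nat.div Qv 2) (Nat.add (sump Qv k.1 (lk 0 k.2.1 F))
      (sump Qv k.1 (lk 0 k.2.1 G)))) k.2.2.2)

/-- products of two mass inequalities -/
def useP (LM : List (List ℤ)) (u0 nu0 F G e : ℕ) : ℕ :=
  Nat.mul (Nat.div e 65536) (sm2 (Int.add
    (Int.mul (lk 0 (lk [] LM (Nat.mod e 256)) F) (lk 0 (lk [] LM (Nat.mod (Nat.div e 256) 256)) G))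
    (Int.mul (lk 0 (lk [] LM (Nat.mod e 256)) G) (lk 0 (lk [] LM (Nat.mod (Nat.div e 256) 256)) F)))
    u0 nu0)

def chkP (Q : ℕ) (pk : ℕ → ℕ) (F G X Y : ℕ) (q : ℕ × ℕ) : Bool :=
  finN BB 21 3 (Nat.add X (swp (Nat.pow BB 22)
      (Nat.add Y (cmb Q (red2 F G 0) (blue2 F G 0) pk q.1)))) &&
    finN BB 21 3 (Nat.add X (swp (Nat.pow BB 22)
      (Nat.add Y (cmb Q (red2 F G 1) (blue2 F G 1) pk q.2))))

def go {α β : Type} (f : α → β → Bool) (l : List α) : List β → Bool :=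
  List.rec (motive := fun _ => List β → Bool) (fun _ => true)
    (fun a _ ih l' => List.rec false (fun b t _ => f a b && ih t) l') l

def chk2a (C : C2) (tm : List ℤ) (LM : List (List ℤ)) (pk : ℕ → ℕ) (u0 nu0 tz : ℕ)
    (T1 T2 : ℕ → List (List ℤ × ℕ × ℕ) × ℕ) (K : List (ℕ × List ℕ × ℕ × ℕ)) : Bool :=
  go (fun p q => fN p.1 fun F => fN p.2 fun G => chkP C.Q pk F G
    (Nat.mul C.m0 (Nat.add tz (sm2 (Int.add (lk 0 tm F) (lk 0 tm G)) u0 nu0)))
    (Nat.add (Nat.add (useT (T1 F) G) (useT (T2 G) F))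
      (Nat.add (Nat.mul 2 (nsum (useK C.Qv F G) K)) (ploop C.Q (useP LM u0 nu0 F G) 200 C.prs)))
    q) cfgs C.pw

def chk2b (C : C2) (tm tz : List ℤ) (LM : List (List ℤ)) (Zs : List (List (ℤ × ℕ)))
    (u nu u1 nu1 : ℕ → ℕ) : Bool :=
  Nat.blt 0 C.m0 && chk2a C tm LM (fun c => spn u nu (rowZ Zs c)) (u 0) (nu 0)
    (Nat.mul 2 (spn u nu (zf tz)))
    (tabF C LM (fun c => spn u1 nu1 (rowZ Zs c)) u nu)
    (tabF C LM (fun c => spn (fun k => bif Nat.blt k 16 then u (sw k) else 0)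
      (fun k => bif Nat.blt k 16 then nu (sw k) else 0) (rowZ Zs c))
      (fun k => u (sw k)) (fun k => nu (sw k)))
    (kerT C Zs u nu)

def chk2 (C : C2) (Lm Lz : List (List ℤ)) (tm tz : List ℤ) : Bool :=
  chk2b C tm tz (cl actM Lm) ((cl actZ Lz).map zf) (upos BB 22 22) (uneg BB 22 22)
    (upos BB 22 16) (uneg BB 22 16)

end

theorem c2_go {α β : Type} (f : α → β → Bool) (l : List α) :
    ∀ l' : List β, go f l l' = true → ∀ a ∈ l, ∃ b, f a b = true := by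
  induction l with
  | nil => intro _ _ a ha; simp at ha
  | cons a l ih =>
    intro l' h
    cases l' with
    | nil => exact absurd h (by change ¬ false = true; simp)
    | cons b t =>
      have h' : (f a b && go f l t) = true := h
      rw [Bool.and_eq_true] at h'
      intro a' ha'
      rcases List.mem_cons.1 ha' with rfl | ha'
      · exact ⟨b, h'.1⟩
      · exact ih t h'.2 a' ha'

theorem c2_cfgs {F G : ℕ} (h : F ≤ G) (hG : G ≤ 10) : (F, G) ∈ cfgs := by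
  refine List.mem_flatMap.2 ⟨F, List.mem_range.2 (by omega), List.mem_map.2
    ⟨G - F, List.mem_range.2 (by omega), ?_⟩⟩
  rw [Nat.add_sub_cancel' h]

theorem c2_getD {α : Type} (l : List α) (i : ℕ) (x : α) : l.getD i x ∈ l ∨ l.getD i x = x := by
  rcases lt_or_ge i l.length with h | h
  · rw [List.getD_eq_getElem _ _ h]
    exact Or.inl (List.getElem_mem h)
  · exact Or.inr (List.getD_eq_default _ _ h)

theorem c2_blt {a b : ℕ} (h : a < b) : Nat.blt a b = true := Nat.blt_eq.mpr h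

theorem c2_BB : 2 ≤ BB := by unfold BB; norm_num

theorem c2_nsum_map {α β : Type} (f : β → ℕ) (φ : α → β) (l : List α) :
    nsum f (l.map φ) = nsum (fun a => f (φ a)) l := by
  rw [nsum_eq, nsum_eq, List.map_map]
  rfl

/-- entry of a mass form -/
def mE (LM : List (List ℤ)) (i F : ℕ) : ℤ := (LM.getD i []).getD F 0

noncomputable section

abbrev Rp (d : ℕ → ℝ) (f : ℕ) (v : ℝ) : Prop := RepN BB (2 * 22 + 1) (sg 22 d) f v

def grpR (C : C2) (LM : List (List ℤ)) (val : ℕ → ℝ) (F G : ℕ) : ℝ :=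
  ((C.one.getD F []).map fun g => (mE LM (g % 256) G : ℝ) *
    cmbR C.Q (red2 F 11 0) (blue2 F 11 0) val (g / 256)).sum

def eK (Qv c i : ℕ) : ℝ := ((c / Qv ^ i % Qv : ℕ) : ℝ) - ((Qv / 2 : ℕ) : ℝ)

def kerR (C : C2) (val : ℕ → ℝ) (F G : ℕ) : ℝ :=
  (C.ker.map fun k => (∑ i ∈ range k.2.1,
    eK C.Qv (k.2.2.getD F 0) i * eK C.Qv (k.2.2.getD G 0) i) * val k.1).sum

def prR (C : C2) (LM : List (List ℤ)) (F G : ℕ) : ℝ :=
  ((unp C.Q 200 C.prs).map fun e => ((e / 65536 : ℕ) : ℝ) *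
    ((mE LM (e % 256) F : ℝ) * mE LM (e / 256 % 256) G +
      (mE LM (e % 256) G : ℝ) * mE LM (e / 256 % 256) F)).sum

end

theorem Rp.cast {d : ℕ → ℝ} {f : ℕ} {v w : ℝ} (h : Rp d f v) (e : v = w) : Rp d f w := e ▸ h

theorem c2_useT {d : ℕ → ℝ} (C : C2) (LM : List (List ℤ)) {pk u nu : ℕ → ℕ} {val dd : ℕ → ℝ}
    (hpk : ∀ c, Rp d (pk c) (val c)) (hu : ∀ k, Rp d (u k) (dd k))
    (hnu : ∀ k, Rp d (nu k) (-dd k)) (F G : ℕ) :
    Rp d (useT (tabF C LM pk u nu F) G)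
      (sev dd (regF C.Q (C.reg.getD F 0)) + grpR C LM val F G) := by
  unfold useT tabF grpR
  dsimp only
  refine repN_add ?_ ?_
  · rw [lk_eq]
    exact repN_spn hu hnu _
  · rw [c2_nsum_map, lk_eq]
    refine repN_nsum _ fun g _ => ?_
    have h1 := repN_cmb hpk C.Q (red2 F 11 0) (blue2 F 11 0) (Nat.div g 256)
    have h2 := repN_sm2 (mE LM (g % 256) G) h1 (repN_swp c2_BB h1)
    have e : lk 0 (lk [] LM (Nat.mod g 256)) G = mE LM (g % 256) G := by
      rw [lk_eq, lk_eq]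
      rfl
    dsimp only [wsw]
    rw [e]
    exact h2

theorem c2_useK {d : ℕ → ℝ} (Qv F G r : ℕ) (cols : List ℕ) {f : ℕ} {v : ℝ} (hf : Rp d f v) :
    Rp d (useK Qv F G (r, cols, wsw f))
      ((∑ i ∈ range r, eK Qv (cols.getD F 0) i * eK Qv (cols.getD G 0) i) * v) := by
  refine Rp.cast (repN_add (repN_sm _ hf) (repN_sm _ (repN_swp c2_BB hf))) ?_
  simp only [lk_eq, dotp_eq, sump_eq, Nat.add_eq, Nat.mul_eq, eK]
  have e : Nat.div Qv 2 = Qv / 2 := rfl
  rw [e]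
  generalize Qv / 2 = h
  push_cast
  have : ∀ (a b : ℕ → ℝ), ∑ i ∈ range r, (a i - h) * (b i - h) =
      ∑ i ∈ range r, a i * b i + r * (h * h) - h * (∑ i ∈ range r, a i + ∑ i ∈ range r, b i) := by
    intro a b
    induction r with
    | zero => simp
    | succ r ih =>
      rw [sum_range_succ, sum_range_succ, sum_range_succ, sum_range_succ, ih]
      push_cast
      ring
  rw [this]
  ring

theorem c2_kerT {d : ℕ → ℝ} (C : C2) (Zs : List (List (ℤ × ℕ))) {u nu : ℕ → ℕ} {dd : ℕ → ℝ}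
    (hu : ∀ k, Rp d (u k) (dd k)) (hnu : ∀ k, Rp d (nu k) (-dd k)) (F G : ℕ) :
    Rp d (nsum (useK C.Qv F G) (kerT C Zs u nu))
      (kerR C (fun n => sev dd (([(1, 0)] :: Zs).getD n [])) F G) := by
  unfold kerT kerR
  rw [c2_nsum_map]
  refine repN_nsum _ fun k _ => ?_
  rw [lk_eq]
  exact c2_useK C.Qv F G k.2.1 k.2.2 (repN_spn hu hnu _)

theorem c2_useP {d : ℕ → ℝ} (C : C2) (LM : List (List ℤ)) {u0 nu0 : ℕ} (hu : Rp d u0 1)
    (hnu : Rp d nu0 (-1)) (F G : ℕ) :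
    Rp d (ploop C.Q (useP LM u0 nu0 F G) 200 C.prs) (prR C LM F G) := by
  unfold prR
  refine repN_ploop _ _ _ fun e => ?_
  refine Rp.cast (repN_sm _ (repN_sm2 _ hu hnu)) ?_
  simp only [lk_eq, Int.add_def, Int.mul_def]
  push_cast
  rw [mul_one]
  rfl

theorem c2_chkP {d : ℕ → ℝ} (h0 : d 0 = 1) (hd : ∀ i, 0 ≤ d i ∧ d i ≤ 3) {Q : ℕ} {pk : ℕ → ℕ}
    {val : ℕ → ℝ} (hpk : ∀ c, Rp d (pk c) (val c)) {F G X Y : ℕ} {vX vY : ℝ} (hX : Rp d X vX)
    (hY : Rp d Y vY) {q : ℕ × ℕ} (h : chkP Q pk F G X Y q = true) {c : ℕ} (hc : c = 0 ∨ c = 1)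
    (hv : ∀ n, okM (red2 F G c) (blue2 F G c) (rowM n) = true → 0 ≤ val n) : vY ≤ vX := by
  have key : ∀ n, finN BB 21 3 (Nat.add X (swp (Nat.pow BB 22)
      (Nat.add Y (cmb Q (red2 F G c) (blue2 F G c) pk n)))) = true → vY ≤ vX := by
    intro n hn
    have h1 := repN_add hX (repN_swp c2_BB (repN_add hY (repN_cmb hpk Q (red2 F G c)
      (blue2 F G c) n)))
    have h2 := finN_sound (m := 21) (U := 3) h1 h0 (by simpa using hd) hn
    have h3 := cmbR_nonneg Q hv n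
    linarith
  unfold chkP at h
  rw [Bool.and_eq_true] at h
  rcases hc with rfl | rfl
  · exact key _ h.1
  · exact key _ h.2

theorem c2_chk2a {C : C2} {tm : List ℤ} {LM : List (List ℤ)} {pk : ℕ → ℕ} {u0 nu0 tz : ℕ}
    {T1 T2 : ℕ → List (List ℤ × ℕ × ℕ) × ℕ} {K : List (ℕ × List ℕ × ℕ × ℕ)}
    (h : chk2a C tm LM pk u0 nu0 tz T1 T2 K = true) {F G : ℕ} (hFG : F ≤ G) (hG : G ≤ 10) :
    ∃ q, chkP C.Q pk F G
      (Nat.mul C.m0 (Nat.add tz (sm2 (Int.add (lk 0 tm F) (lk 0 tm G)) u0 nu0)))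
      (Nat.add (Nat.add (useT (T1 F) G) (useT (T2 G) F))
        (Nat.add (Nat.mul 2 (nsum (useK C.Qv F G) K))
          (ploop C.Q (useP LM u0 nu0 F G) 200 C.prs))) q = true := by
  unfold chk2a at h
  obtain ⟨q, hq⟩ := c2_go _ _ _ h _ (c2_cfgs hFG hG)
  refine ⟨q, ?_⟩
  rw [fN_eq, fN_eq] at hq
  exact hq

section
variable {V : Type} [Fintype V]

/-- mean with respect to the weights -/
noncomputable def E1 (R : Rt V) (f : V → ℝ) : ℝ := ∑ y, R.S.x y * f y

theorem E1_add (R : Rt V) (f g : V → ℝ) : E1 R (fun y => f y + g y) = E1 R f + E1 R g := by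
  simp only [E1, mul_add, sum_add_distrib]

theorem E1_sub (R : Rt V) (f g : V → ℝ) : E1 R (fun y => f y - g y) = E1 R f - E1 R g := by
  simp only [E1, mul_sub, sum_sub_distrib]

theorem E1_mul (R : Rt V) (c : ℝ) (f : V → ℝ) : E1 R (fun y => c * f y) = c * E1 R f := by
  simp only [E1, mul_sum, mul_left_comm]

theorem E1_mul' (R : Rt V) (c : ℝ) (f : V → ℝ) : E1 R (fun y => f y * c) = E1 R f * c := by
  simp only [E1, sum_mul, mul_assoc]

theorem E1_const (R : Rt V) (c : ℝ) : E1 R (fun _ => c) = c := by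
  rw [E1, ← sum_mul, R.S.x_sum, one_mul]

theorem E1_nonneg (R : Rt V) {f : V → ℝ} (h : ∀ y, 0 ≤ f y) : 0 ≤ E1 R f :=
  sum_nonneg fun y _ => mul_nonneg (R.S.x_nonneg y) (h y)

theorem E1_comm (R : Rt V) (f : V → V → ℝ) :
    E1 R (fun y => E1 R fun y' => f y' y) = E1 R fun y => E1 R fun y' => f y y' := by
  simp only [E1, mul_sum]
  rw [sum_comm]
  simp only [mul_left_comm]

theorem E1_sum (R : Rt V) (r : ℕ) (f : ℕ → V → ℝ) :
    E1 R (fun y => ∑ i ∈ range r, f i y) = ∑ i ∈ range r, E1 R (f i) := by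
  simp only [E1, mul_sum]
  rw [sum_comm]

theorem E1_list (R : Rt V) {α : Type} (l : List α) (f : α → V → ℝ) :
    E1 R (fun y => (l.map fun a => f a y).sum) = (l.map fun a => E1 R (f a)).sum := by
  induction l with
  | nil => simp [E1]
  | cons a l ih => simp only [List.map_cons, List.sum_cons, E1_add, ih]

theorem c2_list_nonneg {α : Type} (l : List α) (f : α → ℝ) (h : ∀ a, 0 ≤ f a) :
    0 ≤ (l.map f).sum := by
  refine List.sum_nonneg fun v hv => ?_
  obtain ⟨e, -, rfl⟩ := List.mem_map.1 hv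
  exact h e

theorem c2_mE (R : Rt V) {LM : List (List ℤ)} (hM : ∀ b ∈ LM, 0 ≤ valM R b) (i : ℕ) :
    0 ≤ E1 R fun y => (mE LM i (R.ty y) : ℝ) := by
  rcases c2_getD LM i [] with h | h
  · exact hM _ h
  · unfold mE
    rw [h]
    simp [E1]

theorem c2_reg (R : Rt V) (y : V) (Q n : ℕ) : E1 R (fun y' => sev (R.dd y y') (regF Q n)) = 0 := by
  have key : ∀ l : List (ℤ × ℕ), (∀ p ∈ l, p.2 < 6) → E1 R (fun y' => sev (R.dd y y')
      (l.flatMap fun p => [(Int.mul 7 p.1, 16 + p.2), (Int.mul (-3) p.1, 0)])) = 0 := by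
    intro l
    induction l with
    | nil => intro _; simp [sev, E1]
    | cons p l ih =>
      intro h
      simp only [List.flatMap_cons, sev_append, E1_add]
      rw [ih fun q hq => h q (List.mem_cons_of_mem _ hq), add_zero]
      have e : ∀ y', sev (R.dd y y') [(Int.mul 7 p.1, 16 + p.2), (Int.mul (-3) p.1, 0)] =
          (p.1 : ℝ) * (7 * R.dd y y' (16 + p.2) - 3) := by
        intro y'
        simp only [sev, Int.mul_def, dd_zero]
        push_cast
        ring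
      simp only [e, E1_mul]
      rw [E1, reg_zero R y p.2 (h p List.mem_cons_self), mul_zero]
  refine key _ fun p hp => ?_
  have h1 := List.snd_lt_of_mem_zipIdx hp
  have h2 : (uns Q 6 n).length ≤ 6 := by
    rw [uns, List.length_map]
    exact unp_length Q 6 n
  omega

theorem c2_grp (R : Rt V) (C : C2) {LM : List (List ℤ)} (hM : ∀ b ∈ LM, 0 ≤ valM R b)
    {Zs : List (List (ℤ × ℕ))} (hZ : ∀ y y', ∀ l ∈ Zs, 0 ≤ sev (db (R.dd y y') 16) l) (y : V) :
    0 ≤ E1 R fun y' =>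
      grpR C LM (fun c => sev (db (R.dd y y') 16) (rowZ Zs c)) (R.ty y) (R.ty y') := by
  simp only [db_indep R y, grpR]
  rw [E1_list]
  refine c2_list_nonneg _ _ fun g => ?_
  rw [E1_mul']
  exact mul_nonneg (c2_mE R hM _)
    (cmbR_nonneg _ (fun c hc => rowZ1_nonneg R y y Zs (hZ y y) c hc) _)

theorem c2_ker (R : Rt V) (C : C2) {val : ℕ → ℝ} (hv : ∀ n, 0 ≤ val n) :
    0 ≤ E1 R fun y => E1 R fun y' => kerR C val (R.ty y) (R.ty y') := by
  simp only [kerR, E1_list]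
  refine c2_list_nonneg _ _ fun k => ?_
  simp only [E1_mul', E1_sum, E1_mul]
  exact mul_nonneg (sum_nonneg fun i _ => mul_self_nonneg _) (hv _)

theorem c2_pr (R : Rt V) (C : C2) {LM : List (List ℤ)} (hM : ∀ b ∈ LM, 0 ≤ valM R b) :
    0 ≤ E1 R fun y => E1 R fun y' => prR C LM (R.ty y) (R.ty y') := by
  simp only [prR, E1_list]
  refine c2_list_nonneg _ _ fun e => ?_
  simp only [E1_mul', E1_add, E1_mul]
  exact mul_nonneg (Nat.cast_nonneg _) (add_nonneg (mul_nonneg (c2_mE R hM _) (c2_mE R hM _))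
    (mul_nonneg (c2_mE R hM _) (c2_mE R hM _)))

theorem c2_kerR_symm (C : C2) (val : ℕ → ℝ) (F G : ℕ) : kerR C val F G = kerR C val G F := by
  simp only [kerR, mul_comm (eK C.Qv (List.getD _ F 0) _)]

theorem c2_prR_symm (C : C2) (LM : List (List ℤ)) (F G : ℕ) : prR C LM F G = prR C LM G F := by
  simp only [prR, add_comm ((mE LM _ F : ℝ) * _)]

theorem c2_valK (R : Rt V) (Lz : List (List ℤ)) (y y' : V) (n : ℕ) :
    sev (R.dd y y') (([(1, 0)] :: Lz.map zf).getD n []) =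
      sev (R.dd R.r0 R.r0) (([(1, 0)] :: Lz.map zf).getD n []) := by
  rcases c2_getD ([(1, 0)] :: Lz.map zf) n [] with h | h
  · rcases List.mem_cons.1 h with h | h
    · rw [h]
      simp only [sev, dd_zero]
    · obtain ⟨z, -, hz⟩ := List.mem_map.1 h
      rw [← hz, sev_zf, sev_zf]
  · rw [h]
    simp only [sev]

theorem c2_valK_nonneg (R : Rt V) {Lz : List (List ℤ)} (hZ : ∀ z ∈ Lz, 0 ≤ valZ R z) (n : ℕ) :
    0 ≤ sev (R.dd R.r0 R.r0) (([(1, 0)] :: Lz.map zf).getD n []) := by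
  rcases c2_getD ([(1, 0)] :: Lz.map zf) n [] with h | h
  · rcases List.mem_cons.1 h with h | h
    · rw [h]
      simp [sev, dd_zero]
    · obtain ⟨z, hz', hz⟩ := List.mem_map.1 h
      rw [← hz]
      exact hZ z hz'
  · rw [h]
    exact le_rfl

/-- terms attached to the first point -/
noncomputable def aR (R : Rt V) (C : C2) (LM : List (List ℤ)) (Zs : List (List (ℤ × ℕ)))
    (y y' : V) : ℝ :=
  sev (R.dd y y') (regF C.Q (C.reg.getD (R.ty y) 0)) +
    grpR C LM (fun c => sev (db (R.dd y y') 16) (rowZ Zs c)) (R.ty y) (R.ty y')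

theorem c2_db (R : Rt V) (y y' : V) : db (R.dd y y') 22 = R.dd y y' := by
  funext k
  unfold db
  split_ifs with hk
  · rfl
  · exact (dd_ge R y y' k (not_lt.1 hk)).symm

theorem c2_point (R : Rt V) (C : C2) (tm tz : List ℤ) (LM Lz : List (List ℤ))
    (hZ : ∀ z ∈ Lz, 0 ≤ valZ R z)
    (h : chk2b C tm tz LM (Lz.map zf) (upos BB 22 22) (uneg BB 22 22) (upos BB 22 16)
      (uneg BB 22 16) = true) (y y' : V) (hy : R.ty y ≤ R.ty y') :
    aR R C LM (Lz.map zf) y y' + aR R C LM (Lz.map zf) y' y +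
      (2 * kerR C (fun n => sev (R.dd R.r0 R.r0) (([(1, 0)] :: Lz.map zf).getD n []))
        (R.ty y) (R.ty y') + prR C LM (R.ty y) (R.ty y')) ≤
      C.m0 * (2 * valZ R tz + (((tm.getD (R.ty y) 0 : ℤ) : ℝ) + (tm.getD (R.ty y') 0 : ℤ))) := by
  unfold chk2b at h
  rw [Bool.and_eq_true] at h
  obtain ⟨q, hq⟩ := c2_chk2a h.2 hy (ty_le R y')
  have hu : ∀ k, Rp (R.dd y y') (upos BB 22 22 k) (R.dd y y' k) := fun k =>
    Rp.cast (repN_upos le_rfl k) (by rw [c2_db])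
  have hnu : ∀ k, Rp (R.dd y y') (uneg BB 22 22 k) (-R.dd y y' k) := fun k =>
    Rp.cast (repN_uneg le_rfl k) (by rw [c2_db])
  have hu1 : ∀ k, Rp (R.dd y y') (upos BB 22 16 k) (db (R.dd y y') 16 k) := fun k =>
    repN_upos (by norm_num) k
  have hnu1 : ∀ k, Rp (R.dd y y') (uneg BB 22 16 k) (-db (R.dd y y') 16 k) := fun k =>
    repN_uneg (by norm_num) k
  have hs : ∀ k, Rp (R.dd y y') (upos BB 22 22 (sw k)) (R.dd y' y k) := fun k =>
    Rp.cast (hu _) (dd_sw R y y' k).symm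
  have hns : ∀ k, Rp (R.dd y y') (uneg BB 22 22 (sw k)) (-R.dd y' y k) := fun k =>
    Rp.cast (hnu _) (by rw [dd_sw R y y' k])
  have hs1 : ∀ k, Rp (R.dd y y') (bif Nat.blt k 16 then upos BB 22 22 (sw k) else 0)
      (db (R.dd y' y) 16 k) := by
    intro k
    unfold db
    by_cases hk : k < 16
    · rw [if_pos hk, c2_blt hk]
      exact hs k
    · have : Nat.blt k 16 = false := by
        rw [← Bool.not_eq_true, Nat.blt_eq]; exact hk
      rw [if_neg hk, this]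
      exact repN_zero
  have hns1 : ∀ k, Rp (R.dd y y') (bif Nat.blt k 16 then uneg BB 22 22 (sw k) else 0)
      (-db (R.dd y' y) 16 k) := by
    intro k
    unfold db
    by_cases hk : k < 16
    · rw [if_pos hk, c2_blt hk]
      exact hns k
    · have : Nat.blt k 16 = false := by
        rw [← Bool.not_eq_true, Nat.blt_eq]; exact hk
      rw [if_neg hk, this, neg_zero]
      exact repN_zero
  have hu0 : Rp (R.dd y y') (upos BB 22 22 0) 1 := hu 0
  have hnu0 : Rp (R.dd y y') (uneg BB 22 22 0) (-1) := hnu 0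
  have hX := repN_sm C.m0 (repN_add (repN_sm 2 (repN_spn hu hnu (zf tz)))
    (repN_sm2 (Int.add (lk 0 tm (R.ty y)) (lk 0 tm (R.ty y'))) hu0 hnu0))
  have hY := repN_add (repN_add
    (c2_useT C LM (fun c => repN_spn hu1 hnu1 (rowZ (Lz.map zf) c)) hu hnu (R.ty y) (R.ty y'))
    (c2_useT C LM (fun c => repN_spn hs1 hns1 (rowZ (Lz.map zf) c)) hs hns (R.ty y') (R.ty y)))
    (repN_add (repN_sm 2 (c2_kerT C (Lz.map zf) hu hnu (R.ty y) (R.ty y')))
      (c2_useP C LM hu0 hnu0 (R.ty y) (R.ty y')))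
  have hc : R.cn y y' = 0 ∨ R.cn y y' = 1 := by
    unfold Rt.cn
    cases R.S.c y y'
    · exact Or.inl rfl
    · exact Or.inr rfl
  have hZ' : ∀ l ∈ Lz.map zf, 0 ≤ sev (R.dd y y') l := by
    intro l hl
    obtain ⟨z, hz, rfl⟩ := List.mem_map.1 hl
    rw [sev_zf]
    exact hZ z hz
  have key := c2_chkP (dd_zero R y y') (dd_bound R y y')
    (fun c => repN_spn hu hnu (rowZ (Lz.map zf) c)) hX hY hq hc
    (fun n hn => rowZ2_nonneg R y y' _ hZ' n hn)
  simp only [c2_valK R Lz y y', sev_zf, lk_eq, Int.add_def] at key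
  push_cast at key
  rw [mul_one] at key
  exact key

end

theorem imp_of_chk2 (C : C2) (Lm Lz : List (List ℤ)) (tm tz : List ℤ)
    (h : chk2 C Lm Lz tm tz = true) : Imp Lm Lz tm tz := by
  intro V _ R hM hZ
  unfold chk2 at h
  have hm : (0 : ℝ) < C.m0 := by
    have h' := h
    unfold chk2b at h'
    rw [Bool.and_eq_true] at h'
    exact_mod_cast Nat.blt_eq.mp h'.1
  set LM := cl actM Lm
  set LZ := cl actZ Lz
  set val : ℕ → ℝ := fun n => sev (R.dd R.r0 R.r0) (([(1, 0)] :: LZ.map zf).getD n []) with hval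
  have hall : ∀ y y', 0 ≤
      C.m0 * (2 * valZ R tz + (((tm.getD (R.ty y) 0 : ℤ) : ℝ) + (tm.getD (R.ty y') 0 : ℤ))) -
      (aR R C LM (LZ.map zf) y y' + aR R C LM (LZ.map zf) y' y +
        (2 * kerR C val (R.ty y) (R.ty y') + prR C LM (R.ty y) (R.ty y'))) := by
    intro y y'
    rcases le_total (R.ty y) (R.ty y') with hy | hy
    · exact sub_nonneg.2 (c2_point R C tm tz LM LZ hZ h y y' hy)
    · have := c2_point R C tm tz LM LZ hZ h y' y hy
      rw [c2_kerR_symm, c2_prR_symm] at this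
      linarith
  have hE := E1_nonneg R fun y => E1_nonneg R fun y' => hall y y'
  have hA : 0 ≤ E1 R fun y => E1 R fun y' => aR R C LM (LZ.map zf) y y' := by
    refine E1_nonneg R fun y => ?_
    simp only [aR, E1_add, c2_reg, zero_add]
    refine c2_grp R C hM (fun u u' l hl => ?_) y
    obtain ⟨z, hz, rfl⟩ := List.mem_map.1 hl
    rw [sev_zf_db]
    exact hZ z hz
  have hA' := E1_comm R (aR R C LM (LZ.map zf))
  have hK := c2_ker R C (val := val) (c2_valK_nonneg R hZ)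
  have hP := c2_pr R C hM
  have hT : E1 R (fun y => ((tm.getD (R.ty y) 0 : ℤ) : ℝ)) = valM R tm := rfl
  simp only [E1_sub, E1_add, E1_mul, E1_const, hT] at hE
  have : 0 ≤ (C.m0 : ℝ) * (2 * (valM R tm + valZ R tz)) := by linarith
  have := nonneg_of_mul_nonneg_right this hm
  linarith

end Pool.Agent.P.MP_c18ddb_co.Q
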