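import Pool.Agent.P.MP_c18ddb_co.Q.Defs

namespace Pool.Agent.P.MP_c18ddb_co.Q

open Finset

theorem cover_quad {α β δ : ℝ} (hδ : 0 < δ) (h : ∀ t, |t| ≤ δ → 0 ≤ 2 * t * α + t ^ 2 * β) :
    α = 0 ∧ 0 ≤ β := by
  have hβ : 0 ≤ β := by
    have h1 := h δ (abs_of_pos hδ).le
    have h2 := h (-δ) (by rw [abs_neg]; exact (abs_of_pos hδ).le)
    have h3 : 0 ≤ δ ^ 2 * β := by nlinarith
    by_contra hn
    nlinarith [mul_pos (pow_pos hδ 2) (neg_pos.2 (not_le.1 hn))]
  refine ⟨?_, hβ⟩
  obtain ⟨r, hr0, hr1, hr2⟩ : ∃ r : ℝ, 0 < r ∧ r * |α| ≤ δ ∧ r * β ≤ 1 := by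
    refine ⟨min (δ / (|α| + 1)) (1 / (β + 1)), lt_min (by positivity) (by positivity), ?_, ?_⟩
    · refine (mul_le_mul_of_nonneg_right (min_le_left _ _) (abs_nonneg α)).trans ?_
      rw [div_mul_eq_mul_div, div_le_iff₀ (by positivity)]
      nlinarith [abs_nonneg α]
    · refine (mul_le_mul_of_nonneg_right (min_le_right _ _) hβ).trans ?_
      rw [div_mul_eq_mul_div, div_le_iff₀ (by positivity)]
      linarith
  have h4 := h (-(r * α)) (by rw [abs_neg, abs_mul, abs_of_pos hr0]; exact hr1)
  by_contra hne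
  have h5 : 0 < r * α ^ 2 := by positivity
  nlinarith

/-- the bilinear form of a weight matrix -/
def coverB {W : Type} [Fintype W] (D : W → W → ℝ) (x y : W → ℝ) : ℝ :=
  ∑ u, x u * ∑ v, y v * D u v

theorem coverB_symm {W : Type} [Fintype W] {D : W → W → ℝ} (hD : ∀ u v, D u v = D v u)
    (x y : W → ℝ) : coverB D x y = coverB D y x := by
  unfold coverB
  simp only [mul_sum]
  rw [sum_comm]
  refine sum_congr rfl fun u _ => sum_congr rfl fun v _ => ?_
  rw [hD v u]
  ring

theorem coverB_add {W : Type} [Fintype W] (D : W → W → ℝ) (x z y : W → ℝ) (t : ℝ) :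
    coverB D (x + t • z) y = coverB D x y + t * coverB D z y := by
  unfold coverB
  rw [mul_sum, ← sum_add_distrib]
  refine sum_congr rfl fun u _ => ?_
  simp only [Pi.add_apply, Pi.smul_apply, smul_eq_mul]
  ring

theorem coverB_pair {W : Type} [Fintype W] [DecidableEq W] (D : W → W → ℝ) (u v : W) (y : W → ℝ) :
    coverB D (Pi.single u 1 - Pi.single v 1) y = ∑ w, y w * D u w - ∑ w, y w * D v w := by
  unfold coverB
  simp only [Pi.sub_apply, sub_mul, sum_sub_distrib, Pi.single_apply, ite_mul, one_mul, zero_mul,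
    sum_ite_eq', mem_univ, if_true]

theorem cover_simplex (hcore : Core) {W : Type} [Fintype W] [DecidableEq W] (c : W → W → Bool)
    (hc : ∀ u v, c u v = c v u) (D : W → W → ℝ) (hD : ∀ u v, D u v = D v u)
    (h0 : ∀ u v, 0 ≤ D u v) (hd : ∀ v, D v v = 3)
    (k3 : ∀ (s : Bool) (a b d : W), c a b = s → c a d = s → c b d = s → 2 ≤ D a b + D a d + D b d)
    (k4 : ∀ (s : Bool) (a b d e : W), c a b = s → c a d = s → c b d = s → c a e = s → c b e = s →
      c d e = s → 5 ≤ D a b + D a d + D b d + D a e + D b e + D d e)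
    (k5 : ∀ (s : Bool) (a b d e f : W), c a b = s → c a d = s → c b d = s → c a e = s →
      c b e = s → c d e = s → c a f = s → c b f = s → c d f = s → c e f = s →
      9 ≤ D a b + D a d + D b d + D a e + D b e + D d e + D a f + D b f + D d f + D e f)
    {y : W → ℝ} (hy : y ∈ stdSimplex ℝ W) : 3 / 7 ≤ coverB D y y := by
  classical
  have hq : Continuous fun x : W → ℝ => coverB D x x := by
    unfold coverB
    fun_prop
  obtain ⟨x, hx, hmin⟩ := (isCompact_stdSimplex ℝ W).exists_isMinOn ⟨y, hy⟩ hq.continuousOn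
  refine le_trans ?_ (hmin hy)
  have key : ∀ u v, 0 < x u → 0 < x v →
      ∑ w, x w * D u w = ∑ w, x w * D v w ∧ D u v ≤ 3 := by
    intro u v hu hv
    have := cover_quad (α := ∑ w, x w * D u w - ∑ w, x w * D v w) (β := 6 - 2 * D u v)
      (lt_min hu hv) fun t ht => by
        have hmem : x + t • (Pi.single u 1 - Pi.single v 1 : W → ℝ) ∈ stdSimplex ℝ W := by
          refine ⟨fun w => ?_, ?_⟩
          · have h1 := abs_le.1 (ht.trans (min_le_left _ _))
            have h2 := abs_le.1 (ht.trans (min_le_right _ _))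
            have h3 := hx.1 w
            simp only [Pi.add_apply, Pi.smul_apply, Pi.sub_apply, smul_eq_mul, Pi.single_apply]
            split_ifs with h4 h5 h5
            · linarith
            · rw [h4]; linarith [h1.1]
            · rw [h5]; linarith [h2.2]
            · linarith
          · simp only [Pi.add_apply, Pi.smul_apply, Pi.sub_apply, smul_eq_mul, sum_add_distrib,
              ← mul_sum, sum_sub_distrib, Pi.single_apply, sum_ite_eq', mem_univ, if_true, hx.2]
            ring
        have h1 : coverB D x x ≤ coverB D _ _ := hmin hmem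
        rw [coverB_add, coverB_symm hD x (x + _), coverB_add, coverB_symm hD _ (x + _), coverB_add,
          coverB_symm hD x (Pi.single u 1 - Pi.single v 1), coverB_pair, coverB_pair] at h1
        simp only [Pi.sub_apply, sub_mul, sum_sub_distrib, Pi.single_apply, ite_mul, one_mul,
          zero_mul, sum_ite_eq', mem_univ, if_true, hd, hD v u] at h1
        linarith
    exact ⟨sub_eq_zero.1 this.1, by linarith [this.2]⟩
  have hsub : ∀ h : W → ℝ, ∑ v : {v : W // 0 < x v}, x v * h v = ∑ v, x v * h v := by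
    intro h
    rw [← sum_subtype (univ.filter fun v => 0 < x v) (by simp) fun v => x v * h v]
    refine sum_filter_of_ne fun v _ hv => lt_of_le_of_ne (hx.1 v) fun h1 => hv ?_
    rw [← h1, zero_mul]
  have hreg : ∀ v, 0 < x v → ∑ w, x w * D v w = coverB D x x := by
    intro v hv
    unfold coverB
    rw [← hsub fun u => ∑ w, x w * D u w,
      sum_congr rfl fun (u : {v : W // 0 < x v}) _ => by rw [(key u v u.2 hv).1],
      hsub fun _ => ∑ w, x w * D v w, ← sum_mul, hx.2, one_mul]
  by_contra hlt
  push Not at hlt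
  obtain ⟨lam, hlam⟩ : ∃ lam, lam = coverB D x x := ⟨_, rfl⟩
  rw [← hlam] at hlt hreg
  have hlam0 : 0 ≤ lam := by
    rw [hlam]
    exact sum_nonneg fun u _ => mul_nonneg (hx.1 u) (sum_nonneg fun v _ =>
      mul_nonneg (hx.1 v) (h0 u v))
  obtain ⟨s, hs0, hs1, hs⟩ : ∃ s : ℝ, 0 < s ∧ s ≤ 1 ∧ (1 - s) * lam + 3 * s = 3 / 7 := by
    have h3 : 0 < 3 - lam := by linarith
    refine ⟨(3 / 7 - lam) / (3 - lam), div_pos (by linarith) h3, ?_, ?_⟩
    · rw [div_le_one h3]; linarith
    · field_simp
      ring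
  have hge : ∀ u v : {v : W // 0 < x v}, D u v ≤ (1 - s) * D u v + 3 * s := by
    intro u v
    nlinarith [(key u v u.2 v.2).2]
  obtain ⟨u, v, huv⟩ := hcore {v : W // 0 < x v}
    { x := fun v => x v
      c := fun u v => c u v
      D := fun u v => (1 - s) * D u v + 3 * s
      x_nonneg := fun v => hx.1 v
      x_sum := by
        have := hsub fun _ => 1
        simp only [mul_one] at this
        rw [this, hx.2]
      c_symm := fun u v => hc u v
      D_symm := fun u v => by rw [hD u v]
      D_nonneg := fun u v => (h0 u v).trans (hge u v)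
      D_le := fun u v => by nlinarith [(key u v u.2 v.2).2]
      k3 := fun t a b d h1 h2 h3 => by
        linarith [k3 t a b d h1 h2 h3, hge a b, hge a d, hge b d]
      k4 := fun t a b d e h1 h2 h3 h4 h5 h6 => by
        linarith [k4 t a b d e h1 h2 h3 h4 h5 h6, hge a b, hge a d, hge b d, hge a e, hge b e,
          hge d e]
      k5 := fun t a b d e f h1 h2 h3 h4 h5 h6 h7 h8 h9 h10 => by
        linarith [k5 t a b d e f h1 h2 h3 h4 h5 h6 h7 h8 h9 h10, hge a b, hge a d, hge b d, hge a e,
          hge b e, hge d e, hge a f, hge b f, hge d f, hge e f]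
      reg := fun v => by
        rw [hsub fun w => (1 - s) * D v w + 3 * s, ← hs, ← hreg v v.2, mul_sum]
        have : ∑ w, x w * (3 * s) = 3 * s := by rw [← sum_mul, hx.2, one_mul]
        rw [← this, ← sum_add_distrib, this]
        exact sum_congr rfl fun w _ => by ring }
  have : 0 ≤ (1 - s) * D u v := mul_nonneg (by linarith) (h0 u v)
  simp only at huv
  linarith

section
variable {V : Type} [DecidableEq V]

/-- weights with diagonal three -/
def coverD (D : V → V → ℝ) (u v : V) : ℝ := if u = v then 3 else D u v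

/-- colours with diagonal true -/
def coverC (c : V → V → Bool) (u v : V) : Bool := if u = v then true else c u v

theorem coverD_symm {D : V → V → ℝ} (hD : ∀ u v, D u v = D v u) (u v : V) :
    coverD D u v = coverD D v u := by
  unfold coverD
  by_cases h : u = v
  · rw [if_pos h, if_pos h.symm]
  · rw [if_neg h, if_neg (Ne.symm h), hD]

theorem coverC_symm {c : V → V → Bool} (hc : ∀ u v, c u v = c v u) (u v : V) :
    coverC c u v = coverC c v u := by
  unfold coverC
  by_cases h : u = v
  · rw [if_pos h, if_pos h.symm]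
  · rw [if_neg h, if_neg (Ne.symm h), hc]

theorem coverD_self (D : V → V → ℝ) (v : V) : coverD D v v = 3 := if_pos rfl

theorem coverD_nonneg {D : V → V → ℝ} (h0 : ∀ u v, 0 ≤ D u v) (u v : V) : 0 ≤ coverD D u v := by
  unfold coverD
  split_ifs
  · norm_num
  · exact h0 u v

theorem cover_offDiag (D : V → V → ℝ) (K : Finset V) :
    ∑ u ∈ K, ∑ v ∈ K, coverD D u v = ∑ p ∈ K.offDiag, D p.1 p.2 + 3 * K.card := by
  rw [← sum_product', ← diag_union_offDiag, sum_union (disjoint_diag_offDiag K), sum_diag, add_comm]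
  congr 1
  · exact sum_congr rfl fun p hp => if_neg (mem_offDiag.1 hp).2.2
  · simp only [coverD_self, sum_const, nsmul_eq_mul]
    ring

theorem cover_clique {S : Finset V} {c : V → V → Bool} {D : V → V → ℝ}
    (hK : ∀ K ∈ Cl c S, 2 * val K ≤ ∑ p ∈ K.offDiag, D p.1 p.2) {K : Finset V} (hS : K ⊆ S)
    {n : ℕ} (hn : K.card = n) (h3 : 3 ≤ n) (h5 : n ≤ 5) {s : Bool}
    (hs : ∀ u ∈ K, ∀ v ∈ K, u ≠ v → coverC c u v = s) :
    2 * ((n.choose 2 : ℝ) - 1) + 3 * n ≤ ∑ u ∈ K, ∑ v ∈ K, coverD D u v := by
  classical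
  have := hK K (by
    unfold Cl
    refine mem_filter.2 ⟨mem_powerset.2 hS, hn ▸ h3, hn ▸ h5, s, fun u hu v hv huv => ?_⟩
    have := hs u hu v hv huv
    unfold coverC at this
    rwa [if_neg huv] at this)
  unfold val at this
  rw [cover_offDiag, hn]
  rw [hn] at this
  linarith

variable {S : Finset V} {c : V → V → Bool} {D : V → V → ℝ}

theorem cover_k3 (hc : ∀ u v, c u v = c v u) (hD : ∀ u v, D u v = D v u) (h0 : ∀ u v, 0 ≤ D u v)
    (hK : ∀ K ∈ Cl c S, 2 * val K ≤ ∑ p ∈ K.offDiag, D p.1 p.2) (s : Bool) {a b d : V}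
    (ha : a ∈ S) (hb : b ∈ S) (hd : d ∈ S) (h1 : coverC c a b = s) (h2 : coverC c a d = s)
    (h3 : coverC c b d = s) : 2 ≤ coverD D a b + coverD D a d + coverD D b d := by
  have p := coverD_nonneg h0
  by_cases e1 : a = b
  · subst e1; linarith [coverD_self D a, p a d]
  by_cases e2 : a = d
  · subst e2; linarith [coverD_self D a, p a b, p b a]
  by_cases e3 : b = d
  · subst e3; linarith [coverD_self D b, p a b]
  have := cover_clique hK (K := {a, b, d}) (n := 3) (s := s)
    (by simp [insert_subset_iff, ha, hb, hd]) (by simp [e1, e2, e3]) le_rfl (by norm_num) (by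
      intro u hu v hv huv
      simp only [mem_insert, mem_singleton] at hu hv
      rcases hu with rfl | rfl | rfl <;> rcases hv with rfl | rfl | rfl <;>
        first | exact absurd rfl huv | assumption | (rw [coverC_symm hc]; assumption))
  simp only [sum_insert, sum_singleton, mem_insert, mem_singleton, not_or, e1, e2, e3,
    not_false_eq_true, and_self, coverD_self, coverD_symm hD b a, coverD_symm hD d a,
    coverD_symm hD d b] at this
  norm_num [Nat.choose] at this
  linarith

theorem cover_k4 (hc : ∀ u v, c u v = c v u) (hD : ∀ u v, D u v = D v u) (h0 : ∀ u v, 0 ≤ D u v)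
    (hK : ∀ K ∈ Cl c S, 2 * val K ≤ ∑ p ∈ K.offDiag, D p.1 p.2) (s : Bool) {a b d e : V}
    (ha : a ∈ S) (hb : b ∈ S) (hd : d ∈ S) (he : e ∈ S) (h1 : coverC c a b = s)
    (h2 : coverC c a d = s) (h3 : coverC c b d = s) (h4 : coverC c a e = s) (h5 : coverC c b e = s)
    (h6 : coverC c d e = s) :
    5 ≤ coverD D a b + coverD D a d + coverD D b d + coverD D a e + coverD D b e + coverD D d e := by
  have p := coverD_nonneg h0
  have t1 := cover_k3 hc hD h0 hK s ha hb hd h1 h2 h3
  have t2 := cover_k3 hc hD h0 hK s ha hb he h1 h4 h5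
  have t3 := cover_k3 hc hD h0 hK s ha hd he h2 h4 h6
  have t4 := cover_k3 hc hD h0 hK s hb hd he h3 h5 h6
  have q : ∀ u v : V, u = v → coverD D u v = 3 := fun u v h => if_pos h
  by_cases e1 : a = b
  · linarith [q _ _ e1, p b d, p b e]
  by_cases e2 : a = d
  · linarith [q _ _ e2, p b d, p d e]
  by_cases e3 : b = d
  · linarith [q _ _ e3, p a d, p d e]
  by_cases e4 : a = e
  · linarith [q _ _ e4, p b e, p d e]
  by_cases e5 : b = e
  · linarith [q _ _ e5, p a e, p d e]
  by_cases e6 : d = e
  · linarith [q _ _ e6, p a e, p b e]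
  have := cover_clique hK (K := {a, b, d, e}) (n := 4) (s := s)
    (by simp [insert_subset_iff, ha, hb, hd, he]) (by simp [e1, e2, e3, e4, e5, e6])
    (by norm_num) (by norm_num) (by
      intro u hu v hv huv
      simp only [mem_insert, mem_singleton] at hu hv
      rcases hu with rfl | rfl | rfl | rfl <;> rcases hv with rfl | rfl | rfl | rfl <;>
        first | exact absurd rfl huv | assumption | (rw [coverC_symm hc]; assumption))
  simp only [sum_insert, sum_singleton, mem_insert, mem_singleton, not_or, e1, e2, e3, e4, e5, e6,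
    not_false_eq_true, and_self, coverD_self, coverD_symm hD b a, coverD_symm hD d a,
    coverD_symm hD d b, coverD_symm hD e a, coverD_symm hD e b, coverD_symm hD e d] at this
  norm_num [Nat.choose] at this
  linarith

theorem cover_k5 (hc : ∀ u v, c u v = c v u) (hD : ∀ u v, D u v = D v u) (h0 : ∀ u v, 0 ≤ D u v)
    (hK : ∀ K ∈ Cl c S, 2 * val K ≤ ∑ p ∈ K.offDiag, D p.1 p.2) (s : Bool) {a b d e f : V}
    (ha : a ∈ S) (hb : b ∈ S) (hd : d ∈ S) (he : e ∈ S) (hf : f ∈ S) (h1 : coverC c a b = s)
    (h2 : coverC c a d = s) (h3 : coverC c b d = s) (h4 : coverC c a e = s) (h5 : coverC c b e = s)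
    (h6 : coverC c d e = s) (h7 : coverC c a f = s) (h8 : coverC c b f = s) (h9 : coverC c d f = s)
    (h10 : coverC c e f = s) :
    9 ≤ coverD D a b + coverD D a d + coverD D b d + coverD D a e + coverD D b e + coverD D d e +
      coverD D a f + coverD D b f + coverD D d f + coverD D e f := by
  have t1 := cover_k3 hc hD h0 hK s ha hb hd h1 h2 h3
  have t2 := cover_k3 hc hD h0 hK s ha hb he h1 h4 h5
  have t3 := cover_k3 hc hD h0 hK s ha hd he h2 h4 h6
  have t4 := cover_k3 hc hD h0 hK s hb hd he h3 h5 h6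
  have t5 := cover_k3 hc hD h0 hK s ha hb hf h1 h7 h8
  have t6 := cover_k3 hc hD h0 hK s ha hd hf h2 h7 h9
  have t7 := cover_k3 hc hD h0 hK s hb hd hf h3 h8 h9
  have t8 := cover_k3 hc hD h0 hK s ha he hf h4 h7 h10
  have t9 := cover_k3 hc hD h0 hK s hb he hf h5 h8 h10
  have t10 := cover_k3 hc hD h0 hK s hd he hf h6 h9 h10
  have y := coverD_symm hD
  by_cases e1 : a = b
  · subst e1; linarith [coverD_self D a]
  by_cases e2 : a = d
  · subst e2; linarith [coverD_self D a, y a b]
  by_cases e3 : b = d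
  · subst e3; linarith [coverD_self D b]
  by_cases e4 : a = e
  · subst e4; linarith [coverD_self D a, y a b, y a d]
  by_cases e5 : b = e
  · subst e5; linarith [coverD_self D b, y b d]
  by_cases e6 : d = e
  · subst e6; linarith [coverD_self D d]
  by_cases e7 : a = f
  · subst e7; linarith [coverD_self D a, y a b, y a d, y a e]
  by_cases e8 : b = f
  · subst e8; linarith [coverD_self D b, y b d, y b e]
  by_cases e9 : d = f
  · subst e9; linarith [coverD_self D d, y d e]
  by_cases e10 : e = f
  · subst e10; linarith [coverD_self D e]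
  have := cover_clique hK (K := {a, b, d, e, f}) (n := 5) (s := s)
    (by simp [insert_subset_iff, ha, hb, hd, he, hf])
    (by simp [e1, e2, e3, e4, e5, e6, e7, e8, e9, e10]) (by norm_num) le_rfl (by
      intro u hu v hv huv
      simp only [mem_insert, mem_singleton] at hu hv
      rcases hu with rfl | rfl | rfl | rfl | rfl <;> rcases hv with rfl | rfl | rfl | rfl | rfl <;>
        first | exact absurd rfl huv | assumption | (rw [coverC_symm hc]; assumption))
  simp only [sum_insert, sum_singleton, mem_insert, mem_singleton, not_or, e1, e2, e3, e4, e5, e6,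
    e7, e8, e9, e10, not_false_eq_true, and_self, coverD_self, y b a, y d a, y d b, y e a, y e b,
    y e d, y f a, y f b, y f d, y f e] at this
  norm_num [Nat.choose] at this
  linarith

end

/-- every fractional cover has total (ordered) weight at least `3/7 m^2 - 3 m` -/
theorem cover_lower (hcore : Core) {V : Type} [DecidableEq V] (S : Finset V)
    (c : V → V → Bool) (hc : ∀ u v, c u v = c v u) (D : V → V → ℝ) (hD : ∀ u v, D u v = D v u)
    (h0 : ∀ u v, 0 ≤ D u v)
    (hK : ∀ K ∈ Cl c S, 2 * val K ≤ ∑ p ∈ K.offDiag, D p.1 p.2) :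
    3 / 7 * (S.card : ℝ) ^ 2 - 3 * S.card ≤ ∑ p ∈ S.offDiag, D p.1 p.2 := by
  rcases S.eq_empty_or_nonempty with rfl | hne
  · simp
  have hm : (0 : ℝ) < S.card := by exact_mod_cast hne.card_pos
  have hy : (fun _ : ↥S => (1 / S.card : ℝ)) ∈ stdSimplex ℝ ↥S := by
    refine ⟨fun _ => by positivity, ?_⟩
    rw [sum_const, card_univ, Fintype.card_coe, nsmul_eq_mul]
    field_simp
  have h := cover_simplex hcore (W := ↥S) (fun u v => coverC c u v)
    (fun u v => coverC_symm hc u v) (fun u v => coverD D u v) (fun u v => coverD_symm hD u v)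
    (fun u v => coverD_nonneg h0 u v) (fun v => coverD_self D v)
    (fun s a b d => cover_k3 hc hD h0 hK s a.2 b.2 d.2)
    (fun s a b d e => cover_k4 hc hD h0 hK s a.2 b.2 d.2 e.2)
    (fun s a b d e f => cover_k5 hc hD h0 hK s a.2 b.2 d.2 e.2 f.2) hy
  unfold coverB at h
  simp only [← mul_sum] at h
  have e : ∑ u : ↥S, ∑ v : ↥S, coverD D u v = ∑ u ∈ S, ∑ v ∈ S, coverD D u v := by
    rw [← sum_coe_sort S]
    exact sum_congr rfl fun u _ => sum_coe_sort S fun v => coverD D u v
  rw [e, cover_offDiag, ← mul_assoc, div_mul_div_comm, one_mul, div_mul_eq_mul_div, one_mul,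
    le_div_iff₀ (by positivity)] at h
  nlinarith

end Pool.Agent.P.MP_c18ddb_co.Q
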