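import Pool.Agent.P.MP_c18ddb_co.Q.RowsN

/-! Five sampled points, cubic certificates: definitions. -/

namespace Pool.Agent.P.MP_c18ddb_co.Q

open Finset

structure C1 where
  Qv : ℕ
  Qr : ℕ
  fl : List (List (ℕ × ℕ × List ℕ))
  rg : List (List ℕ)

/-- all orderings of five points -/
def perms5 : List (List ℕ) :=
  [[0, 1, 2, 3, 4], [0, 1, 2, 4, 3], [0, 1, 3, 2, 4], [0, 1, 3, 4, 2], [0, 1, 4, 2, 3], [0, 1, 4, 3, 2],
    [0, 2, 1, 3, 4], [0, 2, 1, 4, 3], [0, 2, 3, 1, 4], [0, 2, 3, 4, 1], [0, 2, 4, 1, 3], [0, 2, 4, 3, 1],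
    [0, 3, 1, 2, 4], [0, 3, 1, 4, 2], [0, 3, 2, 1, 4], [0, 3, 2, 4, 1], [0, 3, 4, 1, 2], [0, 3, 4, 2, 1],
    [0, 4, 1, 2, 3], [0, 4, 1, 3, 2], [0, 4, 2, 1, 3], [0, 4, 2, 3, 1], [0, 4, 3, 1, 2], [0, 4, 3, 2, 1],
    [1, 0, 2, 3, 4], [1, 0, 2, 4, 3], [1, 0, 3, 2, 4], [1, 0, 3, 4, 2], [1, 0, 4, 2, 3], [1, 0, 4, 3, 2],
    [1, 2, 0, 3, 4], [1, 2, 0, 4, 3], [1, 2, 3, 0, 4], [1, 2, 3, 4, 0], [1, 2, 4, 0, 3], [1, 2, 4, 3, 0],
    [1, 3, 0, 2, 4], [1, 3, 0, 4, 2], [1, 3, 2, 0, 4], [1, 3, 2, 4, 0], [1, 3, 4, 0, 2], [1, 3, 4, 2, 0],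
    [1, 4, 0, 2, 3], [1, 4, 0, 3, 2], [1, 4, 2, 0, 3], [1, 4, 2, 3, 0], [1, 4, 3, 0, 2], [1, 4, 3, 2, 0],
    [2, 0, 1, 3, 4], [2, 0, 1, 4, 3], [2, 0, 3, 1, 4], [2, 0, 3, 4, 1], [2, 0, 4, 1, 3], [2, 0, 4, 3, 1],
    [2, 1, 0, 3, 4], [2, 1, 0, 4, 3], [2, 1, 3, 0, 4], [2, 1, 3, 4, 0], [2, 1, 4, 0, 3], [2, 1, 4, 3, 0],
    [2, 3, 0, 1, 4], [2, 3, 0, 4, 1], [2, 3, 1, 0, 4], [2, 3, 1, 4, 0], [2, 3, 4, 0, 1], [2, 3, 4, 1, 0],
    [2, 4, 0, 1, 3], [2, 4, 0, 3, 1], [2, 4, 1, 0, 3], [2, 4, 1, 3, 0], [2, 4, 3, 0, 1], [2, 4, 3, 1, 0],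
    [3, 0, 1, 2, 4], [3, 0, 1, 4, 2], [3, 0, 2, 1, 4], [3, 0, 2, 4, 1], [3, 0, 4, 1, 2], [3, 0, 4, 2, 1],
    [3, 1, 0, 2, 4], [3, 1, 0, 4, 2], [3, 1, 2, 0, 4], [3, 1, 2, 4, 0], [3, 1, 4, 0, 2], [3, 1, 4, 2, 0],
    [3, 2, 0, 1, 4], [3, 2, 0, 4, 1], [3, 2, 1, 0, 4], [3, 2, 1, 4, 0], [3, 2, 4, 0, 1], [3, 2, 4, 1, 0],
    [3, 4, 0, 1, 2], [3, 4, 0, 2, 1], [3, 4, 1, 0, 2], [3, 4, 1, 2, 0], [3, 4, 2, 0, 1], [3, 4, 2, 1, 0],
    [4, 0, 1, 2, 3], [4, 0, 1, 3, 2], [4, 0, 2, 1, 3], [4, 0, 2, 3, 1], [4, 0, 3, 1, 2], [4, 0, 3, 2, 1],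
    [4, 1, 0, 2, 3], [4, 1, 0, 3, 2], [4, 1, 2, 0, 3], [4, 1, 2, 3, 0], [4, 1, 3, 0, 2], [4, 1, 3, 2, 0],
    [4, 2, 0, 1, 3], [4, 2, 0, 3, 1], [4, 2, 1, 0, 3], [4, 2, 1, 3, 0], [4, 2, 3, 0, 1], [4, 2, 3, 1, 0],
    [4, 3, 0, 1, 2], [4, 3, 0, 2, 1], [4, 3, 1, 0, 2], [4, 3, 1, 2, 0], [4, 3, 2, 0, 1], [4, 3, 2, 1, 0]]

/-- the induced maps on coordinates, four bits per coordinate -/
def SM : List ℕ :=
  [0xa9876543210, 0xa6549873210, 0x9a876325410, 0x9632a875410, 0x6a549328710, 0x6932a548710,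
    0xa8975643120, 0xa5648973120, 0x8a975316420, 0x8531a976420, 0x5a648319720, 0x5831a649720,
    0x98a73625140, 0x93628a75140, 0x89a73516240, 0x83519a76240, 0x3962851a740, 0x3851962a740,
    0x65a43928170, 0x63925a48170, 0x56a43819270, 0x53816a49270, 0x3692581a470, 0x3581692a470,
    0xa9786452310, 0xa6459782310, 0x9a786234510, 0x9623a784510, 0x6a459237810, 0x6923a457810,
    0xa7984652130, 0xa4657982130, 0x7a984216530, 0x7421a986530, 0x4a657219830, 0x4721a659830,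
    0x97a82634150, 0x92637a84150, 0x79a82416350, 0x72419a86350, 0x2963741a850, 0x2741963a850,
    0x64a52937180, 0x62934a57180, 0x46a52719380, 0x42716a59380, 0x2693471a580, 0x2471693a580,
    0xa8795461320, 0xa5468791320, 0x8a795134620, 0x8513a794620, 0x5a468137920, 0x5813a467920,
    0xa7894561230, 0xa4567891230, 0x7a894125630, 0x7412a895630, 0x4a567128930, 0x4712a568930,
    0x87a91534260, 0x81537a94260, 0x78a91425360, 0x71428a95360, 0x1853742a960, 0x1742853a960,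
    0x54a61837290, 0x51834a67290, 0x45a61728390, 0x41725a68390, 0x1583472a690, 0x1472583a690,
    0x987a3261540, 0x932687a1540, 0x897a3152640, 0x831597a2640, 0x39268157a40, 0x38159267a40,
    0x978a2361450, 0x923678a1450, 0x798a2143650, 0x721498a3650, 0x29367148a50, 0x27149368a50,
    0x879a1352460, 0x813579a2460, 0x789a1243560, 0x712489a3560, 0x18357249a60, 0x17248359a60,
    0x329618574a0, 0x318529674a0, 0x239617485a0, 0x217439685a0, 0x138527496a0, 0x127438596a0,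
    0x654a3291870, 0x632954a1870, 0x564a3182970, 0x531864a2970, 0x36295184a70, 0x35186294a70,
    0x645a2391780, 0x623945a1780, 0x465a2173980, 0x421765a3980, 0x26394175a80, 0x24176395a80,
    0x546a1382790, 0x513846a2790, 0x456a1273890, 0x412756a3890, 0x15384276a90, 0x14275386a90,
    0x326915847a0, 0x315826947a0, 0x236914758a0, 0x214736958a0, 0x135824769a0, 0x124735869a0]

def sl (n k : ℕ) : ℕ := Nat.land (Nat.shiftRight n (Nat.mul 4 k)) 15

def px1 : List (ℤ × ℕ) := [(-6, 0)]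
def row1 (code : ℕ) : List (ℤ × ℕ) := rowL 5 px1 [] code

section
variable {V : Type} [Fintype V]

noncomputable def dS (S : WS V (3 / 7)) (q : ℕ → V) (k : ℕ) : ℝ :=
  [1, S.D (q 0) (q 1), S.D (q 0) (q 2), S.D (q 1) (q 2), S.D (q 0) (q 3), S.D (q 1) (q 3),
    S.D (q 2) (q 3), S.D (q 0) (q 4), S.D (q 1) (q 4), S.D (q 2) (q 4), S.D (q 3) (q 4)].getD k 0

/-- mask of the red pairs (bit `k` for coordinate `k`) -/
def gS (S : WS V (3 / 7)) (q : ℕ → V) : ℕ :=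
  nb [false, S.c (q 0) (q 1), S.c (q 0) (q 2), S.c (q 1) (q 2), S.c (q 0) (q 3), S.c (q 1) (q 3),
    S.c (q 2) (q 3), S.c (q 0) (q 4), S.c (q 1) (q 4), S.c (q 2) (q 4), S.c (q 3) (q 4)]

end

noncomputable section

/-- linear form with coefficients `digit - Q / 2` -/
def vecR (Q : ℕ) : List ℝ → ℕ → ℝ
  | [], _ => 0
  | x :: l, a => (((a % Q : ℕ) : ℝ) - ((Q / 2 : ℕ) : ℝ)) * x + vecR Q l (a / Q)

def sqR (Q QL r : ℕ) (dA dB : List ℝ) (a b : ℕ) : ℝ :=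
  ∑ k ∈ range r, vecR Q dA (a / QL ^ k % QL) * vecR Q dB (b / QL ^ k % QL)

def flagR (C : C1) (g : ℕ) (d : ℕ → ℝ) : ℝ :=
  ((C.fl.getD (g / 2 % 8) []).map fun bl =>
    bif okM (2 * (g / 2 % 8)) (14 - 2 * (g / 2 % 8)) (rowM bl.1) then
      sqR C.Qv (C.Qv ^ 7) bl.2.1 [d 0, d 1, d 2, d 3, d 4, d 5, d 6]
        [d 0, d 1, d 2, d 3, d 7, d 8, d 9] (bl.2.2.getD (g / 16 % 8) 0)
        (bl.2.2.getD (g / 128 % 8) 0) * sev (db d 4) (row1 bl.1)
    else 0).sum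

def matR (Q n : ℕ) (d : ℕ → ℝ) : ℝ :=
  ∑ a ∈ range 7, d a * vecR Q [d 0, d 1, d 2, d 3, d 4, d 5, d 6] (n / (Q ^ 7) ^ a % Q ^ 7)

def regR (C : C1) (g : ℕ) (d : ℕ → ℝ) : ℝ :=
  (((C.rg.getD (g / 2 % 64) []).take 4).zipIdx.map fun p =>
    matR C.Qr p.1 d * (7 * d (7 + p.2) - 3 * d 0)).sum

def TR (C : C1) (g : ℕ) (d : ℕ → ℝ) : ℝ := flagR C g d + regR C g d

def HR {V : Type} [Fintype V] (C : C1) (S : WS V (3 / 7)) (q : ℕ → V) : ℝ :=
  (perms5.map fun π => TR C (gS S fun i => q (π.getD i 0)) (dS S fun i => q (π.getD i 0))).sum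

/-- the colouring after reordering the points -/
def gperm (g n : ℕ) : ℕ :=
  nsum (fun k => Nat.shiftLeft (Nat.land (Nat.shiftRight g (sl n k)) 1) k)
    [1, 2, 3, 4, 5, 6, 7, 8, 9, 10]

end

/-- all pentagons are heavy -/
def Heavy {V : Type} [Fintype V] (S : WS V (3 / 7)) : Prop :=
  ∀ a b d e f, Pent S a b d e f → 6 / 5 ≤ tot S a b d e f

def Hneg (C : C1) (g : ℕ) : Prop :=
  ∀ (V : Type) [Fintype V] (S : WS V (3 / 7)), Heavy S → ∀ q : ℕ → V, gS S q = g → HR C S q < 0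

section
variable {V : Type} [Fintype V]

theorem d1_testBit (l : List Bool) (k : ℕ) : (nb l).testBit k = l.getD k false := by
  induction l generalizing k with
  | nil => simp [nb]
  | cons b l ih =>
    cases k with
    | zero => cases b <;> simp [nb, Nat.testBit_zero]
    | succ k =>
      have e : nb (b :: l) / 2 = nb l := by cases b <;> simp only [nb, cond_true, cond_false] <;> omega
      rw [Nat.testBit_succ, e, ih, List.getD_cons_succ]

theorem d1_compl (l : List Bool) : nb l + nb (l.map not) + 1 = 2 ^ l.length := by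
  induction l with
  | nil => rfl
  | cons b l ih =>
    rw [List.length_cons, pow_succ, ← ih]
    cases b <;> simp only [nb, List.map_cons, Bool.not_true, Bool.not_false, cond_true, cond_false] <;>
      omega

theorem d1_bit (g j : ℕ) : Nat.land (Nat.shiftRight g j) 1 = bif g.testBit j then 1 else 0 := by
  show (g >>> j) &&& 1 = _
  rw [Nat.and_one_is_mod, Nat.testBit_eq_decide_div_mod_eq, Nat.shiftRight_eq_div_pow]
  rcases Nat.mod_two_eq_zero_or_one (g / 2 ^ j) with h | h <;> simp [h]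

theorem d1_gperm (g n : ℕ) : gperm g n = nb [false, g.testBit (sl n 1), g.testBit (sl n 2),
    g.testBit (sl n 3), g.testBit (sl n 4), g.testBit (sl n 5), g.testBit (sl n 6),
    g.testBit (sl n 7), g.testBit (sl n 8), g.testBit (sl n 9), g.testBit (sl n 10)] := by
  rw [gperm, nsum_eq]
  simp only [d1_bit, List.map_cons, List.map_nil, List.sum_cons, List.sum_nil,
    Nat.shiftLeft_eq', Nat.shiftLeft_eq, nb, cond_false]
  ring

/-- the colours of the ten pairs -/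
def d1_cl (S : WS V (3 / 7)) (q : ℕ → V) : List Bool :=
  [S.c (q 0) (q 1), S.c (q 0) (q 2), S.c (q 1) (q 2), S.c (q 0) (q 3), S.c (q 1) (q 3),
    S.c (q 2) (q 3), S.c (q 0) (q 4), S.c (q 1) (q 4), S.c (q 2) (q 4), S.c (q 3) (q 4)]

theorem d1_gS (S : WS V (3 / 7)) (q : ℕ → V) : gS S q = nb (false :: d1_cl S q) := rfl

theorem d1_slot (S : WS V (3 / 7)) (q : ℕ → V) {a b : ℕ} (ha : a < 5) (hb : b < 5) (h : a ≠ b) :
    dS S q (slot a b) = S.D (q a) (q b) ∧ (gS S q).testBit (slot a b) = S.c (q a) (q b) ∧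
      (false :: (d1_cl S q).map not).getD (slot a b) false = !S.c (q a) (q b) := by
  rw [d1_gS, d1_testBit]
  interval_cases a <;> interval_cases b <;>
    first
      | exact absurd rfl h
      | exact ⟨rfl, rfl, rfl⟩
      | exact ⟨S.D_symm _ _, S.c_symm _ _, congrArg not (S.c_symm _ _)⟩

theorem d1_slot_ge : ∀ i < 8, ∀ j < 8, i ≠ j →
    (slot i j < 11 → i < 5 ∧ j < 5) ∧ (slot i j < 4 → i < 3 ∧ j < 3) := by
  have h1 : ∀ i < 8, ∀ j < 8, i = j ∨ 11 ≤ slot i j ∨ (i < 5 ∧ j < 5) := by decide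
  have h2 : ∀ i < 8, ∀ j < 8, i = j ∨ 4 ≤ slot i j ∨ (i < 3 ∧ j < 3) := by decide
  intro i hi j hj hij
  have := h1 i hi j hj
  have := h2 i hi j hj
  omega

def d1_ok (π : List ℕ) (n : ℕ) : Bool :=
  sl n 0 == 0 && [(0, 1), (0, 2), (1, 2), (0, 3), (1, 3), (2, 3), (0, 4), (1, 4), (2, 4), (3, 4)].all
    fun p : ℕ × ℕ => sl n (slot p.1 p.2) == slot (π.getD p.1 0) (π.getD p.2 0) &&
      π.getD p.1 0 != π.getD p.2 0 && decide (π.getD p.1 0 < 5) && decide (π.getD p.2 0 < 5)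

theorem d1_all : List.Forall₂ (fun π n => d1_ok π n = true) perms5 SM := by
  decide +kernel

theorem d1_perm (S : WS V (3 / 7)) (q : ℕ → V) {π : List ℕ} {n : ℕ} (h : d1_ok π n = true) :
    gS S (fun i => q (π.getD i 0)) = gperm (gS S q) n ∧
      dS S (fun i => q (π.getD i 0)) = db (fun k => dS S q (sl n k)) 11 := by
  simp only [d1_ok, Bool.and_eq_true, List.all_eq_true, beq_iff_eq, bne_iff_ne,
    decide_eq_true_eq] at h
  obtain ⟨h0, h⟩ := h
  have key : ∀ p ∈ [(0, 1), (0, 2), (1, 2), (0, 3), (1, 3), (2, 3), (0, 4), (1, 4), (2, 4), (3, 4)],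
      dS S q (sl n (slot p.1 p.2)) = S.D (q (π.getD p.1 0)) (q (π.getD p.2 0)) ∧
      (gS S q).testBit (sl n (slot p.1 p.2)) = S.c (q (π.getD p.1 0)) (q (π.getD p.2 0)) := by
    intro p hp
    obtain ⟨⟨⟨h1, h2⟩, h3⟩, h4⟩ := h p hp
    rw [h1]
    exact ⟨(d1_slot S q h3 h4 h2).1, (d1_slot S q h3 h4 h2).2.1⟩
  have k1 : dS S q (sl n 1) = _ ∧ (gS S q).testBit (sl n 1) = _ := key (0, 1) (by simp)
  have k2 : dS S q (sl n 2) = _ ∧ (gS S q).testBit (sl n 2) = _ := key (0, 2) (by simp)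
  have k3 : dS S q (sl n 3) = _ ∧ (gS S q).testBit (sl n 3) = _ := key (1, 2) (by simp)
  have k4 : dS S q (sl n 4) = _ ∧ (gS S q).testBit (sl n 4) = _ := key (0, 3) (by simp)
  have k5 : dS S q (sl n 5) = _ ∧ (gS S q).testBit (sl n 5) = _ := key (1, 3) (by simp)
  have k6 : dS S q (sl n 6) = _ ∧ (gS S q).testBit (sl n 6) = _ := key (2, 3) (by simp)
  have k7 : dS S q (sl n 7) = _ ∧ (gS S q).testBit (sl n 7) = _ := key (0, 4) (by simp)
  have k8 : dS S q (sl n 8) = _ ∧ (gS S q).testBit (sl n 8) = _ := key (1, 4) (by simp)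
  have k9 : dS S q (sl n 9) = _ ∧ (gS S q).testBit (sl n 9) = _ := key (2, 4) (by simp)
  have k10 : dS S q (sl n 10) = _ ∧ (gS S q).testBit (sl n 10) = _ := key (3, 4) (by simp)
  constructor
  · rw [d1_gperm, k1.2, k2.2, k3.2, k4.2, k5.2, k6.2, k7.2, k8.2, k9.2, k10.2]
    rfl
  · funext k
    unfold db
    split_ifs with hk
    · interval_cases k
      · show _ = dS S q (sl n 0)
        rw [h0]; rfl
      exacts [k1.1.symm, k2.1.symm, k3.1.symm, k4.1.symm, k5.1.symm, k6.1.symm, k7.1.symm,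
        k8.1.symm, k9.1.symm, k10.1.symm]
    · exact List.getD_eq_default _ _ (not_lt.1 hk)

theorem d1_hp (S : WS V (3 / 7)) (h : Heavy S) {d : ℕ → ℝ} (h0 : d 0 = 1) :
    ∀ a b c e f, Pent S a b c e f → 0 ≤ sev d px1 + ((5 : ℤ) : ℝ) * tot S a b c e f := by
  intro a b c e f hp
  have := h a b c e f hp
  simp only [px1, sev, h0]
  push_cast
  linarith

theorem d1_lt {l : List Bool} {k : ℕ} (h : l.getD k false = true) : k < l.length := by
  by_contra hk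
  rw [List.getD_eq_default _ _ (not_lt.1 hk)] at h
  exact Bool.false_ne_true h

theorem sl_zero : ∀ n ∈ SM, sl n 0 = 0 := by
  decide +kernel

theorem sl_lt : ∀ n ∈ SM, ∀ k, sl n k < 11 := by
  have h : ∀ n ∈ SM, n < 2 ^ 44 ∧ ∀ k < 11, sl n k < 11 := by decide +kernel
  intro n hn k
  by_cases hk : k < 11
  · exact (h n hn).2 k hk
  · have e : n >>> (4 * k) = 0 := by
      rw [Nat.shiftRight_eq_div_pow]
      exact Nat.div_eq_of_lt ((h n hn).1.trans_le (Nat.pow_le_pow_right (by norm_num) (by omega)))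
    show (n >>> (4 * k)) &&& 15 < 11
    rw [e]
    decide

/-- reordering: `HR` written with the maps on coordinates -/
theorem HR_eq (C : C1) (S : WS V (3 / 7)) (q : ℕ → V) :
    HR C S q = (SM.map fun n =>
      TR C (gperm (gS S q) n) (db (fun k => dS S q (sl n k)) 11)).sum := by
  unfold HR
  refine congrArg List.sum ?_
  rw [← List.forall₂_eq_eq_eq, List.forall₂_map_left_iff, List.forall₂_map_right_iff]
  refine d1_all.imp fun π n h => ?_
  rw [(d1_perm S q h).1, (d1_perm S q h).2]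

theorem dS_zero (S : WS V (3 / 7)) (q : ℕ → V) : dS S q 0 = 1 := rfl

theorem dS_bound (S : WS V (3 / 7)) (q : ℕ → V) (k : ℕ) : 0 ≤ dS S q k ∧ dS S q k ≤ 3 := by
  by_cases hk : k < 11
  · interval_cases k
    · rw [dS_zero]; norm_num
    all_goals exact ⟨S.D_nonneg _ _, S.D_le _ _⟩
  · rw [show dS S q k = 0 from List.getD_eq_default _ _ (not_lt.1 hk)]
    norm_num

theorem dS_db (S : WS V (3 / 7)) (q : ℕ → V) : db (dS S q) 11 = dS S q := by
  funext k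
  unfold db
  split_ifs with hk
  · rfl
  · exact (List.getD_eq_default _ _ (not_lt.1 hk)).symm

theorem row5_nonneg (S : WS V (3 / 7)) (h : Heavy S) (q : ℕ → V) (code : ℕ)
    (hok : okM (gS S q) (2046 - gS S q) (rowM code) = true) :
    0 ≤ sev (dS S q) (row1 code) := by
  have e : 2046 - gS S q = nb (false :: (d1_cl S q).map not) := by
    have := d1_compl (d1_cl S q)
    rw [show (d1_cl S q).length = 10 from rfl] at this
    rw [d1_gS]
    simp only [nb, cond_false]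
    omega
  refine rowL_nonneg S q _ _ _ 5 px1 [] (dS_zero S q) (dS_bound S q) ?_ ?_ ?_
    (d1_hp S h (dS_zero S q)) (fun x _ => le_of_eq rfl) code hok
  · rw [d1_gS, d1_testBit]; rfl
  · intro i hi j hj hij ht
    have h1 : slot i j < 11 := by
      rw [d1_gS, d1_testBit] at ht
      exact d1_lt ht
    obtain ⟨h2, h3⟩ := (d1_slot_ge i hi j hj hij).1 h1
    obtain ⟨h4, h5, -⟩ := d1_slot S q h2 h3 hij
    exact ⟨h5 ▸ ht, h4⟩
  · intro i hi j hj hij ht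
    rw [e, d1_testBit] at ht
    obtain ⟨h2, h3⟩ := (d1_slot_ge i hi j hj hij).1 (d1_lt ht)
    obtain ⟨h4, -, h5⟩ := d1_slot S q h2 h3 hij
    rw [h5] at ht
    exact ⟨by simpa using ht, h4⟩

theorem row3_nonneg (S : WS V (3 / 7)) (h : Heavy S) (q : ℕ → V) (code : ℕ)
    (hok : okM (2 * (gS S q / 2 % 8)) (14 - 2 * (gS S q / 2 % 8)) (rowM code) = true) :
    0 ≤ sev (db (dS S q) 4) (row1 code) := by
  have key : ∀ (a b c : Bool) (l : List Bool),
      2 * (nb (false :: a :: b :: c :: l) / 2 % 8) = nb [false, a, b, c] ∧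
      14 - 2 * (nb (false :: a :: b :: c :: l) / 2 % 8) = nb [false, !a, !b, !c] := by
    intro a b c l
    cases a <;> cases b <;> cases c <;>
      simp only [nb, Bool.not_true, Bool.not_false, cond_true, cond_false] <;> omega
  obtain ⟨e1, e2⟩ : 2 * (gS S q / 2 % 8) =
      nb [false, S.c (q 0) (q 1), S.c (q 0) (q 2), S.c (q 1) (q 2)] ∧ 14 - 2 * (gS S q / 2 % 8) =
      nb [false, !S.c (q 0) (q 1), !S.c (q 0) (q 2), !S.c (q 1) (q 2)] := key _ _ _ _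
  rw [e2, e1] at hok
  have h0 : db (dS S q) 4 0 = 1 := dS_zero S q
  refine rowL_nonneg S q _ _ _ 5 px1 [] h0 (fun k => ?_) ?_ ?_ ?_
    (d1_hp S h h0) (fun x _ => le_of_eq rfl) code hok
  · unfold db
    split_ifs
    · exact dS_bound S q k
    · norm_num
  · rw [d1_testBit]; rfl
  · intro i hi j hj hij ht
    rw [d1_testBit] at ht
    have h1 : slot i j < 4 := d1_lt ht
    obtain ⟨h2, h3⟩ := (d1_slot_ge i hi j hj hij).2 h1
    obtain ⟨h4, h5, -⟩ := d1_slot S q (h2.trans (by norm_num)) (h3.trans (by norm_num)) hij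
    refine ⟨?_, (if_pos h1).trans h4⟩
    rw [← h5, ← ht, d1_gS, d1_testBit]
    generalize slot i j = s at h1
    interval_cases s <;> rfl
  · intro i hi j hj hij ht
    rw [d1_testBit] at ht
    have h1 : slot i j < 4 := d1_lt ht
    obtain ⟨h2, h3⟩ := (d1_slot_ge i hi j hj hij).2 h1
    obtain ⟨h4, -, h5⟩ := d1_slot S q (h2.trans (by norm_num)) (h3.trans (by norm_num)) hij
    refine ⟨?_, (if_pos h1).trans h4⟩
    have : (!S.c (q i) (q j)) = true := by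
      rw [← h5, ← ht]
      generalize slot i j = s at h1
      interval_cases s <;> rfl
    simpa using this

end

end Pool.Agent.P.MP_c18ddb_co.Q
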