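import Pool.Agent.P.MP_c18ddb_co.Basic

namespace Pool.Agent.P.MP_c18ddb_co.Q

open Finset

/-- A weighted two-coloured structure: vertex masses `x`, colours `c`, deficiencies `D` with the
clique constraints (tuples may repeat vertices) and constant `D`-degree `lam`. -/
structure WS (V : Type) [Fintype V] (lam : ℝ) where
  x : V → ℝ
  c : V → V → Bool
  D : V → V → ℝ
  x_nonneg : ∀ v, 0 ≤ x v
  x_sum : ∑ v, x v = 1
  c_symm : ∀ u v, c u v = c v u
  D_symm : ∀ u v, D u v = D v u
  D_nonneg : ∀ u v, 0 ≤ D u v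
  D_le : ∀ u v, D u v ≤ 3
  k3 : ∀ (s : Bool) (a b d : V), c a b = s → c a d = s → c b d = s → 2 ≤ D a b + D a d + D b d
  k4 : ∀ (s : Bool) (a b d e : V), c a b = s → c a d = s → c b d = s → c a e = s → c b e = s →
    c d e = s → 5 ≤ D a b + D a d + D b d + D a e + D b e + D d e
  k5 : ∀ (s : Bool) (a b d e f : V), c a b = s → c a d = s → c b d = s → c a e = s → c b e = s →
    c d e = s → c a f = s → c b f = s → c d f = s → c e f = s →
    9 ≤ D a b + D a d + D b d + D a e + D b e + D d e + D a f + D b f + D d f + D e f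
  reg : ∀ v, ∑ y, x y * D v y = lam

/-- The computer-checked core: a structure of degree `3/7` has a pair of deficiency zero. -/
def Core : Prop :=
  ∀ (V : Type) [Fintype V] (S : WS V (3 / 7)), ∃ u v, S.D u v ≤ 0

section
variable {V : Type} [DecidableEq V]

/-- `K` is monochromatic for the colouring `c`. -/
def Mono (c : V → V → Bool) (K : Finset V) : Prop :=
  ∃ s : Bool, ∀ u ∈ K, ∀ v ∈ K, u ≠ v → c u v = s

open Classical in
/-- monochromatic cliques with 3, 4 or 5 vertices inside `S` -/
noncomputable def Cl (c : V → V → Bool) (S : Finset V) : Finset (Finset V) :=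
  S.powerset.filter (fun K => 3 ≤ K.card ∧ K.card ≤ 5 ∧ Mono c K)

/-- number of cliques saved by using `K` instead of its edges -/
def val (K : Finset V) : ℝ := (K.card.choose 2 : ℝ) - 1

/-- fractional packing of the pairs of `S` by monochromatic cliques -/
def FracPack (c : V → V → Bool) (S : Finset V) (φ : Finset V → ℝ) : Prop :=
  (∀ K, 0 ≤ φ K) ∧ ∀ e ∈ S.powersetCard 2, ∑ K ∈ (Cl c S).filter (fun K => e ⊆ K), φ K ≤ 1

/-- value of a fractional packing -/
noncomputable def value (c : V → V → Bool) (S : Finset V) (φ : Finset V → ℝ) : ℝ :=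
  ∑ K ∈ Cl c S, val K * φ K

end

end Pool.Agent.P.MP_c18ddb_co.Q
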