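import Pool.Agent.P.MP_c18ddb_co.Q.Chk1

namespace Pool.Agent.P.MP_c18ddb_co.Q

open Finset

noncomputable def finT (F : ℕ → ℕ → ℕ → ℝ) : ℝ :=
  ∑ c ∈ range 11, ∑ b ∈ range 11, ∑ a ∈ range 11, F a b c

theorem finT_12 (F : ℕ → ℕ → ℕ → ℝ) : finT (fun a b c => F b a c) = finT F :=
  sum_congr rfl fun _ _ => sum_comm

theorem finT_23 (F : ℕ → ℕ → ℕ → ℝ) : finT (fun a b c => F a c b) = finT F := sum_comm

theorem finT_add (F G : ℕ → ℕ → ℕ → ℝ) :
    finT (fun a b c => F a b c + G a b c) = finT F + finT G := by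
  simp only [finT, sum_add_distrib]

theorem finT_mul (k : ℝ) (F : ℕ → ℕ → ℕ → ℝ) :
    finT (fun a b c => k * F a b c) = k * finT F := by
  simp only [finT, mul_sum]

theorem finT_mono {F G : ℕ → ℕ → ℕ → ℝ} (h : ∀ a b c, F a b c ≤ G a b c) : finT F ≤ finT G :=
  sum_le_sum fun c _ => sum_le_sum fun b _ => sum_le_sum fun a _ => h a b c

theorem finT_six (F : ℕ → ℕ → ℕ → ℝ) :
    finT (fun a b c => F a b c + F b a c + (F a c b + F c a b) + (F b c a + F c b a)) =
      6 * finT F := by
  have h1 := finT_12 F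
  have h2 := finT_23 F
  have h3 : finT (fun a b c => F c a b) = finT F := (finT_23 fun a b c => F b a c).trans h1
  have h4 : finT (fun a b c => F b c a) = finT F := (finT_12 fun a b c => F a c b).trans h2
  have h5 : finT (fun a b c => F c b a) = finT F := (finT_12 fun a b c => F c a b).trans h3
  rw [finT_add (fun a b c => F a b c + F b a c + (F a c b + F c a b))
      (fun a b c => F b c a + F c b a),
    finT_add (fun a b c => F a b c + F b a c) (fun a b c => F a c b + F c a b),
    finT_add (fun a b c => F a b c) (fun a b c => F b a c),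
    finT_add (fun a b c => F a c b) (fun a b c => F c a b),
    finT_add (fun a b c => F b c a) (fun a b c => F c b a), h1, h2, h3, h4, h5]
  ring

theorem finT_pt (x : ℝ) :
    finT (fun a b c => if c = 0 then if b = 0 then if a = 0 then x else 0 else 0 else 0) = x := by
  unfold finT
  rw [sum_eq_single 0, sum_eq_single 0, sum_eq_single 0]
  · simp
  · intro a _ ha
    simp [ha]
  · simp
  · intro a _ ha
    simp [ha]
  · simp
  · intro a _ ha
    simp [ha]
  · simp

def fin6 (p : ℕ → ℕ → ℕ → ℕ) (a b c : ℕ) : ℕ :=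
  p a b c + p b a c + (p a c b + p c a b) + (p b c a + p c b a)

theorem fin_abs (p q : ℕ → ℕ → ℕ → ℕ) (d : ℕ → ℝ) (h0 : d 0 = 1) (hd : ∀ i, 0 ≤ d i ∧ d i ≤ 3) :
    finT (fun a b c => ((p a b c : ℝ) - q a b c) * (d a * d b * d c)) ≤
      ((p 0 0 0 : ℝ) - q 0 0 0) + 27 * finT (fun a b c =>
        if a ≤ b ∧ b ≤ c then ((fin6 p a b c - fin6 q a b c : ℕ) : ℝ) else 0) := by
  obtain ⟨M, hM⟩ : ∃ M : ℕ → ℕ → ℕ → ℝ,
      M = fun a b c => ((fin6 p a b c - fin6 q a b c : ℕ) : ℝ) := ⟨_, rfl⟩
  have hM0 : ∀ a b c, 0 ≤ M a b c := by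
    intro a b c
    rw [hM]
    exact Nat.cast_nonneg _
  have s12 : ∀ a b c, M b a c = M a b c := by
    intro a b c
    rw [hM]
    dsimp only
    congr 2 <;> unfold fin6 <;> ring
  have s23 : ∀ a b c, M a c b = M a b c := by
    intro a b c
    rw [hM]
    dsimp only
    congr 2 <;> unfold fin6 <;> ring
  have hle : ∀ a b c, (fin6 p a b c : ℝ) - fin6 q a b c ≤ M a b c := by
    intro a b c
    rw [hM]
    have : fin6 p a b c ≤ fin6 q a b c + (fin6 p a b c - fin6 q a b c) := by omega
    have h2 : (fin6 p a b c : ℝ) ≤ fin6 q a b c + ((fin6 p a b c - fin6 q a b c : ℕ) : ℝ) := by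
      exact_mod_cast this
    dsimp only
    linarith
  obtain ⟨N, hN⟩ : ∃ N : ℕ → ℕ → ℕ → ℝ,
      N = fun a b c => if a ≤ b ∧ b ≤ c then M a b c else 0 := ⟨_, rfl⟩
  have hN0 : ∀ a b c, 0 ≤ N a b c := by
    intro a b c
    rw [hN]
    dsimp only
    split_ifs
    · exact hM0 a b c
    · exact le_rfl
  have hN1 : ∀ a b c, a ≤ b → b ≤ c → N a b c = M a b c := by
    intro a b c h1 h2
    rw [hN]
    exact if_pos ⟨h1, h2⟩
  have hMN : ∀ a b c,
      M a b c ≤ N a b c + N b a c + (N a c b + N c a b) + (N b c a + N c b a) := by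
    intro a b c
    have n1 := hN0 a b c
    have n2 := hN0 b a c
    have n3 := hN0 a c b
    have n4 := hN0 c a b
    have n5 := hN0 b c a
    have n6 := hN0 c b a
    have m2 := s12 a b c
    have m3 := s23 a b c
    have m4 : M c a b = M a b c := (s12 a c b).trans m3
    have m5 : M b c a = M a b c := (s23 b a c).trans m2
    have m6 : M c b a = M a b c := (s12 b c a).trans m5
    rcases le_total a b with h1 | h1 <;> rcases le_total b c with h2 | h2 <;>
      rcases le_total a c with h3 | h3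
    · linarith [hN1 a b c h1 h2]
    · linarith [hN1 a b c h1 h2]
    · linarith [hN1 a c b h3 h2]
    · linarith [hN1 c a b h3 h1]
    · linarith [hN1 b a c h1 h3]
    · linarith [hN1 b c a h2 h3]
    · linarith [hN1 c b a h2 h1]
    · linarith [hN1 c b a h2 h1]
  have k1 : finT M ≤ 6 * finT N := by
    rw [← finT_six]
    exact finT_mono hMN
  have k2 := finT_six (fun a b c => ((p a b c : ℝ) - q a b c) * (d a * d b * d c))
  have k3 : finT (fun a b c => ((p a b c : ℝ) - q a b c) * (d a * d b * d c) +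
      ((p b a c : ℝ) - q b a c) * (d b * d a * d c) +
      (((p a c b : ℝ) - q a c b) * (d a * d c * d b) + ((p c a b : ℝ) - q c a b) * (d c * d a * d b)) +
      (((p b c a : ℝ) - q b c a) * (d b * d c * d a) + ((p c b a : ℝ) - q c b a) * (d c * d b * d a))) ≤
      finT (fun a b c => (if c = 0 then if b = 0 then if a = 0 then
        6 * ((p 0 0 0 : ℝ) - q 0 0 0) else 0 else 0 else 0) + 27 * M a b c) := by
    refine finT_mono fun a b c => ?_
    have e : ((p a b c : ℝ) - q a b c) * (d a * d b * d c) +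
      ((p b a c : ℝ) - q b a c) * (d b * d a * d c) +
      (((p a c b : ℝ) - q a c b) * (d a * d c * d b) + ((p c a b : ℝ) - q c a b) * (d c * d a * d b)) +
      (((p b c a : ℝ) - q b c a) * (d b * d c * d a) + ((p c b a : ℝ) - q c b a) * (d c * d b * d a)) =
        ((fin6 p a b c : ℝ) - fin6 q a b c) * (d a * d b * d c) := by
      unfold fin6
      push_cast
      ring
    rw [e]
    have g0 : 0 ≤ d a * d b * d c := mul_nonneg (mul_nonneg (hd a).1 (hd b).1) (hd c).1
    have g1 : d a * d b ≤ 3 * 3 := mul_le_mul (hd a).2 (hd b).2 (hd b).1 (by norm_num)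
    have g2 : d a * d b * d c ≤ 3 * 3 * 3 := mul_le_mul g1 (hd c).2 (hd c).1 (by norm_num)
    have g3 := mul_le_mul_of_nonneg_right (hle a b c) g0
    have g4 := mul_le_mul_of_nonneg_left g2 (hM0 a b c)
    split_ifs with hc hb ha
    · subst hc hb ha
      rw [h0]
      have := hM0 0 0 0
      unfold fin6
      push_cast
      linarith
    · linarith
    · linarith
    · linarith
  rw [k2, finT_add, finT_pt, finT_mul] at k3
  have e : (fun a b c => if a ≤ b ∧ b ≤ c then ((fin6 p a b c - fin6 q a b c : ℕ) : ℝ) else 0) = N := by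
    rw [hN, hM]
  rw [e]
  linarith

theorem fin_r11 (g : ℕ × ℕ → ℕ) : nsum g r11 = ∑ i ∈ range 11, g (i, i + 11) := by
  simp [nsum_eq, r11, sum_range_succ, add_assoc]

theorem fin_bad (f : ℕ) : (bad f : ℝ) = finT (fun a b c => if a ≤ b ∧ b ≤ c then
    ((fin6 (dg f) a b c - fin6 (fun a b c => dg f a b (c + 11)) a b c : ℕ) : ℝ) else 0) := by
  unfold bad finT
  rw [fin_r11, Nat.cast_sum]
  refine sum_congr rfl fun c _ => ?_
  rw [fin_r11, Nat.cast_sum]
  refine sum_congr rfl fun b _ => ?_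
  by_cases h : b ≤ c
  · have e : Nat.ble b c = true := Nat.ble_eq ▸ h
    dsimp only
    rw [e, cond_true, fin_r11, Nat.cast_sum]
    refine sum_congr rfl fun a _ => ?_
    by_cases h' : a ≤ b
    · have e' : Nat.ble a b = true := Nat.ble_eq ▸ h'
      dsimp only
      rw [e', cond_true, if_pos ⟨h', h⟩]
      rfl
    · have e' : Nat.ble a b = false := by
        rw [← Bool.not_eq_true, Nat.ble_eq]; exact h'
      dsimp only
      rw [e', cond_false, if_neg (fun hh => h' hh.1), Nat.cast_zero]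
  · have e : Nat.ble b c = false := by
      rw [← Bool.not_eq_true, Nat.ble_eq]; exact h
    dsimp only
    rw [e, cond_false, Nat.cast_zero]
    exact (sum_eq_zero fun a _ => if_neg (fun hh => h hh.2)).symm

theorem fin_range_mul (K K' : ℕ) (F : ℕ → ℝ) :
    ∑ i ∈ range (K * K'), F i = ∑ j ∈ range K', ∑ i ∈ range K, F (i + K * j) := by
  induction K' with
  | zero => simp
  | succ n ih =>
    rw [Nat.mul_succ, sum_range_add, ih, sum_range_succ]
    congr 1
    exact sum_congr rfl fun i _ => by rw [add_comm]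

theorem fin_dig (B x m n c : ℕ) (h : m < n) :
    x / (B ^ n) ^ c % B ^ n / B ^ m % B = x / B ^ (m + n * c) % B := by
  obtain ⟨k, rfl⟩ : ∃ k, n = m + (k + 1) := ⟨n - m - 1, by omega⟩
  rw [← pow_mul]
  obtain ⟨e, he⟩ : ∃ e, e = (m + (k + 1)) * c := ⟨_, rfl⟩
  rw [← he, pow_add B m (k + 1), Nat.mod_mul_right_div_self,
    Nat.mod_mod_of_dvd _ (dvd_pow_self B (Nat.succ_ne_zero k)), Nat.div_div_eq_div_mul, ← pow_add,
    add_comm e m]

theorem fin_dg (f a b c : ℕ) (ha : a < 12) (hb : b < 12) :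
    f / BA ^ (a + 12 * b + 12 * 12 * c) % BA = dg f a b c :=
  (fin_dig BA f (a + 12 * b) 144 c (by omega)).symm

theorem fin1_sound {d : ℕ → ℝ} {f : ℕ} {v : ℝ}
    (hf : RepN BA (12 * 12 * 23)
      (fun i => (db d 11 (i % (12 * 12) % 12) * db d 11 (i % (12 * 12) / 12)) * sg 11 d (i / (12 * 12)))
      f v) (h0 : d 0 = 1) (hd : ∀ i, 0 ≤ d i ∧ d i ≤ 3) (h : fin1 f = true) : v < 0 := by
  unfold fin1 at h
  rw [Bool.and_eq_true, Nat.blt_eq, Nat.blt_eq] at h
  obtain ⟨h1, h2⟩ := h
  have h1' : f < BA ^ (12 * 12 * 23) := by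
    have e : 12 * 12 * 23 = 3312 := rfl
    rw [e]
    exact h1
  have h2' : dg f 0 0 0 + 27 * bad f < dg f 0 0 (0 + 11) := h2
  have h3 := repN_dig hf h1'
  have h4 : (dg f 0 0 0 : ℝ) + 27 * bad f < dg f 0 0 (0 + 11) := by exact_mod_cast h2'
  have h5 := fin_abs (dg f) (fun a b c => dg f a b (c + 11)) d h0 hd
  rw [← fin_bad] at h5
  have h6 : v = ∑ c ∈ range (2 * 11 + 1), (∑ b ∈ range 11, ∑ a ∈ range 11,
      (dg f a b c : ℝ) * (d a * d b)) * sg 11 d c := by
    rw [h3, fin_range_mul]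
    refine sum_congr rfl fun c _ => ?_
    rw [fin_range_mul, sum_range_succ, sum_mul]
    have z : ∀ a b, a < 12 → b < 12 → ((f / BA ^ (a + 12 * b + 12 * 12 * c) % BA : ℕ) : ℝ) *
        (db d 11 ((a + 12 * b + 12 * 12 * c) % (12 * 12) % 12) *
          db d 11 ((a + 12 * b + 12 * 12 * c) % (12 * 12) / 12) *
          sg 11 d ((a + 12 * b + 12 * 12 * c) / (12 * 12))) =
        (dg f a b c : ℝ) * (db d 11 a * db d 11 b) * sg 11 d c := by
      intro a b ha hb
      have e1 : (a + 12 * b + 12 * 12 * c) % (12 * 12) % 12 = a := by omega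
      have e2 : (a + 12 * b + 12 * 12 * c) % (12 * 12) / 12 = b := by omega
      have e3 : (a + 12 * b + 12 * 12 * c) / (12 * 12) = c := by omega
      rw [e1, e2, e3, fin_dg f a b c ha hb, ← mul_assoc]
    have z11 : db d 11 11 = 0 := if_neg (lt_irrefl _)
    have zl : ∀ a, a < 11 → db d 11 a = d a := fun a ha => if_pos ha
    rw [sum_eq_zero (s := range 12) fun a ha => by
      rw [z a 11 (mem_range.1 ha) (by omega), z11, mul_zero, mul_zero, zero_mul], add_zero]
    refine sum_congr rfl fun b hb => ?_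
    have hb' := mem_range.1 hb
    rw [sum_range_succ, z 11 b (by omega) (by omega), z11, zero_mul, mul_zero, zero_mul, add_zero,
      sum_mul]
    refine sum_congr rfl fun a ha => ?_
    have ha' := mem_range.1 ha
    rw [z a b (by omega) (by omega), zl a ha', zl b hb']
  rw [pn_sg] at h6
  have h7 : v = finT (fun a b c => ((dg f a b c : ℝ) - dg f a b (c + 11)) * (d a * d b * d c)) := by
    rw [h6, finT, ← sum_sub_distrib]
    refine sum_congr rfl fun c _ => ?_
    rw [sum_mul, sum_mul, ← sum_sub_distrib]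
    refine sum_congr rfl fun b _ => ?_
    rw [sum_mul, sum_mul, ← sum_sub_distrib]
    refine sum_congr rfl fun a _ => ?_
    rw [add_comm 11 c]
    ring
  rw [← h7] at h5
  linarith

end Pool.Agent.P.MP_c18ddb_co.Q
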