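import Mathlib

namespace Pool.Agent.P.MP_c18ddb_co.Q

open Finset

theorem LP_form {ι : Type} [Fintype ι] [DecidableEq ι] (f : ((ι → ℝ) × ℝ) →L[ℝ] ℝ)
    (u : ι → ℝ) (t : ℝ) :
    f (u, t) = ∑ i, u i * f (Pi.single i 1, 0) + t * f (0, 1) := by
  have h : (u, t) = ∑ i, u i • ((Pi.single i 1, 0) : (ι → ℝ) × ℝ) + t • ((0, 1) : (ι → ℝ) × ℝ) := by
    apply Prod.ext
    · funext j
      simp [Prod.fst_sum, Finset.sum_apply, Pi.single_apply]
    · simp [Prod.snd_sum]
  rw [h, map_add, map_sum]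
  simp only [map_smul, smul_eq_mul]

theorem LP_ray {a b c : ℝ} (h : ∀ t : ℝ, 0 ≤ t → c ≤ a + t * b) : 0 ≤ b := by
  by_contra hb
  push Not at hb
  have h0 := h 0 le_rfl
  have h1 := h ((a - c + 1) / (-b)) (div_nonneg (by linarith) (by linarith))
  have h2 : (a - c + 1) / (-b) * b = -(a - c + 1) := by
    have hb' : b ≠ 0 := hb.ne
    field_simp
  rw [h2] at h1
  linarith

/-- strong duality for packing and covering linear programs -/
theorem lp_dual {ι κ : Type} [Fintype ι] [Fintype κ] (A : κ → ι → ℝ) (v : κ → ℝ) (L : ℝ)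
    (h : ∀ D : ι → ℝ, (∀ i, 0 ≤ D i) → (∀ k, v k ≤ ∑ i, A k i * D i) → L < ∑ i, D i) :
    ∃ φ : κ → ℝ, (∀ k, 0 ≤ φ k) ∧ (∀ i, ∑ k, A k i * φ k ≤ 1) ∧ L ≤ ∑ k, v k * φ k := by
  classical
  by_contra hn
  let X : Set ((ι → ℝ) × ℝ) :=
    {x | ∃ φ : κ → ℝ, (∀ k, 0 ≤ φ k) ∧ x = (fun i => ∑ k, A k i * φ k, ∑ k, v k * φ k)}
  let O : Set ((ι → ℝ) × ℝ) := {x | (∀ i, x.1 i < 1) ∧ L < x.2}
  have hX : Convex ℝ X := by
    rintro _ ⟨φ, hφ, rfl⟩ _ ⟨ψ, hψ, rfl⟩ a b ha hb -
    refine ⟨fun k => a * φ k + b * ψ k, fun k => add_nonneg (mul_nonneg ha (hφ k))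
      (mul_nonneg hb (hψ k)), ?_⟩
    apply Prod.ext
    · funext i
      simp only [Prod.fst_add, Prod.smul_fst, Pi.add_apply, Pi.smul_apply, smul_eq_mul,
        Finset.mul_sum, ← Finset.sum_add_distrib]
      exact Finset.sum_congr rfl fun k _ => by ring
    · simp only [Prod.snd_add, Prod.smul_snd, smul_eq_mul, Finset.mul_sum,
        ← Finset.sum_add_distrib]
      exact Finset.sum_congr rfl fun k _ => by ring
  have hO : Convex ℝ O := by
    rintro x ⟨hx1, hx2⟩ y ⟨hy1, hy2⟩ a b ha hb hab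
    constructor
    · intro i
      have := (convex_Iio (𝕜 := ℝ) (1 : ℝ)) (hx1 i) (hy1 i) ha hb hab
      simpa using this
    · have := (convex_Ioi (𝕜 := ℝ) L) hx2 hy2 ha hb hab
      simpa using this
  have hOo : IsOpen O := by
    have : O = (⋂ i, {x : (ι → ℝ) × ℝ | x.1 i < 1}) ∩ {x | L < x.2} := by
      ext x
      simp [O]
    rw [this]
    refine IsOpen.inter (isOpen_iInter_of_finite fun i => ?_) ?_
    · exact isOpen_lt (by fun_prop) continuous_const
    · exact isOpen_lt continuous_const (by fun_prop)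
  have hd : Disjoint O X := by
    rw [Set.disjoint_left]
    rintro _ ⟨h1, h2⟩ ⟨φ, hφ, rfl⟩
    exact hn ⟨φ, hφ, fun i => (h1 i).le, h2.le⟩
  obtain ⟨f, c, hf1, hf2⟩ := geometric_hahn_banach_open hO hOo hX hd
  set D : ι → ℝ := fun i => f (Pi.single i 1, 0) with hD
  set β : ℝ := -f (0, 1) with hβ
  have hf : ∀ u t, f (u, t) = ∑ i, u i * D i - t * β := by
    intro u t
    rw [LP_form]
    simp [hD, hβ]
  have hc : c ≤ 0 := by
    have := hf2 _ ⟨0, fun _ => le_rfl, rfl⟩
    rw [hf] at this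
    simpa using this
  have hk : ∀ k, β * v k ≤ ∑ i, A k i * D i := by
    intro k
    have : 0 ≤ ∑ i, A k i * D i - v k * β := by
      refine LP_ray (a := 0) (c := c) fun t ht => ?_
      have := hf2 _ ⟨Pi.single k t, fun j => by
        by_cases hj : j = k <;> simp [hj, ht], rfl⟩
      rw [hf] at this
      simp only [Pi.single_apply, mul_ite, mul_zero, Finset.sum_ite_eq', Finset.mem_univ,
        if_true] at this
      rw [zero_add, mul_sub, Finset.mul_sum]
      calc c ≤ _ := this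
        _ = _ := by
          congr 1
          · exact Finset.sum_congr rfl fun i _ => by ring
          · ring
    linarith
  have hD0 : ∀ i, 0 ≤ D i := by
    intro i
    refine LP_ray (a := (L + 1) * β) (c := -c) fun t ht => ?_
    have := hf1 (Pi.single i (-t), L + 1) ⟨fun j => by
      by_cases hj : j = i
      · subst hj
        simp only [Pi.single_eq_same]
        linarith
      · simp [hj], by simp⟩
    rw [hf] at this
    simp only [Pi.single_apply, ite_mul, zero_mul, Finset.sum_ite_eq', Finset.mem_univ,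
      if_true] at this
    linarith
  have hβ0 : 0 ≤ β := by
    refine LP_ray (a := (L + 1) * β) (c := -c) fun t ht => ?_
    have := hf1 (0, L + 1 + t) ⟨fun j => by simp, by simp; linarith⟩
    rw [hf] at this
    simp only [Pi.zero_apply, zero_mul, Finset.sum_const_zero] at this
    linarith
  have hlim : ∑ i, D i - L * β ≤ c := by
    refine le_of_forall_pos_le_add fun ε hε => ?_
    have hs : 0 ≤ ∑ i, D i := Finset.sum_nonneg fun i _ => hD0 i
    have hpos : 0 < ∑ i, D i + β + 1 := by linarith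
    set δ := ε / (∑ i, D i + β + 1) with hδ
    have hδ0 : 0 < δ := div_pos hε hpos
    have hδ1 : δ * (∑ i, D i + β + 1) = ε := div_mul_cancel₀ _ hpos.ne'
    have := hf1 (fun _ => 1 - δ, L + δ) ⟨fun j => by simp [hδ0], by simp [hδ0]⟩
    rw [hf, ← Finset.mul_sum] at this
    nlinarith
  rcases hβ0.eq_or_lt with hb | hb
  · have hs : ∑ i, D i ≤ 0 := by rw [← hb] at hlim; linarith
    have hz : ∀ i, D i = 0 := fun i =>
      le_antisymm ((Finset.single_le_sum (fun j _ => hD0 j) (Finset.mem_univ i)).trans hs) (hD0 i)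
    have := hf1 (0, L + 1) ⟨fun j => by simp, by simp⟩
    rw [hf, ← hb] at this
    simp at this
    linarith
  · have := h (fun i => D i / β) (fun i => div_nonneg (hD0 i) hb.le) (fun k => by
      have := hk k
      simp only [← mul_div_assoc, ← Finset.sum_div]
      rw [le_div_iff₀ hb]
      linarith)
    rw [← Finset.sum_div, lt_div_iff₀ hb] at this
    linarith

end Pool.Agent.P.MP_c18ddb_co.Q
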