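import Pool.Agent.P.MP_c18ddb_co.Q.Cover
import Pool.Agent.P.MP_c18ddb_co.Q.LP

namespace Pool.Agent.P.MP_c18ddb_co.Q

open Finset

theorem frac_offDiag {V : Type} [DecidableEq V] (K : Finset V) (G : Finset V → ℝ) :
    ∑ p ∈ K.offDiag, G {p.1, p.2} = 2 * ∑ e ∈ K.powersetCard 2, G e := by
  have hm : ∀ p ∈ K.offDiag, ({p.1, p.2} : Finset V) ∈ K.powersetCard 2 := by
    intro p hp
    obtain ⟨h1, h2, h3⟩ := mem_offDiag.1 hp
    rw [mem_powersetCard]
    exact ⟨by simp [insert_subset_iff, h1, h2], card_pair h3⟩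
  rw [← sum_fiberwise_of_maps_to hm, mul_sum]
  refine sum_congr rfl fun e he => ?_
  obtain ⟨h1, h2⟩ := mem_powersetCard.1 he
  obtain ⟨a, b, hab, rfl⟩ := card_eq_two.1 h2
  have ha : a ∈ K := h1 (by simp)
  have hb : b ∈ K := h1 (by simp)
  have hf : K.offDiag.filter (fun p => ({p.1, p.2} : Finset V) = {a, b}) = {(a, b), (b, a)} := by
    ext ⟨u, v⟩
    simp only [mem_filter, mem_offDiag, mem_insert, mem_singleton, Prod.mk.injEq]
    constructor
    · rintro ⟨⟨-, -, huv⟩, h⟩
      have hu : u ∈ ({a, b} : Finset V) := h ▸ by simp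
      have hv : v ∈ ({a, b} : Finset V) := h ▸ by simp
      simp only [mem_insert, mem_singleton] at hu hv
      rcases hu with rfl | rfl <;> rcases hv with rfl | rfl <;> simp_all
    · rintro (⟨rfl, rfl⟩ | ⟨rfl, rfl⟩)
      · exact ⟨⟨ha, hb, hab⟩, rfl⟩
      · exact ⟨⟨hb, ha, hab.symm⟩, pair_comm _ _⟩
  rw [hf, sum_pair (by simp [hab]), pair_comm b a]
  ring

/-- a good fractional packing inside every vertex set -/
theorem frac_pack (hcore : Core) {V : Type} [DecidableEq V] (S : Finset V)
    (c : V → V → Bool) (hc : ∀ u v, c u v = c v u) :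
    ∃ φ, FracPack c S φ ∧ 3 / 14 * (S.card : ℝ) ^ 2 - 3 / 2 * S.card - 1 ≤ value c S φ := by
  obtain ⟨φ, h0, h1, h2⟩ := lp_dual (ι := ↥(S.powersetCard 2)) (κ := ↥(Cl c S))
    (fun K e => if e.1 ⊆ K.1 then 1 else 0) (fun K => val K.1)
    (3 / 14 * (S.card : ℝ) ^ 2 - 3 / 2 * S.card - 1) (by
      intro D hD hK
      let G : Finset V → ℝ := fun e => if h : e ∈ S.powersetCard 2 then D ⟨e, h⟩ else 0
      have hG : ∀ e : ↥(S.powersetCard 2), D e = G e.1 := fun e => by simp only [G, dif_pos e.2]
      have key := cover_lower hcore S c hc (fun u v => G {u, v}) (fun u v => by rw [pair_comm])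
        (fun u v => by
          simp only [G]
          split_ifs
          exacts [hD _, le_rfl]) (fun K hKm => by
          have hKS : K ⊆ S := by
            simp only [Cl, mem_filter, mem_powerset] at hKm
            exact hKm.1
          have := hK ⟨K, hKm⟩
          simp only [hG] at this
          rw [sum_coe_sort (S.powersetCard 2) (fun e => (if e ⊆ K then 1 else 0) * G e)] at this
          simp only [ite_mul, one_mul, zero_mul] at this
          rw [← sum_filter] at this
          have e1 : (S.powersetCard 2).filter (fun e => e ⊆ K) = K.powersetCard 2 := by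
            ext e
            simp only [mem_filter, mem_powersetCard]
            exact ⟨fun h => ⟨h.2, h.1.2⟩, fun h => ⟨⟨h.1.trans hKS, h.2⟩, h.1⟩⟩
          rw [e1] at this
          rw [frac_offDiag]
          linarith)
      rw [frac_offDiag] at key
      simp only [hG]
      rw [sum_coe_sort (S.powersetCard 2) G]
      linarith)
  classical
  let ψ : Finset V → ℝ := fun K => if h : K ∈ Cl c S then φ ⟨K, h⟩ else 0
  have hψ : ∀ K : ↥(Cl c S), φ K = ψ K.1 := fun K => by simp only [ψ, dif_pos K.2]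
  refine ⟨ψ, ⟨fun K => ?_, fun e he => ?_⟩, ?_⟩
  · simp only [ψ]
    split_ifs
    exacts [h0 _, le_rfl]
  · have := h1 ⟨e, he⟩
    simp only [hψ] at this
    rw [sum_coe_sort (Cl c S) (fun K => (if e ⊆ K then 1 else 0) * ψ K)] at this
    simp only [ite_mul, one_mul, zero_mul] at this
    rwa [sum_filter]
  · simp only [hψ] at h2
    rwa [sum_coe_sort (Cl c S) (fun K => val K * ψ K)] at h2

end Pool.Agent.P.MP_c18ddb_co.Q
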