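import Pool.Agent.P.MP_c18ddb_co.Q.Chk2
import Pool.Agent.P.MP_c18ddb_co.Q.Sym

/-! Certificates that depend affinely on a parameter, and the contraction argument. -/

namespace Pool.Agent.P.MP_c18ddb_co.Q

open Finset

def a2 (p : List ℤ × List ℤ) : List ℤ × List ℤ := (actM p.1, actM p.2)

def clP : List (List ℤ × List ℤ) → List (List ℤ × List ℤ)
  | [] => []
  | p :: l => p :: a2 p :: a2 (a2 p) :: a2 (a2 (a2 p)) :: clP l

theorem clP_fst (L : List (List ℤ × List ℤ)) :
    cl actM (L.map Prod.fst) = (clP L).map Prod.fst := by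
  induction L with
  | nil => rfl
  | cons p l ih => simp only [List.map_cons, cl, clP, ih, a2]

theorem clP_snd (L : List (List ℤ × List ℤ)) :
    cl actM (L.map Prod.snd) = (clP L).map Prod.snd := by
  induction L with
  | nil => rfl
  | cons p l ih => simp only [List.map_cons, cl, clP, ih, a2]

section
variable {V : Type} [Fintype V]

noncomputable def mix (R : Rt V) (s : ℝ) (p : List ℤ × List ℤ) : ℝ :=
  (1 - s) * valM R p.1 + s * valM R p.2

theorem c2_key (R : Rt V) (C : C2) (Lm Lz : List (List ℤ)) (tm : List ℤ)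
    (h : chk2 C Lm Lz tm [] = true) (hp : C.prs = 0) (hZ : ∀ z ∈ cl actZ Lz, 0 ≤ valZ R z) :
    (E1 R fun y => ((C.one.getD (R.ty y) []).map fun g =>
      valM R ((cl actM Lm).getD (g % 256) []) * cmbR C.Q (red2 (R.ty y) 11 0) (blue2 (R.ty y) 11 0)
        (fun c => sev (db (R.dd y y) 16) (rowZ ((cl actZ Lz).map zf) c)) (g / 256)).sum) ≤
      C.m0 * valM R tm := by
  unfold chk2 at h
  set LM := cl actM Lm
  set LZ := cl actZ Lz
  set val : ℕ → ℝ := fun n => sev (R.dd R.r0 R.r0) (([(1, 0)] :: LZ.map zf).getD n []) with hval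
  have hpr : ∀ F G, prR C LM F G = 0 := by
    intro F G
    have e : unp C.Q 200 0 = [] := rfl
    rw [prR, hp, e]
    rfl
  have hall : ∀ y y', 0 ≤
      C.m0 * (2 * valZ R [] + (((tm.getD (R.ty y) 0 : ℤ) : ℝ) + (tm.getD (R.ty y') 0 : ℤ))) -
      (aR R C LM (LZ.map zf) y y' + aR R C LM (LZ.map zf) y' y +
        (2 * kerR C val (R.ty y) (R.ty y') + prR C LM (R.ty y) (R.ty y'))) := by
    intro y y'
    rcases le_total (R.ty y) (R.ty y') with hy | hy
    · exact sub_nonneg.2 (c2_point R C tm [] LM LZ hZ h y y' hy)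
    · have := c2_point R C tm [] LM LZ hZ h y' y hy
      rw [c2_kerR_symm, c2_prR_symm] at this
      linarith
  have hE := E1_nonneg R fun y => E1_nonneg R fun y' => hall y y'
  have hA : (E1 R fun y => E1 R fun y' => aR R C LM (LZ.map zf) y y') =
      E1 R fun y => ((C.one.getD (R.ty y) []).map fun g =>
      valM R (LM.getD (g % 256) []) * cmbR C.Q (red2 (R.ty y) 11 0) (blue2 (R.ty y) 11 0)
        (fun c => sev (db (R.dd y y) 16) (rowZ (LZ.map zf) c)) (g / 256)).sum := by
    congr 1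
    funext y
    simp only [aR, E1_add, c2_reg, zero_add, db_indep R y, grpR]
    rw [E1_list]
    simp only [E1_mul']
    rfl
  have hA' := E1_comm R (aR R C LM (LZ.map zf))
  have hK := c2_ker R C (val := val) (c2_valK_nonneg R hZ)
  have hT : E1 R (fun y => ((tm.getD (R.ty y) 0 : ℤ) : ℝ)) = valM R tm := rfl
  simp only [E1_sub, E1_add, E1_mul, E1_const, hT, hpr, sym_valZ_nil] at hE
  rw [← hA]
  linarith

end

def ImpX (L : List (List ℤ × List ℤ)) (Lz : List (List ℤ)) (t : List ℤ × List ℤ) : Prop :=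
  ∀ (V : Type) [Fintype V] (R : Rt V) (s : ℝ), 0 ≤ s → s ≤ 1 → (∀ p ∈ clP L, 0 ≤ mix R s p) →
    (∀ z ∈ cl actZ Lz, 0 ≤ valZ R z) → 0 ≤ mix R s t

theorem impX_of_chk2 (C0 C1 : C2) (L : List (List ℤ × List ℤ)) (Lz : List (List ℤ))
    (t : List ℤ × List ℤ) (h0 : chk2 C0 (L.map Prod.fst) Lz t.1 [] = true)
    (h1 : chk2 C1 (L.map Prod.snd) Lz t.2 [] = true) (hone : C1.one = C0.one) (hQ : C1.Q = C0.Q)
    (hm : C1.m0 = C0.m0) (hp0 : C0.prs = 0) (hp1 : C1.prs = 0) : ImpX L Lz t := by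
  intro V _ R s hs0 hs1 hL hZ
  have hm0 : (0 : ℝ) < C0.m0 := by
    have h' := h0
    unfold chk2 chk2b at h'
    rw [Bool.and_eq_true] at h'
    exact_mod_cast Nat.blt_eq.mp h'.1
  have k0 := c2_key R C0 _ Lz _ h0 hp0 hZ
  have k1 := c2_key R C1 _ Lz _ h1 hp1 hZ
  rw [hone, hQ, hm, clP_snd] at k1
  rw [clP_fst] at k0
  have hg : ∀ i, 0 ≤ (1 - s) * valM R (((clP L).map Prod.fst).getD i []) +
      s * valM R (((clP L).map Prod.snd).getD i []) := by
    intro i
    rcases lt_or_ge i (clP L).length with h | h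
    · rw [List.getD_eq_getElem _ _ (by simpa using h), List.getD_eq_getElem _ _ (by simpa using h)]
      simp only [List.getElem_map]
      exact hL _ (List.getElem_mem h)
    · rw [List.getD_eq_default _ _ (by simpa using h), List.getD_eq_default _ _ (by simpa using h)]
      simp [sym_valM_nil]
  have hZ' : ∀ y, ∀ l ∈ (cl actZ Lz).map zf, 0 ≤ sev (db (R.dd y y) 16) l := by
    intro y l hl
    obtain ⟨z, hz, rfl⟩ := List.mem_map.1 hl
    rw [sev_zf_db]
    exact hZ z hz
  have a0 := mul_le_mul_of_nonneg_left k0 (sub_nonneg.2 hs1)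
  have a1 := mul_le_mul_of_nonneg_left k1 hs0
  have hsum := add_le_add a0 a1
  rw [← E1_mul, ← E1_mul, ← E1_add] at hsum
  have hpos : 0 ≤ (C0.m0 : ℝ) * mix R s t := by
    refine le_trans (le_trans (E1_nonneg R fun y => ?_) hsum) (le_of_eq ?_)
    · rw [← List.sum_map_mul_left, ← List.sum_map_mul_left, ← List.sum_map_add]
      refine c2_list_nonneg _ _ fun g => ?_
      rw [← mul_assoc, ← mul_assoc, ← add_mul]
      exact mul_nonneg (hg _)
        (cmbR_nonneg _ (fun c hc => rowZ1_nonneg R y y _ (hZ' y) c hc) _)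
    · unfold mix
      ring
  exact nonneg_of_mul_nonneg_right hpos hm0

section
variable {V : Type} [Fintype V]

theorem mix_symS (R : Rt V) (s : ℝ) (p : List ℤ × List ℤ) :
    mix (symS R) s p = mix R s (a2 p) := by
  simp only [mix, sym_valM, a2]

theorem mix_pass (R : Rt V) (s : ℝ) (L : List (List ℤ × List ℤ))
    (h : ∀ p ∈ clP L, 0 ≤ mix R s p) : ∀ p ∈ clP L, 0 ≤ mix (symS R) s p := by
  simp only [mix_symS]
  induction L with
  | nil => simp [clP]
  | cons c l ih =>
    simp only [clP, List.mem_cons] at h ⊢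
    rintro b (rfl | rfl | rfl | rfl | hb)
    · exact h _ (Or.inr (Or.inl rfl))
    · exact h _ (Or.inr (Or.inr (Or.inl rfl)))
    · exact h _ (Or.inr (Or.inr (Or.inr (Or.inl rfl))))
    · have := h _ (Or.inl rfl)
      simpa only [mix, a2, sym_valM4] using this
    · exact ih (fun b hb => h b (Or.inr (Or.inr (Or.inr (Or.inr hb))))) b hb

theorem stepX {L : List (List ℤ × List ℤ)} {Lz : List (List ℤ)} {t : List ℤ × List ℤ}
    (h : ImpX L Lz t) (R : Rt V) (s : ℝ) (hs0 : 0 ≤ s) (hs1 : s ≤ 1)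
    (hL : ∀ p ∈ clP L, 0 ≤ mix R s p) (hz : AllP (GZ R) Lz) :
    0 ≤ mix R s t ∧ 0 ≤ mix R s (a2 t) ∧ 0 ≤ mix R s (a2 (a2 t)) ∧
      0 ≤ mix R s (a2 (a2 (a2 t))) := by
  have h0 : (∀ b ∈ cl actM [], 0 ≤ valM R b) ∧ ∀ z ∈ cl actZ Lz, 0 ≤ valZ R z :=
    ⟨by simp [cl], sym_allP Lz hz⟩
  have h1 := sym_hyp R h0
  have h2 := sym_hyp _ h1
  have h3 := sym_hyp _ h2
  have l1 := mix_pass R s L hL
  have l2 := mix_pass _ s L l1
  have l3 := mix_pass _ s L l2
  have g0 := h V _ s hs0 hs1 hL h0.2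
  have g1 := h V _ s hs0 hs1 l1 h1.2
  have g2 := h V _ s hs0 hs1 l2 h2.2
  have g3 := h V _ s hs0 hs1 l3 h3.2
  simp only [mix_symS] at g1 g2 g3
  exact ⟨g0, g1, g2, g3⟩

theorem valM_lin (R : Rt V) (b c : List ℤ) (k d : ℤ)
    (h : ∀ F < 11, c.getD F 0 = k * b.getD F 0 + d) : valM R c = k * valM R b + d := by
  have e : (d : ℝ) = ∑ y, R.S.x y * d := by rw [← sum_mul, R.S.x_sum, one_mul]
  rw [e]
  unfold valM
  rw [mul_sum, ← sum_add_distrib]
  refine sum_congr rfl fun y _ => ?_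
  rw [h _ (Nat.lt_succ_of_le (ty_le R y))]
  push_cast
  ring

def dbl (l : List (List ℤ)) : List (List ℤ × List ℤ) := l.map fun b => (b, b)

theorem mix_dbl (R : Rt V) (s : ℝ) (l : List (List ℤ)) (h : AllP (GM R) l) :
    ∀ p ∈ clP (dbl l), 0 ≤ mix R s p := by
  induction l with
  | nil => simp [dbl, clP]
  | cons b l ih =>
    obtain ⟨h1, h2⟩ := h
    have e : ∀ a, mix R s (a, a) = valM R a := fun a => by unfold mix; ring
    simp only [GM, cl, List.mem_cons, List.not_mem_nil, or_false, forall_eq_or_imp, forall_eq] at h1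
    intro p hp
    simp only [dbl, List.map_cons, clP, a2, List.mem_cons] at hp
    rcases hp with rfl | rfl | rfl | rfl | hp
    · rw [e]; exact h1.1
    · rw [e]; exact h1.2.1
    · rw [e]; exact h1.2.2.1
    · rw [e]; exact h1.2.2.2
    · exact ih h2 p hp

def bA (d : ℤ) : List ℤ := [12000 + d, 12000 + d, -2000 + d, -2000 + d, -2000 + d, -2000 + d,
  -2000 + d, -2000 + d, -2000 + d, -2000 + d, -2000 + d]
def bB (d : ℤ) : List ℤ := [-3000 + d, -3000 + d, 11000 + d, 11000 + d, -3000 + d, -3000 + d,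
  -3000 + d, -3000 + d, -3000 + d, -3000 + d, -3000 + d]

theorem contract (R : Rt V) (lf Lz Lz' : List (List ℤ))
    (hA : ImpX ((bA 0, bA 96) :: (bB 0, bB 396) :: dbl lf) Lz (bA 0, bA 77))
    (hB : ImpX ((bA 0, bA 96) :: (bB 0, bB 396) :: dbl lf) Lz' (bB 0, bB 383))
    (hf : AllP (GM R) lf) (hz : AllP (GZ R) Lz) (hz' : AllP (GZ R) Lz')
    (h0 : GM R [864, 864, -136, -136, -136, -136, -136, -136, -136, -136, -136])
    (h1 : GM R [-186, -186, 814, 814, -186, -186, -186, -186, -186, -186, -186]) :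
    GM R (bA 0) ∧ GM R (bB 0) := by
  simp only [GM, cl, List.mem_cons, List.not_mem_nil, or_false, forall_eq_or_imp,
    forall_eq] at h0 h1 ⊢
  have eA : ∀ d, actM (bA d) = bA d := fun d => rfl
  have a1 := valM_lin R (bA 0) (bA 96) 1 96 (by decide)
  have a2' := valM_lin R (bA 0) (bA 77) 1 77 (by decide)
  have a3 := valM_lin R _ (bA 96) 14 0 (by decide :
    ∀ F < 11, (bA 96).getD F 0 =
      14 * [864, 864, -136, -136, -136, -136, -136, -136, -136, -136, -136].getD F 0 + 0)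
  have b10 := valM_lin R (bB 0) (bB 396) 1 396 (by decide)
  have b11 := valM_lin R (actM (bB 0)) (actM (bB 396)) 1 396 (by decide)
  have b12 := valM_lin R (actM (actM (bB 0))) (actM (actM (bB 396))) 1 396 (by decide)
  have b13 := valM_lin R (actM (actM (actM (bB 0)))) (actM (actM (actM (bB 396)))) 1 396 (by decide)
  have b20 := valM_lin R (bB 0) (bB 383) 1 383 (by decide)
  have b21 := valM_lin R (actM (bB 0)) (actM (bB 383)) 1 383 (by decide)
  have b22 := valM_lin R (actM (actM (bB 0))) (actM (actM (bB 383))) 1 383 (by decide)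
  have b23 := valM_lin R (actM (actM (actM (bB 0)))) (actM (actM (actM (bB 383)))) 1 383 (by decide)
  have b30 := valM_lin R [-186, -186, 814, 814, -186, -186, -186, -186, -186, -186, -186]
    (bB 396) 14 0 (by decide)
  have b31 := valM_lin R (actM [-186, -186, 814, 814, -186, -186, -186, -186, -186, -186, -186])
    (actM (bB 396)) 14 0 (by decide)
  have b32 := valM_lin R
    (actM (actM [-186, -186, 814, 814, -186, -186, -186, -186, -186, -186, -186]))
    (actM (actM (bB 396))) 14 0 (by decide)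
  have b33 := valM_lin R
    (actM (actM (actM [-186, -186, 814, 814, -186, -186, -186, -186, -186, -186, -186])))
    (actM (actM (actM (bB 396)))) 14 0 (by decide)
  obtain ⟨h00, -⟩ := h0
  obtain ⟨h10, h11, h12, h13⟩ := h1
  rw [eA, eA, eA]
  push_cast at a1 a2' a3 b10 b11 b12 b13 b20 b21 b22 b23 b30 b31 b32 b33
  set a := valM R (bA 0) with ha
  set c0 := valM R (bB 0) with hc0
  set c1 := valM R (actM (bB 0)) with hc1
  set c2 := valM R (actM (actM (bB 0))) with hc2
  set c3 := valM R (actM (actM (actM (bB 0)))) with hc3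
  obtain ⟨s, s0, sa, s1, s2, s3, s4, hs⟩ : ∃ s : ℝ, 0 ≤ s ∧ -a / 96 ≤ s ∧ -c0 / 396 ≤ s ∧
      -c1 / 396 ≤ s ∧ -c2 / 396 ≤ s ∧ -c3 / 396 ≤ s ∧ (s = 0 ∨ s = -a / 96 ∨ s = -c0 / 396 ∨
      s = -c1 / 396 ∨ s = -c2 / 396 ∨ s = -c3 / 396) := by
    refine ⟨max 0 (max (-a / 96) (max (-c0 / 396) (max (-c1 / 396) (max (-c2 / 396) (-c3 / 396))))),
      by simp, by simp, by simp, by simp, by simp, by simp, ?_⟩
    refine (max_choice _ _).imp_right fun h => ?_
    rw [h]
    refine (max_choice _ _).imp_right fun h => ?_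
    rw [h]
    refine (max_choice _ _).imp_right fun h => ?_
    rw [h]
    refine (max_choice _ _).imp_right fun h => ?_
    rw [h]
    exact max_choice _ _
  have hs1 : s ≤ 1 := by
    rcases hs with h | h | h | h | h | h <;> linarith
  have hL : ∀ p ∈ clP ((bA 0, bA 96) :: (bB 0, bB 396) :: dbl lf), 0 ≤ mix R s p := by
    intro p hp
    simp only [clP, a2, eA, List.mem_cons] at hp
    rcases hp with rfl | rfl | rfl | rfl | rfl | rfl | rfl | rfl | hp
    iterate 4
      simp only [mix]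
      rw [a1]
      linarith
    · simp only [mix]
      rw [b10]
      linarith
    · simp only [mix]
      rw [b11]
      linarith
    · simp only [mix]
      rw [b12]
      linarith
    · simp only [mix]
      rw [b13]
      linarith
    · exact mix_dbl R s lf hf p hp
  have gA := (stepX hA R s s0 hs1 hL hz).1
  obtain ⟨g0, g1, g2, g3⟩ := stepX hB R s s0 hs1 hL hz'
  simp only [mix, a2] at gA g0 g1 g2 g3
  rw [a2'] at gA
  rw [b20] at g0
  rw [b21] at g1
  rw [b22] at g2
  rw [b23] at g3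
  have hz0 : s = 0 := by
    rcases hs with h | h | h | h | h | h <;> linarith
  subst hz0
  refine ⟨⟨?_, ?_, ?_, ?_⟩, ?_, ?_, ?_, ?_⟩ <;> linarith

end

end Pool.Agent.P.MP_c18ddb_co.Q
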