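import Pool.Agent.P.MP_c18ddb_co.Q.Step

namespace Pool.Agent.P.MP_c18ddb_co.Q

open Finset

theorem nibble_iter {Ω ι : Type} [DecidableEq Ω] [DecidableEq ι] (k : ℕ) (ε γ θ r c δ : ℝ)
    (hε : 0 < ε) (hkε : (k : ℝ) * ε ≤ 1) (hγ : 0 ≤ γ) (hγε : γ ≤ ε) (hθ : 0 < θ)
    (hc : c = 1 - ε - 2 * k ^ 2 * ε ^ 2) (hc0 : 0 ≤ c) (hc1 : c ≤ 1) (hr0 : 0 ≤ r) (hr1 : r ≤ 1)
    (hr : r * (1 - c) ≤ ε - k * ε ^ 2) (hδ : δ = θ + 2 * k * γ / θ)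
    (U : Finset Ω) (E : ι → Finset Ω) (w : ι → ℝ) (j : ℕ) : ∀ (H : Finset ι) (φ : ι → ℝ),
      (∀ f ∈ H, E f ⊆ U) → (∀ f ∈ H, (E f).card ≤ k) → (∀ f ∈ H, (E f).Nonempty) →
      (∀ f ∈ H, 0 ≤ w f ∧ w f ≤ 1) → (∀ f, 0 ≤ φ f) →
      (∀ u ∈ U, ∑ f ∈ H.filter (fun f => u ∈ E f), φ f ≤ 1) →
      (∀ u ∈ U, ∀ v ∈ U, u ≠ v →
        ∑ f ∈ H.filter (fun f => u ∈ E f ∧ v ∈ E f), φ f ≤ γ / 2 ^ j) →
      ∃ M ⊆ H, (∀ f ∈ M, ∀ g ∈ M, f ≠ g → Disjoint (E f) (E g)) ∧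
        r * (1 - c ^ j) * ∑ f ∈ H, w f * φ f - j * (δ * U.card) ≤ ∑ f ∈ M, w f := by
  induction j with
  | zero =>
    intro H φ _ _ _ _ _ _ _
    exact ⟨∅, empty_subset _, by simp, by simp⟩
  | succ j ih =>
    intro H φ hE hk hne hw hφ hdeg hco
    have h2 : (1 : ℝ) ≤ 2 ^ (j + 1) := one_le_pow₀ one_le_two
    have hp0 : 0 ≤ c ^ j := pow_nonneg hc0 j
    have hp1 : c ^ j ≤ 1 := pow_le_one₀ hc0 hc1
    have hF0 : 0 ≤ r * (1 - c ^ j) := mul_nonneg hr0 (sub_nonneg.2 hp1)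
    have hF1 : r * (1 - c ^ j) ≤ 1 := mul_le_one₀ hr1 (sub_nonneg.2 hp1) (by linarith)
    obtain ⟨M, H', φ', hM, hH', hMM, hMH, h0, hle, hdeg', key⟩ := nib_step k ε γ θ
      (r * (1 - c ^ j)) hε hkε hγ hγε hθ hF0 U H E w φ hE hk hne hw hφ hdeg
      fun u hu v hv huv => (hco u hu v hv huv).trans (div_le_self hγ h2)
    obtain ⟨M', hM', hMM', key'⟩ := ih H' φ' (fun f hf => hE f (hH' hf))
      (fun f hf => hk f (hH' hf)) (fun f hf => hne f (hH' hf)) (fun f hf => hw f (hH' hf)) h0 hdeg'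
      fun u hu v hv huv => by
        have h3 := hco u hu v hv huv
        have h4 : ∑ f ∈ H'.filter (fun f => u ∈ E f ∧ v ∈ E f), φ' f
            ≤ ∑ f ∈ H.filter (fun f => u ∈ E f ∧ v ∈ E f), 2 * φ f :=
          (sum_le_sum fun f _ => hle f).trans (sum_le_sum_of_subset_of_nonneg
            (filter_subset_filter _ hH') fun f _ _ => mul_nonneg zero_le_two (hφ f))
        rw [← mul_sum] at h4
        have h5 : γ / 2 ^ j = 2 * (γ / 2 ^ (j + 1)) := by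
          rw [pow_succ]
          field_simp
        linarith
    have hd : Disjoint M M' := disjoint_left.2 fun f hf hf' =>
      (hne f (hM hf)).ne_empty (disjoint_self.1 (hMH f hf f (hM' hf')))
    refine ⟨M ∪ M', union_subset hM (hM'.trans hH'), fun f hf g hg hfg => ?_, ?_⟩
    · rcases mem_union.1 hf with hf | hf <;> rcases mem_union.1 hg with hg | hg
      · exact hMM f hf g hg hfg
      · exact hMH f hf g (hM' hg)
      · exact (hMH g hg f (hM' hf)).symm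
      · exact hMM' f hf g hg hfg
    · rw [sum_union hd]
      rw [← hc, ← hδ] at key
      have hW : 0 ≤ ∑ f ∈ H, w f * φ f := sum_nonneg fun f hf => mul_nonneg (hw f hf).1 (hφ f)
      have hD : 0 ≤ δ * U.card := mul_nonneg (by rw [hδ]; positivity) (Nat.cast_nonneg _)
      have h6 := mul_le_mul_of_nonneg_right hr hW
      have h7 := mul_le_mul_of_nonneg_right hF1 hD
      push_cast
      rw [pow_succ]
      linarith

theorem nibble_total {Ω ι : Type} [DecidableEq Ω] (U : Finset Ω) (H : Finset ι)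
    (E : ι → Finset Ω) (w φ : ι → ℝ) (hE : ∀ f ∈ H, E f ⊆ U) (hne : ∀ f ∈ H, (E f).Nonempty)
    (hw : ∀ f ∈ H, 0 ≤ w f ∧ w f ≤ 1) (hφ : ∀ f, 0 ≤ φ f)
    (hdeg : ∀ u ∈ U, ∑ f ∈ H.filter (fun f => u ∈ E f), φ f ≤ 1) :
    ∑ f ∈ H, w f * φ f ≤ U.card := by
  have h1 : ∑ u ∈ U, ∑ f ∈ H.filter (fun f => u ∈ E f), φ f ≤ U.card :=
    (sum_le_sum hdeg).trans (by simp)
  simp only [sum_filter] at h1
  rw [sum_comm] at h1
  refine le_trans (sum_le_sum fun f hf => ?_) h1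
  obtain ⟨u, hu⟩ := hne f hf
  refine (mul_le_of_le_one_left (hφ f) (hw f hf).2).trans ?_
  refine le_trans (le_of_eq (if_pos hu).symm) (single_le_sum
    (f := fun u => if u ∈ E f then φ f else 0) (fun v _ => ?_) (hE f hf hu))
  split_ifs
  exacts [hφ f, le_rfl]

/-- a fractional matching with small codegrees can be rounded to a matching -/
theorem nibble (k : ℕ) (η : ℝ) (hη : 0 < η) : ∃ γ : ℝ, 0 < γ ∧
    ∀ (Ω ι : Type) [DecidableEq Ω] [DecidableEq ι]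
      (U : Finset Ω) (H : Finset ι) (E : ι → Finset Ω) (w φ : ι → ℝ),
      (∀ f ∈ H, E f ⊆ U) → (∀ f ∈ H, (E f).card ≤ k) → (∀ f ∈ H, (E f).Nonempty) →
      (∀ f ∈ H, 0 ≤ w f ∧ w f ≤ 1) → (∀ f, 0 ≤ φ f) →
      (∀ u ∈ U, ∑ f ∈ H.filter (fun f => u ∈ E f), φ f ≤ 1) →
      (∀ u ∈ U, ∀ v ∈ U, u ≠ v → ∑ f ∈ H.filter (fun f => u ∈ E f ∧ v ∈ E f), φ f ≤ γ) →
      ∃ M ⊆ H, (∀ f ∈ M, ∀ g ∈ M, f ≠ g → Disjoint (E f) (E g)) ∧
        ∑ f ∈ H, w f * φ f - η * U.card ≤ ∑ f ∈ M, w f := by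
  obtain ⟨η', h0, h1, h2⟩ : ∃ η' : ℝ, 0 < η' ∧ η' ≤ 1 ∧ η' ≤ η :=
    ⟨min η 1, lt_min hη one_pos, min_le_right _ _, min_le_left _ _⟩
  have hk0 : (0 : ℝ) ≤ k := Nat.cast_nonneg k
  obtain ⟨ε, hε, e1⟩ : ∃ ε : ℝ, 0 < ε ∧ 16 * ((k : ℝ) + 1) ^ 2 * ε = η' :=
    ⟨η' / (16 * ((k : ℝ) + 1) ^ 2), by positivity, by field_simp⟩
  have a1 : 0 ≤ (k : ℝ) * ε := mul_nonneg hk0 hε.le
  have a2 : 0 ≤ (k : ℝ) ^ 2 * ε := by positivity
  have e2 : 16 * ((k : ℝ) ^ 2 * ε) + 32 * (k * ε) + 16 * ε = η' := by rw [← e1]; ring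
  have a3 : 2 * (k : ℝ) ^ 2 * ε ^ 2 ≤ ε := by
    have := mul_le_mul_of_nonneg_right (show 2 * ((k : ℝ) ^ 2 * ε) ≤ 1 by linarith) hε.le
    linarith
  have a4 : 0 ≤ 2 * (k : ℝ) ^ 2 * ε ^ 2 := by positivity
  obtain ⟨c, hc⟩ : ∃ c : ℝ, c = 1 - ε - 2 * k ^ 2 * ε ^ 2 := ⟨_, rfl⟩
  have hc0 : 0 ≤ c := by linarith
  have hc1 : c < 1 := by linarith
  have hr : (1 - η' / 4) * (1 - c) ≤ ε - k * ε ^ 2 := by
    have b1 : (1 - η' / 4) * (1 + 2 * (k ^ 2 * ε)) ≤ 1 - k * ε := by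
      have := mul_nonneg h0.le a2
      linarith
    have := mul_le_mul_of_nonneg_right b1 hε.le
    rw [hc]
    linarith
  obtain ⟨J, hJ⟩ := exists_pow_lt_of_lt_one (show 0 < η' / 4 by positivity) hc1
  obtain ⟨θ, hθ, e3⟩ : ∃ θ : ℝ, 0 < θ ∧ 4 * ((J : ℝ) + 1) * θ = η' :=
    ⟨η' / (4 * ((J : ℝ) + 1)), by positivity, by field_simp⟩
  obtain ⟨γ, g0, g1, g2⟩ : ∃ γ : ℝ, 0 < γ ∧ γ ≤ ε ∧ γ ≤ θ ^ 2 / (2 * k + 1) :=
    ⟨min ε (θ ^ 2 / (2 * k + 1)), lt_min hε (by positivity), min_le_left _ _, min_le_right _ _⟩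
  have g3 : 2 * k * γ / θ ≤ θ := by
    rw [le_div_iff₀ (by positivity)] at g2
    rw [div_le_iff₀ hθ]
    linarith
  refine ⟨γ / 2 ^ J, by positivity, fun Ω ι _ _ U H E w φ hE hk hne hw hφ hdeg hco => ?_⟩
  obtain ⟨M, hM, hMM, key⟩ := nibble_iter k ε γ θ (1 - η' / 4) c _ hε (by linarith) g0.le g1 hθ hc
    hc0 hc1.le (by linarith) (by linarith) hr rfl U E w J H φ hE hk hne hw hφ hdeg hco
  refine ⟨M, hM, hMM, le_trans ?_ key⟩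
  have hW : 0 ≤ ∑ f ∈ H, w f * φ f := sum_nonneg fun f hf => mul_nonneg (hw f hf).1 (hφ f)
  have hU := nibble_total U H E w φ hE hne hw hφ hdeg
  have hU0 : (0 : ℝ) ≤ U.card := Nat.cast_nonneg _
  have b1 : 1 - η' / 2 ≤ (1 - η' / 4) * (1 - c ^ J) := by
    have := mul_nonneg h0.le (pow_nonneg hc0 J)
    linarith
  have b2 : (J : ℝ) * (θ + 2 * k * γ / θ) ≤ η' / 2 := by
    have := mul_le_mul_of_nonneg_left g3 (Nat.cast_nonneg (α := ℝ) J)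
    linarith
  have b3 := mul_le_mul_of_nonneg_right b1 hW
  have b4 := mul_le_mul_of_nonneg_right b2 hU0
  have b5 := mul_le_mul_of_nonneg_left hU h0.le
  have b6 := mul_le_mul_of_nonneg_right h2 hU0
  linarith

end Pool.Agent.P.MP_c18ddb_co.Q
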