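import Pool.Agent.P.MP_c18ddb_co.Q.Defs

namespace Pool.Agent.P.MP_c18ddb_co.Q

open Finset

open Classical in
/-- the colouring attached to a graph -/
noncomputable def col {V : Type} (G : SimpleGraph V) : V → V → Bool :=
  fun u v => decide (G.Adj u v)

theorem col_symm {V : Type} (G : SimpleGraph V) (u v : V) : col G u v = col G v u := by
  simp only [col]
  exact decide_eq_decide.2 (G.adj_comm u v)

theorem pack_part {V : Type} (G : SimpleGraph V) (N : Finset (Finset V))
    [DecidablePred fun K : Finset V => G.IsClique (K : Set V)]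
    (h2 : ∀ K ∈ N, 2 ≤ K.card) (hu : ∀ u v, u ≠ v → ∃! K, K ∈ N ∧ u ∈ K ∧ v ∈ K)
    (hm : ∀ K ∈ N, G.IsClique (K : Set V) ∨ Gᶜ.IsClique (K : Set V)) :
    cp G ≤ (N.filter fun K : Finset V => G.IsClique (K : Set V)).card := by
  refine cp_le ⟨fun K hK => ⟨(mem_filter.1 hK).2, h2 K (mem_filter.1 hK).1⟩, fun u v huv => ?_⟩
  obtain ⟨K, hK, h⟩ := hu u v huv.ne
  refine ⟨K, ⟨mem_filter.2 ⟨hK.1, ?_⟩, hK.2⟩, fun L hL => h L ⟨(mem_filter.1 hL.1).1, hL.2⟩⟩
  exact (hm K hK.1).resolve_right fun hc => (hc hK.2.1 hK.2.2 huv.ne).2 huv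

theorem pack_both {V : Type} (G : SimpleGraph V) (N : Finset (Finset V))
    (h2 : ∀ K ∈ N, 2 ≤ K.card) (hu : ∀ u v, u ≠ v → ∃! K, K ∈ N ∧ u ∈ K ∧ v ∈ K)
    (hm : ∀ K ∈ N, G.IsClique (K : Set V) ∨ Gᶜ.IsClique (K : Set V)) :
    cp G + cp Gᶜ ≤ N.card := by
  classical
  rw [← card_filter_add_card_filter_not (s := N) fun K => G.IsClique (K : Set V)]
  refine add_le_add (pack_part G N h2 hu hm) ((pack_part Gᶜ N h2 hu fun K hK => by
    rw [compl_compl]; exact (hm K hK).symm).trans (card_le_card fun K hK => ?_))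
  rw [mem_filter] at hK ⊢
  obtain ⟨u, hu, v, hv, huv⟩ := one_lt_card.1 (h2 K hK.1)
  exact ⟨hK.1, fun hc => (hK.2 hu hv huv).2 (hc hu hv huv)⟩

/-- an edge-disjoint family of monochromatic cliques extends to clique partitions -/
theorem cp_add_le {V : Type} [Fintype V] [DecidableEq V] (G : SimpleGraph V)
    (M : Finset (Finset V)) (hM : M ⊆ Cl (col G) univ)
    (hd : ∀ K ∈ M, ∀ L ∈ M, K ≠ L → Disjoint (K.powersetCard 2) (L.powersetCard 2)) :
    (cp G : ℝ) + cp Gᶜ ≤ ((Fintype.card V).choose 2 : ℝ) - ∑ K ∈ M, val K := by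
  classical
  have hM' : ∀ K ∈ M, 3 ≤ K.card ∧ Mono (col G) K := fun K hK =>
    ⟨(mem_filter.1 (hM hK)).2.1, (mem_filter.1 (hM hK)).2.2.2⟩
  have hp : ∀ {u v : V} {K : Finset V}, u ≠ v → u ∈ K → v ∈ K → {u, v} ∈ K.powersetCard 2 :=
    fun huv hu hv => mem_powersetCard.2
      ⟨insert_subset hu (singleton_subset_iff.2 hv), card_pair huv⟩
  have he : ∀ {u v : V} {K : Finset V}, u ≠ v → u ∈ K → v ∈ K → K.card = 2 → K = {u, v} :=
    fun huv hu hv h => (eq_of_subset_of_card_le (mem_powersetCard.1 (hp huv hu hv)).1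
      (by rw [h, card_pair huv])).symm
  have h1 := pack_both G (M ∪ (univ.powersetCard 2 \ M.biUnion (powersetCard 2)))
    (fun K hK => (mem_union.1 hK).elim (fun h => le_of_lt (hM' K h).1)
      fun h => (mem_powersetCard.1 (mem_sdiff.1 h).1).2.ge) (fun u v huv => ?_) fun K hK => ?_
  · have h2 := h1.trans (card_union_le _ _)
    have h3 : M.biUnion (powersetCard 2) ⊆ univ.powersetCard 2 :=
      biUnion_subset.2 fun K _ => powersetCard_mono (subset_univ K)
    have h4 := card_sdiff_add_card_eq_card h3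
    rw [card_biUnion fun K hK L hL => hd K hK L hL, card_powersetCard, card_univ] at h4
    simp only [card_powersetCard] at h4
    simp only [val, sum_sub_distrib, sum_const, nsmul_eq_mul, mul_one]
    rw [← h4]
    push_cast
    have : (cp G : ℝ) + cp Gᶜ ≤
        M.card + (univ.powersetCard 2 \ M.biUnion (powersetCard 2)).card := by exact_mod_cast h2
    linarith
  · by_cases h : ∃ K ∈ M, u ∈ K ∧ v ∈ K
    · obtain ⟨K, hK, hu, hv⟩ := h
      refine ⟨K, ⟨mem_union_left _ hK, hu, hv⟩, fun L hL => ?_⟩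
      rcases mem_union.1 hL.1 with h | h
      · by_contra hne
        exact disjoint_left.1 (hd L h K hK hne) (hp huv hL.2.1 hL.2.2) (hp huv hu hv)
      · rw [mem_sdiff, he huv hL.2.1 hL.2.2 (mem_powersetCard.1 h.1).2] at h
        exact absurd (mem_biUnion.2 ⟨K, hK, hp huv hu hv⟩) h.2
    · refine ⟨{u, v}, ⟨mem_union_right _ (mem_sdiff.2 ⟨hp huv (mem_univ _) (mem_univ _),
        fun hc => ?_⟩), by simp, by simp⟩, fun L hL => ?_⟩
      · obtain ⟨K, hK, hc⟩ := mem_biUnion.1 hc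
        have := (mem_powersetCard.1 hc).1
        exact h ⟨K, hK, this (by simp), this (by simp)⟩
      · rcases mem_union.1 hL.1 with h' | h'
        · exact absurd ⟨L, h', hL.2⟩ h
        · exact he huv hL.2.1 hL.2.2 (mem_powersetCard.1 (mem_sdiff.1 h').1).2
  · rcases mem_union.1 hK with h | h
    · obtain ⟨s, hs⟩ := (hM' K h).2
      cases s
      · exact .inr fun u hu v hv huv => ⟨huv, by simpa [col] using hs u hu v hv huv⟩
      · exact .inl fun u hu v hv huv => by simpa [col] using hs u hu v hv huv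
    · obtain ⟨u, v, huv, rfl⟩ := card_eq_two.1 (mem_powersetCard.1 (mem_sdiff.1 h).1).2
      rw [coe_pair, SimpleGraph.isClique_pair, SimpleGraph.isClique_pair]
      exact (em (G.Adj u v)).imp (fun ha _ => ha) fun ha h => ⟨h, ha⟩

end Pool.Agent.P.MP_c18ddb_co.Q
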