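import Pool.Agent.P.MP_c18ddb_co.Q.Pk

/-! Vectors of naturals packed in base `B`; the last digit dominates all digits. -/

namespace Pool.Agent.P.MP_c18ddb_co.Q

open Finset

def RepN (B K : ℕ) (z : ℕ → ℝ) (f : ℕ) (v : ℝ) : Prop :=
  f < B ^ K → ∃ a : ℕ → ℕ, f = ∑ i ∈ range K, a i * B ^ i ∧ (∀ i < K, a i ≤ a (K - 1)) ∧
    v = ∑ i ∈ range K, (a i : ℝ) * z i

/-- positive half, negative half, last digit -/
noncomputable def sg (n : ℕ) (d : ℕ → ℝ) (i : ℕ) : ℝ :=
  if i < n then d i else if i < 2 * n then -d (i - n) else 0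

/-- exchange of the two halves, `H = B ^ n` -/
def swp (H f : ℕ) : ℕ :=
  Nat.add (Nat.add (Nat.mod (Nat.div f H) H) (Nat.mul (Nat.mod f H) H))
    (Nat.mul (Nat.div f (Nat.mul H H)) (Nat.mul H H))

/-- units of the signed packing, cut off at `c ≤ n` -/
def upos (B n c k : ℕ) : ℕ :=
  bif Nat.blt k c then Nat.add (Nat.pow B k) (Nat.pow B (Nat.mul 2 n)) else 0
def uneg (B n c k : ℕ) : ℕ :=
  bif Nat.blt k c then Nat.add (Nat.pow B (Nat.add n k)) (Nat.pow B (Nat.mul 2 n)) else 0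

noncomputable section

def fN {β : Type} (n : ℕ) (k : ℕ → β) : β := Nat.rec (k 0) (fun m _ => k (Nat.succ m)) n

def nsum {α : Type} (f : α → ℕ) (l : List α) : ℕ := List.rec 0 (fun a _ ih => Nat.add (f a) ih) l

def lk {α : Type} (x : α) (l : List α) : ℕ → α :=
  List.rec (motive := fun _ => ℕ → α) (fun _ => x)
    (fun a _ ih i => Nat.rec a (fun j _ => ih j) i) l

/-- `k * f`, where `g` packs the negative of `f` -/
def sm2 (k : ℤ) (f g : ℕ) : ℕ :=
  Int.rec (fun n => Nat.mul n f) (fun n => Nat.mul (Nat.succ n) g) k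

def spn (u nu : ℕ → ℕ) (l : List (ℤ × ℕ)) : ℕ := nsum (fun p => sm2 p.1 (u p.2) (nu p.2)) l

/-- sum of `f` over the digits of `n` in base `Q` -/
def ploop (Q : ℕ) (f : ℕ → ℕ) (fuel : ℕ) : ℕ → ℕ :=
  Nat.rec (motive := fun _ => ℕ → ℕ) (fun _ => 0)
    (fun _ ih n => bif Nat.beq n 0 then 0 else Nat.add (f (Nat.mod n Q)) (ih (Nat.div n Q))) fuel

/-- scalar product of the first `r` digits -/
def dotp (Q r : ℕ) : ℕ → ℕ → ℕ :=
  Nat.rec (motive := fun _ => ℕ → ℕ → ℕ) (fun _ _ => 0)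
    (fun _ ih a b => Nat.add (Nat.mul (Nat.mod a Q) (Nat.mod b Q)) (ih (Nat.div a Q) (Nat.div b Q))) r

/-- sum of the first `r` digits -/
def sump (Q r : ℕ) : ℕ → ℕ :=
  Nat.rec (motive := fun _ => ℕ → ℕ) (fun _ => 0)
    (fun _ ih a => Nat.add (Nat.mod a Q) (ih (Nat.div a Q))) r

/-- sum of the truncated differences of the first `r` digits -/
def negp (B r : ℕ) : ℕ → ℕ → ℕ :=
  Nat.rec (motive := fun _ => ℕ → ℕ → ℕ) (fun _ _ => 0)
    (fun _ ih p q => Nat.add (Nat.sub (Nat.mod q B) (Nat.mod p B)) (ih (Nat.div p B) (Nat.div q B))) r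

/-- final test for a signed packing with `n = m + 1` coordinates in `[0, U]` -/
def finN (B m U f : ℕ) : Bool :=
  Nat.blt f (Nat.pow B (Nat.add (Nat.mul 2 m) 3)) &&
    Nat.ble (Nat.add (Nat.mod (Nat.div f (Nat.pow B (Nat.succ m))) B)
      (Nat.mul U (negp B m (Nat.div f B) (Nat.div f (Nat.pow B (Nat.add m 2)))))) (Nat.mod f B)

end

theorem fN_eq {β : Type} (n : ℕ) (k : ℕ → β) : fN n k = k n := by
  cases n <;> rfl

theorem nsum_eq {α : Type} (f : α → ℕ) (l : List α) : nsum f l = (l.map f).sum := by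
  induction l with
  | nil => rfl
  | cons a l ih =>
    rw [List.map_cons, List.sum_cons, ← ih]
    rfl

theorem lk_eq {α : Type} (x : α) (l : List α) (i : ℕ) : lk x l i = l.getD i x := by
  induction l generalizing i with
  | nil => simp [lk]
  | cons a l ih =>
    cases i with
    | zero => rfl
    | succ j =>
      rw [List.getD_cons_succ, ← ih j]
      rfl

theorem ploop_eq (Q : ℕ) (f : ℕ → ℕ) (fuel n : ℕ) :
    ploop Q f fuel n = ((unp Q fuel n).map f).sum := by
  induction fuel generalizing n with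
  | zero => rfl
  | succ k ih =>
    have e : ploop Q f (k + 1) n =
        bif Nat.beq n 0 then 0 else Nat.add (f (Nat.mod n Q)) (ploop Q f k (Nat.div n Q)) := rfl
    rw [e, ih]
    unfold unp
    cases Nat.beq n 0
    · simp only [cond_false, List.map_cons, List.sum_cons]
      cases k <;> rfl
    · simp

theorem dotp_eq (Q r a b : ℕ) :
    dotp Q r a b = ∑ i ∈ range r, (a / Q ^ i % Q) * (b / Q ^ i % Q) := by
  induction r generalizing a b with
  | zero => rfl
  | succ k ih =>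
    have e : dotp Q (k + 1) a b = (a % Q) * (b % Q) + dotp Q k (a / Q) (b / Q) := rfl
    rw [e, ih, sum_range_succ', add_comm]
    simp only [pow_zero, Nat.div_one, Nat.div_div_eq_div_mul, pow_succ']

theorem sump_eq (Q r a : ℕ) : sump Q r a = ∑ i ∈ range r, a / Q ^ i % Q := by
  induction r generalizing a with
  | zero => rfl
  | succ k ih =>
    have e : sump Q (k + 1) a = (a % Q) + sump Q k (a / Q) := rfl
    rw [e, ih, sum_range_succ', add_comm]
    simp only [pow_zero, Nat.div_one, Nat.div_div_eq_div_mul, pow_succ']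

theorem negp_eq (B r p q : ℕ) :
    negp B r p q = ∑ i ∈ range r, (q / B ^ i % B - p / B ^ i % B) := by
  induction r generalizing p q with
  | zero => rfl
  | succ k ih =>
    have e : negp B (k + 1) p q = (q % B - p % B) + negp B k (p / B) (q / B) := rfl
    rw [e, ih, sum_range_succ', add_comm]
    simp only [pow_zero, Nat.div_one, Nat.div_div_eq_div_mul, pow_succ']

theorem pn_split (B K : ℕ) (a : ℕ → ℕ) :
    ∑ i ∈ range (K + 1), a i * B ^ i = a 0 + B * ∑ i ∈ range K, a (i + 1) * B ^ i := by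
  rw [sum_range_succ', mul_sum, pow_zero, mul_one, add_comm]
  congr 1
  exact sum_congr rfl fun i _ => by ring

theorem pn_lt (B K : ℕ) : ∀ a : ℕ → ℕ, (∀ i < K, a i < B) →
    ∑ i ∈ range K, a i * B ^ i < B ^ K := by
  induction K with
  | zero => intro a _; simp
  | succ K ih =>
    intro a h
    have h0 := h 0 (Nat.succ_pos K)
    have h1 := ih (fun i => a (i + 1)) fun i hi => h (i + 1) (Nat.succ_lt_succ hi)
    rw [pn_split, pow_succ']
    have h2 : B * (∑ i ∈ range K, a (i + 1) * B ^ i + 1) ≤ B * B ^ K := Nat.mul_le_mul_left _ h1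
    rw [mul_add, mul_one] at h2
    omega

theorem pn_dig (B K : ℕ) : ∀ a : ℕ → ℕ, (∀ i < K, a i < B) → ∀ j < K,
    (∑ i ∈ range K, a i * B ^ i) / B ^ j % B = a j := by
  induction K with
  | zero => intro a _ j hj; omega
  | succ K ih =>
    intro a h j hj
    have h0 := h 0 (Nat.succ_pos K)
    rw [pn_split]
    cases j with
    | zero => rw [pow_zero, Nat.div_one, Nat.add_mul_mod_self_left, Nat.mod_eq_of_lt h0]
    | succ j =>
      rw [pow_succ', ← Nat.div_div_eq_div_mul, Nat.add_mul_div_left _ _ (by omega),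
        Nat.div_eq_of_lt h0, zero_add]
      exact ih (fun i => a (i + 1)) (fun i hi => h (i + 1) (Nat.succ_lt_succ hi)) j (by omega)

theorem pn_small {B K f : ℕ} {a : ℕ → ℕ} (h : f < B ^ K)
    (h1 : f = ∑ i ∈ range K, a i * B ^ i) (h2 : ∀ i < K, a i ≤ a (K - 1)) :
    ∀ i < K, a i < B := by
  intro i hi
  obtain ⟨k, rfl⟩ : ∃ k, K = k + 1 := ⟨K - 1, by omega⟩
  have h3 : a k * B ^ k ≤ f := by
    rw [h1]
    exact single_le_sum (f := fun i => a i * B ^ i) (fun _ _ => Nat.zero_le _)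
      (mem_range.2 (Nat.lt_succ_self k))
  have h4 : a k * B ^ k < B * B ^ k := by
    rw [← pow_succ']
    omega
  have h5 := h2 i hi
  rw [Nat.add_sub_cancel] at h5
  exact lt_of_le_of_lt h5 (Nat.lt_of_mul_lt_mul_right h4)

theorem repN_val_zero {B K : ℕ} {z : ℕ → ℝ} {v : ℝ} (hB : 0 < B) (hf : RepN B K z 0 v) :
    v = 0 := by
  obtain ⟨a, h1, _, h3⟩ := hf (Nat.pow_pos hB)
  rw [h3]
  refine sum_eq_zero fun i hi => ?_
  have h4 := (sum_eq_zero_iff.1 h1.symm) i hi
  rcases Nat.mul_eq_zero.1 h4 with h5 | h5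
  · rw [h5]; simp
  · exact absurd h5 (Nat.pow_pos hB).ne'

section
variable {B K : ℕ} {z : ℕ → ℝ}

theorem repN_zero : RepN B K z 0 0 := by
  intro _
  exact ⟨fun _ => 0, by simp, by simp, by simp⟩

theorem repN_add {f g : ℕ} {v w : ℝ} (hf : RepN B K z f v) (hg : RepN B K z g w) :
    RepN B K z (Nat.add f g) (v + w) := by
  intro h
  have h' : f + g < B ^ K := h
  obtain ⟨a, h1, h2, h3⟩ := hf (by omega)
  obtain ⟨a', h1', h2', h3'⟩ := hg (by omega)
  refine ⟨fun i => a i + a' i, ?_, fun i hi => Nat.add_le_add (h2 i hi) (h2' i hi), ?_⟩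
  · show f + g = _
    rw [h1, h1', ← sum_add_distrib]
    exact sum_congr rfl fun i _ => by ring
  · rw [h3, h3', ← sum_add_distrib]
    exact sum_congr rfl fun i _ => by push_cast; ring

theorem repN_sm (k : ℕ) {f : ℕ} {v : ℝ} (hf : RepN B K z f v) :
    RepN B K z (Nat.mul k f) (k * v) := by
  intro h
  have h' : k * f < B ^ K := h
  rcases Nat.eq_zero_or_pos k with rfl | hk
  · exact ⟨fun _ => 0, by show 0 * f = _; simp, by simp, by simp⟩
  obtain ⟨a, h1, h2, h3⟩ := hf (lt_of_le_of_lt (Nat.le_mul_of_pos_left f hk) h')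
  refine ⟨fun i => k * a i, ?_, fun i hi => Nat.mul_le_mul_left _ (h2 i hi), ?_⟩
  · show k * f = _
    rw [h1, mul_sum]
    exact sum_congr rfl fun i _ => by ring
  · rw [h3, mul_sum]
    exact sum_congr rfl fun i _ => by push_cast; ring

theorem repN_unit {i : ℕ} (hi : i < K) (hz : z (K - 1) = 0) :
    RepN B K z (Nat.add (Nat.pow B i) (Nat.pow B (K - 1))) (z i) := by
  intro _
  have hK : K - 1 < K := by omega
  refine ⟨fun j => (if j = i then 1 else 0) + (if j = K - 1 then 1 else 0), ?_, ?_, ?_⟩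
  · show B ^ i + B ^ (K - 1) = _
    simp [add_mul, sum_add_distrib, hi, hK]
  · intro j _
    dsimp only
    split_ifs <;> omega
  · simp [add_mul, sum_add_distrib, hi, hK, hz]

theorem repN_mul {K' : ℕ} {z' : ℕ → ℝ} {f g : ℕ} {v w : ℝ} (hB : 2 ≤ B) (hK : 0 < K)
    (hK' : 0 < K') (hf : RepN B K z f v) (hg : RepN (B ^ K) K' z' g w) :
    RepN B (K * K') (fun i => z (i % K) * z' (i / K)) (Nat.mul f g) (v * w) := by
  intro h
  have h' : f * g < (B ^ K) ^ K' := by rw [← pow_mul]; exact h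
  have hB0 : 0 < B := by omega
  rcases Nat.eq_zero_or_pos f with rfl | hf0
  · exact ⟨fun _ => 0, by show 0 * g = _; simp, by simp, by simp [repN_val_zero hB0 hf]⟩
  rcases Nat.eq_zero_or_pos g with rfl | hg0
  · exact ⟨fun _ => 0, by show f * 0 = _; simp, by simp,
      by simp [repN_val_zero (Nat.pow_pos hB0) hg]⟩
  obtain ⟨a', h1', h2', h3'⟩ := hg (lt_of_le_of_lt (Nat.le_mul_of_pos_left g hf0) h')
  obtain ⟨k, rfl⟩ : ∃ k, K' = k + 1 := ⟨K' - 1, by omega⟩
  rw [Nat.add_sub_cancel] at h2'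
  have hb : 0 < a' k := by
    by_contra hb
    have h0 : ∀ i ∈ range (k + 1), a' i * (B ^ K) ^ i = 0 := by
      intro i hi
      have := h2' i (mem_range.1 hi)
      have h5 : a' i = 0 := by omega
      rw [h5, zero_mul]
    rw [sum_eq_zero h0] at h1'
    omega
  have hg1 : (B ^ K) ^ k ≤ g := by
    refine le_trans (Nat.le_mul_of_pos_left _ hb) ?_
    rw [h1']
    exact single_le_sum (f := fun i => a' i * (B ^ K) ^ i) (fun _ _ => Nat.zero_le _)
      (mem_range.2 (Nat.lt_succ_self k))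
  have hf1 : f < B ^ K := by
    have h6 : f * (B ^ K) ^ k < B ^ K * (B ^ K) ^ k := by
      rw [← pow_succ']
      exact lt_of_le_of_lt (Nat.mul_le_mul_left _ hg1) h'
    exact Nat.lt_of_mul_lt_mul_right h6
  obtain ⟨a, h1, h2, h3⟩ := hf hf1
  refine ⟨fun i => a (i % K) * a' (i / K), ?_, ?_, ?_⟩
  · show f * g = _
    have e : ∀ i, a (i % K) * a' (i / K) * B ^ i =
        (a (i % K) * B ^ (i % K)) * (a' (i / K) * (B ^ K) ^ (i / K)) := by
      intro i
      have : B ^ i = B ^ (i % K) * (B ^ K) ^ (i / K) := by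
        rw [← pow_mul, ← pow_add, Nat.mod_add_div]
      rw [this]
      ring
    simp only [e]
    rw [h1, h1', pk_sum (fun i => a i * B ^ i) (fun j => a' j * (B ^ K) ^ j)]
  · intro i hi
    have e1 : K * (k + 1) - 1 = K * k + (K - 1) := by
      rw [Nat.mul_succ]; omega
    have hK1 : K - 1 < K := by omega
    dsimp only
    rw [e1, Nat.mul_add_mod, Nat.mod_eq_of_lt hK1, Nat.mul_add_div hK, Nat.div_eq_of_lt hK1,
      add_zero]
    exact Nat.mul_le_mul (h2 _ (Nat.mod_lt _ hK)) (h2' _ (Nat.div_lt_of_lt_mul hi))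
  · have e : ∀ i, ((a (i % K) * a' (i / K) : ℕ) : ℝ) * (z (i % K) * z' (i / K)) =
        ((a (i % K) : ℝ) * z (i % K)) * ((a' (i / K) : ℝ) * z' (i / K)) := by
      intro i
      push_cast
      ring
    simp only [e]
    rw [h3, h3', pk_sum (fun i => (a i : ℝ) * z i) (fun j => (a' j : ℝ) * z' j)]

theorem repN_dig {f : ℕ} {v : ℝ} (hf : RepN B K z f v) (h : f < B ^ K) :
    v = ∑ i ∈ range K, ((f / B ^ i % B : ℕ) : ℝ) * z i := by
  obtain ⟨a, h1, h2, h3⟩ := hf h
  have h4 := pn_small h h1 h2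
  rw [h3]
  refine sum_congr rfl fun i hi => ?_
  rw [h1, pn_dig B K a h4 i (mem_range.1 hi)]

theorem repN_nsum {α : Type} {f : α → ℕ} {g : α → ℝ} (l : List α)
    (h : ∀ a ∈ l, RepN B K z (f a) (g a)) : RepN B K z (nsum f l) (l.map g).sum := by
  induction l with
  | nil => exact repN_zero
  | cons a l ih =>
    rw [List.map_cons, List.sum_cons]
    exact repN_add (h a List.mem_cons_self) (ih fun b hb => h b (List.mem_cons_of_mem a hb))

theorem repN_ploop (Q fuel n : ℕ) {f : ℕ → ℕ} {g : ℕ → ℝ} (h : ∀ a, RepN B K z (f a) (g a)) :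
    RepN B K z (ploop Q f fuel n) ((unp Q fuel n).map g).sum := by
  rw [ploop_eq, ← nsum_eq]
  exact repN_nsum _ fun a _ => h a

theorem repN_sm2 (k : ℤ) {f g : ℕ} {v : ℝ} (hf : RepN B K z f v) (hg : RepN B K z g (-v)) :
    RepN B K z (sm2 k f g) (k * v) := by
  cases k with
  | ofNat n =>
    have := repN_sm n hf
    exact_mod_cast this
  | negSucc n =>
    have := repN_sm (n + 1) hg
    have e : ((Int.negSucc n : ℤ) : ℝ) * v = ((n + 1 : ℕ) : ℝ) * (-v) := by
      rw [Int.cast_negSucc]; ring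
    rw [e]
    exact this

theorem repN_spn {u nu : ℕ → ℕ} {d : ℕ → ℝ} (h : ∀ k, RepN B K z (u k) (d k))
    (h' : ∀ k, RepN B K z (nu k) (-d k)) (l : List (ℤ × ℕ)) :
    RepN B K z (spn u nu l) (sev d l) := by
  induction l with
  | nil => exact repN_zero
  | cons p l ih => exact repN_add (repN_sm2 p.1 (h p.2) (h' p.2)) ih

end

theorem pn_three {M : Type} [AddCommMonoid M] (n : ℕ) (F : ℕ → M) :
    ∑ i ∈ range (2 * n + 1), F i =
      ∑ i ∈ range n, F i + ∑ i ∈ range n, F (n + i) + F (2 * n) := by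
  rw [sum_range_succ, two_mul, sum_range_add]

theorem pn_sg (n : ℕ) (d : ℕ → ℝ) (c : ℕ → ℝ) :
    ∑ i ∈ range (2 * n + 1), c i * sg n d i =
      ∑ i ∈ range n, c i * d i - ∑ i ∈ range n, c (n + i) * d i := by
  rw [pn_three]
  have e1 : ∀ i ∈ range n, c i * sg n d i = c i * d i := by
    intro i hi
    rw [sg, if_pos (mem_range.1 hi)]
  have e2 : ∀ i ∈ range n, c (n + i) * sg n d (n + i) = -(c (n + i) * d i) := by
    intro i hi
    have := mem_range.1 hi
    rw [sg, if_neg (by omega), if_pos (by omega), Nat.add_sub_cancel_left, mul_neg]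
  have e3 : sg n d (2 * n) = 0 := by
    rw [sg, if_neg (by omega), if_neg (by omega)]
  rw [sum_congr rfl e1, sum_congr rfl e2, e3, sum_neg_distrib]
  ring

theorem pn_pack (B n : ℕ) (a : ℕ → ℕ) :
    ∑ i ∈ range (2 * n + 1), a i * B ^ i =
      ∑ i ∈ range n, a i * B ^ i + (∑ i ∈ range n, a (n + i) * B ^ i) * B ^ n +
        a (2 * n) * (B ^ n * B ^ n) := by
  rw [pn_three, sum_mul, ← pow_add, ← two_mul]
  congr 2
  exact sum_congr rfl fun i _ => by ring

section
variable {B n : ℕ} {d : ℕ → ℝ}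

theorem repN_swp {f : ℕ} {v : ℝ} (hB : 2 ≤ B) (hf : RepN B (2 * n + 1) (sg n d) f v) :
    RepN B (2 * n + 1) (sg n d) (swp (Nat.pow B n) f) (-v) := by
  intro h
  have hH : 0 < B ^ n := Nat.pow_pos (by omega)
  have es : swp (Nat.pow B n) f =
      f / B ^ n % B ^ n + f % B ^ n * B ^ n + f / (B ^ n * B ^ n) * (B ^ n * B ^ n) := rfl
  have ep : B ^ (2 * n + 1) = B * (B ^ n * B ^ n) := by
    rw [pow_succ', two_mul, pow_add]
  have hHH : 0 < B ^ n * B ^ n := Nat.mul_pos hH hH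
  have hf1 : f < B ^ (2 * n + 1) := by
    have h6 := h
    rw [es, ep] at h6
    have h5 : f / (B ^ n * B ^ n) * (B ^ n * B ^ n) < B * (B ^ n * B ^ n) :=
      lt_of_le_of_lt (Nat.le_add_left _ _) h6
    rw [ep]
    exact (Nat.div_lt_iff_lt_mul hHH).1 (Nat.lt_of_mul_lt_mul_right h5)
  obtain ⟨a, h1, h2, h3⟩ := hf hf1
  have h4 := pn_small hf1 h1 h2
  have hP : ∑ i ∈ range n, a i * B ^ i < B ^ n := pn_lt B n a fun i hi => h4 i (by omega)
  have hN : ∑ i ∈ range n, a (n + i) * B ^ i < B ^ n :=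
    pn_lt B n (fun i => a (n + i)) fun i hi => h4 (n + i) (by omega)
  rw [pn_pack] at h1
  rw [pn_sg] at h3
  obtain ⟨P, hPd⟩ : ∃ P, P = ∑ i ∈ range n, a i * B ^ i := ⟨_, rfl⟩
  obtain ⟨N, hNd⟩ : ∃ N, N = ∑ i ∈ range n, a (n + i) * B ^ i := ⟨_, rfl⟩
  rw [← hPd] at hP h1
  rw [← hNd] at hN h1
  have e0 : f = P + B ^ n * (N + B ^ n * a (2 * n)) := by rw [h1]; ring
  have e1 : f % B ^ n = P := by
    rw [e0, Nat.add_mul_mod_self_left, Nat.mod_eq_of_lt hP]
  have e2 : f / B ^ n = N + B ^ n * a (2 * n) := by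
    rw [e0, Nat.add_mul_div_left _ _ hH, Nat.div_eq_of_lt hP, zero_add]
  have e3 : f / B ^ n % B ^ n = N := by
    rw [e2, Nat.add_mul_mod_self_left, Nat.mod_eq_of_lt hN]
  have e4 : f / (B ^ n * B ^ n) = a (2 * n) := by
    rw [← Nat.div_div_eq_div_mul, e2, Nat.add_mul_div_left _ _ hH, Nat.div_eq_of_lt hN, zero_add]
  obtain ⟨a', ha'⟩ : ∃ a' : ℕ → ℕ,
      a' = fun i => if i < n then a (n + i) else if i < 2 * n then a (i - n) else a i := ⟨_, rfl⟩
  have p1 : ∀ i ∈ range n, a' i = a (n + i) := by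
    intro i hi
    rw [ha']
    exact if_pos (mem_range.1 hi)
  have p2 : ∀ i ∈ range n, a' (n + i) = a i := by
    intro i hi
    have := mem_range.1 hi
    rw [ha']
    dsimp only
    rw [if_neg (by omega), if_pos (by omega), Nat.add_sub_cancel_left]
  have p3 : a' (2 * n) = a (2 * n) := by
    rw [ha']
    dsimp only
    rw [if_neg (by omega), if_neg (by omega)]
  refine ⟨a', ?_, ?_, ?_⟩
  · rw [es, e1, e3, e4, pn_pack, p3, hPd, hNd]
    congr 2
    · exact sum_congr rfl fun i hi => by rw [p1 i hi]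
    · congr 1
      exact sum_congr rfl fun i hi => by rw [p2 i hi]
  · intro i hi
    rw [Nat.add_sub_cancel] at h2 ⊢
    rw [p3, ha']
    dsimp only
    split_ifs
    · exact h2 _ (by omega)
    · exact h2 _ (by omega)
    · exact h2 _ hi
  · rw [pn_sg, h3, neg_sub]
    congr 1
    · exact sum_congr rfl fun i hi => by rw [p1 i hi]
    · exact sum_congr rfl fun i hi => by rw [p2 i hi]

theorem repN_upos {c : ℕ} (hc : c ≤ n) (k : ℕ) :
    RepN B (2 * n + 1) (sg n d) (upos B n c k) (db d c k) := by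
  unfold upos db
  by_cases hk : k < c
  · have e : Nat.blt k c = true := by rw [Nat.blt_eq]; exact hk
    rw [e, if_pos hk, cond_true]
    have hz : sg n d (2 * n + 1 - 1) = 0 := by
      rw [sg, if_neg (by omega), if_neg (by omega)]
    have h1 := repN_unit (B := B) (K := 2 * n + 1) (z := sg n d) (i := k) (by omega) hz
    have e1 : sg n d k = d k := by rw [sg, if_pos (by omega)]
    rw [e1] at h1
    exact h1
  · have e : Nat.blt k c = false := by
      rw [← Bool.not_eq_true, Nat.blt_eq]; exact hk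
    rw [e, if_neg hk, cond_false]
    exact repN_zero

theorem repN_uneg {c : ℕ} (hc : c ≤ n) (k : ℕ) :
    RepN B (2 * n + 1) (sg n d) (uneg B n c k) (-db d c k) := by
  unfold uneg db
  by_cases hk : k < c
  · have e : Nat.blt k c = true := by rw [Nat.blt_eq]; exact hk
    rw [e, if_pos hk, cond_true]
    have hz : sg n d (2 * n + 1 - 1) = 0 := by
      rw [sg, if_neg (by omega), if_neg (by omega)]
    have h1 := repN_unit (B := B) (K := 2 * n + 1) (z := sg n d) (i := n + k) (by omega) hz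
    have e1 : sg n d (n + k) = -d k := by
      rw [sg, if_neg (by omega), if_pos (by omega), Nat.add_sub_cancel_left]
    rw [e1] at h1
    exact h1
  · have e : Nat.blt k c = false := by
      rw [← Bool.not_eq_true, Nat.blt_eq]; exact hk
    rw [e, if_neg hk, cond_false, neg_zero]
    exact repN_zero

theorem finN_sound {m U f : ℕ} {v : ℝ} (hf : RepN B (2 * (m + 1) + 1) (sg (m + 1) d) f v)
    (h0 : d 0 = 1) (hd : ∀ i, 0 ≤ d i ∧ d i ≤ U) (h : finN B m U f = true) : 0 ≤ v := by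
  unfold finN at h
  rw [Bool.and_eq_true, Nat.blt_eq, Nat.ble_eq] at h
  obtain ⟨h1, h2⟩ := h
  have h1' : f < B ^ (2 * (m + 1) + 1) := h1
  have h2' : f / B ^ (m + 1) % B + U * negp B m (f / B) (f / B ^ (m + 2)) ≤ f % B := h2
  rw [negp_eq] at h2'
  have h3 := repN_dig hf h1'
  rw [pn_sg (m + 1) d (fun i => ((f / B ^ i % B : ℕ) : ℝ)), sum_range_succ', sum_range_succ', h0]
    at h3
  have h4 : ((f / B ^ (m + 1) % B : ℕ) : ℝ) + (U : ℝ) *
      ∑ i ∈ range m, ((f / B ^ (m + 2) / B ^ i % B - f / B / B ^ i % B : ℕ) : ℝ) ≤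
        ((f % B : ℕ) : ℝ) := by exact_mod_cast h2'
  have h5 : ∀ i ∈ range m, ((f / B ^ (m + 1 + (i + 1)) % B : ℕ) : ℝ) * d (i + 1) ≤
      ((f / B ^ (i + 1) % B : ℕ) : ℝ) * d (i + 1) +
        (U : ℝ) * ((f / B ^ (m + 2) / B ^ i % B - f / B / B ^ i % B : ℕ) : ℝ) := by
    intro i _
    have e1 : f / B ^ (m + 2) / B ^ i = f / B ^ (m + 1 + (i + 1)) := by
      rw [Nat.div_div_eq_div_mul, ← pow_add]
      congr 2
      omega
    have e2 : f / B / B ^ i = f / B ^ (i + 1) := by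
      rw [Nat.div_div_eq_div_mul, pow_succ']
    rw [e1, e2]
    obtain ⟨q, hq⟩ : ∃ q, q = f / B ^ (m + 1 + (i + 1)) % B := ⟨_, rfl⟩
    obtain ⟨p, hp⟩ : ∃ p, p = f / B ^ (i + 1) % B := ⟨_, rfl⟩
    rw [← hq, ← hp]
    have h6 : (q : ℝ) ≤ p + ((q - p : ℕ) : ℝ) := by
      have : q ≤ p + (q - p) := by omega
      exact_mod_cast this
    have h7 : (0 : ℝ) ≤ ((q - p : ℕ) : ℝ) := Nat.cast_nonneg _
    have h8 := hd (i + 1)
    nlinarith [mul_le_mul_of_nonneg_right h6 h8.1, mul_le_mul_of_nonneg_right h8.2 h7]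
  have h9 := sum_le_sum h5
  rw [sum_add_distrib, ← mul_sum] at h9
  simp only [pow_zero, Nat.div_one, add_zero, mul_one] at h3
  linarith

end

end Pool.Agent.P.MP_c18ddb_co.Q
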