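import Mathlib

namespace Pool.Agent.P.MP_c18ddb_co.Q

open Finset

variable {ι : Type} [DecidableEq ι]

/-- probability of the outcome `S` when every `f` of `H` is chosen independently with
probability `p f` -/
def pr (H : Finset ι) (p : ι → ℝ) (S : Finset ι) : ℝ :=
  (∏ f ∈ S, p f) * ∏ f ∈ H \ S, (1 - p f)

theorem pr_nonneg (H : Finset ι) (p : ι → ℝ) (hp : ∀ f ∈ H, 0 ≤ p f ∧ p f ≤ 1) (S : Finset ι)
    (hS : S ∈ H.powerset) : 0 ≤ pr H p S := by
  have hS' : S ⊆ H := mem_powerset.1 hS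
  exact mul_nonneg (prod_nonneg fun f hf => (hp f (hS' hf)).1)
    (prod_nonneg fun f hf => sub_nonneg.2 (hp f (mem_sdiff.1 hf).1).2)

theorem Prob_prod_avoid (p : ι → ℝ) (S A : Finset ι) :
    ∏ f ∈ S, (if f ∈ A then 0 else p f) = (∏ f ∈ S, p f) * (if Disjoint S A then 1 else 0) := by
  by_cases h : Disjoint S A
  · rw [if_pos h, mul_one]
    exact prod_congr rfl fun f hf => if_neg (disjoint_left.1 h hf)
  · rw [if_neg h, mul_zero]
    obtain ⟨f, hf, hfA⟩ := not_disjoint_iff.1 h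
    exact prod_eq_zero hf (if_pos hfA)

theorem pr_avoid (H : Finset ι) (p : ι → ℝ) (A : Finset ι) (hA : A ⊆ H) :
    ∑ S ∈ H.powerset, pr H p S * (if Disjoint S A then 1 else 0) = ∏ g ∈ A, (1 - p g) := by
  have h := Finset.prod_add (fun f => if f ∈ A then 0 else p f) (fun f => 1 - p f) H
  have h1 : ∏ f ∈ H, ((if f ∈ A then 0 else p f) + (1 - p f)) = ∏ g ∈ A, (1 - p g) := by
    rw [← Finset.prod_subset hA fun f _ hf => by rw [if_neg hf]; ring]
    exact prod_congr rfl fun f hf => by rw [if_pos hf]; ring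
  rw [← h1, h]
  refine sum_congr rfl fun S _ => ?_
  rw [Prob_prod_avoid, pr]
  ring

theorem pr_sum (H : Finset ι) (p : ι → ℝ) : ∑ S ∈ H.powerset, pr H p S = 1 := by
  have h := pr_avoid H p ∅ (empty_subset H)
  simpa using h

theorem pr_hit_avoid (H : Finset ι) (p : ι → ℝ) (A : Finset ι) (hA : A ⊆ H) (f : ι) (hf : f ∈ H)
    (hfA : f ∉ A) :
    ∑ S ∈ H.powerset, pr H p S * (if f ∈ S ∧ Disjoint S A then 1 else 0) =
      p f * ∏ g ∈ A, (1 - p g) := by
  have h := Finset.prod_add (fun g => if g ∈ A then 0 else p g)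
    (fun g => if g = f then 0 else 1 - p g) H
  have h1 : ∏ g ∈ H, ((if g ∈ A then 0 else p g) + (if g = f then 0 else 1 - p g)) =
      p f * ∏ g ∈ A, (1 - p g) := by
    rw [← Finset.prod_subset (s₁ := insert f A) (insert_subset hf hA) fun g _ hg => by
      rw [mem_insert, not_or] at hg
      rw [if_neg hg.1, if_neg hg.2]; ring]
    rw [prod_insert hfA, if_neg hfA, if_pos rfl, add_zero]
    congr 1
    refine prod_congr rfl fun g hg => ?_
    have : g ≠ f := fun e => hfA (e ▸ hg)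
    rw [if_pos hg, if_neg this, zero_add]
  rw [← h1, h]
  refine sum_congr rfl fun S _ => ?_
  rw [Prob_prod_avoid, pr]
  by_cases hfS : f ∈ S
  · have : ∏ g ∈ H \ S, (if g = f then 0 else 1 - p g) = ∏ g ∈ H \ S, (1 - p g) := by
      refine prod_congr rfl fun g hg => if_neg ?_
      rintro rfl
      exact (mem_sdiff.1 hg).2 hfS
    rw [this]
    simp only [hfS, true_and]
    ring
  · have : ∏ g ∈ H \ S, (if g = f then 0 else 1 - p g) = 0 :=
      prod_eq_zero (mem_sdiff.2 ⟨hf, hfS⟩) (if_pos rfl)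
    rw [this]
    simp [hfS]

theorem pr_exists (H : Finset ι) (p : ι → ℝ) (hp : ∀ f ∈ H, 0 ≤ p f ∧ p f ≤ 1)
    (Z : Finset ι → ℝ) : ∃ S ∈ H.powerset, ∑ T ∈ H.powerset, pr H p T * Z T ≤ Z S := by
  obtain ⟨S, hS, hmax⟩ := exists_max_image H.powerset Z ⟨∅, empty_mem_powerset H⟩
  refine ⟨S, hS, ?_⟩
  calc ∑ T ∈ H.powerset, pr H p T * Z T ≤ ∑ T ∈ H.powerset, pr H p T * Z S :=
        sum_le_sum fun T hT => mul_le_mul_of_nonneg_left (hmax T hT) (pr_nonneg H p hp T hT)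
    _ = Z S := by rw [← sum_mul, pr_sum, one_mul]

theorem prod_mul_le (A : Finset ι) (p : ι → ℝ) (hp : ∀ f ∈ A, 0 ≤ p f ∧ p f ≤ 1) :
    (∏ g ∈ A, (1 - p g)) * (1 + ∑ g ∈ A, p g) ≤ 1 := by
  induction A using Finset.induction_on with
  | empty => simp
  | insert a A ha ih =>
    rw [prod_insert ha, sum_insert ha]
    have ih' := ih fun f hf => hp f (mem_insert_of_mem hf)
    have hP : 0 ≤ ∏ g ∈ A, (1 - p g) :=
      prod_nonneg fun f hf => sub_nonneg.2 (hp f (mem_insert_of_mem hf)).2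
    have hs : 0 ≤ ∑ g ∈ A, p g := sum_nonneg fun f hf => (hp f (mem_insert_of_mem hf)).1
    have h0 := (hp a (mem_insert_self a A)).1
    have h2 : 0 ≤ (∏ g ∈ A, (1 - p g)) * (p a * p a + p a * ∑ g ∈ A, p g) :=
      mul_nonneg hP (add_nonneg (mul_nonneg h0 h0) (mul_nonneg h0 hs))
    nlinarith

theorem le_prod (A : Finset ι) (p : ι → ℝ) (hp : ∀ f ∈ A, 0 ≤ p f ∧ p f ≤ 1) :
    1 - ∑ g ∈ A, p g ≤ ∏ g ∈ A, (1 - p g) := by
  induction A using Finset.induction_on with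
  | empty => simp
  | insert a A ha ih =>
    rw [prod_insert ha, sum_insert ha]
    have ih' := ih fun f hf => hp f (mem_insert_of_mem hf)
    have hs : 0 ≤ ∑ g ∈ A, p g := sum_nonneg fun f hf => (hp f (mem_insert_of_mem hf)).1
    have h0 := hp a (mem_insert_self a A)
    have h2 := mul_le_mul_of_nonneg_left ih' (sub_nonneg.2 h0.2)
    have h3 := mul_nonneg h0.1 hs
    nlinarith

theorem Prob_cov (H : Finset ι) (p : ι → ℝ) (hp : ∀ f ∈ H, 0 ≤ p f ∧ p f ≤ 1)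
    (A B : Finset ι) (hA : A ⊆ H) (hB : B ⊆ H) :
    ∏ g ∈ A ∪ B, (1 - p g) - (∏ g ∈ A, (1 - p g)) * ∏ g ∈ B, (1 - p g) ≤
      min 1 (∑ g ∈ A ∩ B, p g) := by
  rw [← prod_union_inter]
  have hU : ∀ f ∈ A ∪ B, 0 ≤ p f ∧ p f ≤ 1 := fun f hf => hp f (union_subset hA hB hf)
  have hI : ∀ f ∈ A ∩ B, 0 ≤ p f ∧ p f ≤ 1 := fun f hf => hp f (hA (mem_inter.1 hf).1)
  have h0 : 0 ≤ ∏ g ∈ A ∪ B, (1 - p g) := prod_nonneg fun f hf => sub_nonneg.2 (hU f hf).2
  have h1 : ∏ g ∈ A ∪ B, (1 - p g) ≤ 1 :=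
    prod_le_one (fun f hf => sub_nonneg.2 (hU f hf).2) fun f hf => by linarith [(hU f hf).1]
  have h2 : 0 ≤ ∏ g ∈ A ∩ B, (1 - p g) := prod_nonneg fun f hf => sub_nonneg.2 (hI f hf).2
  have h3 : ∏ g ∈ A ∩ B, (1 - p g) ≤ 1 :=
    prod_le_one (fun f hf => sub_nonneg.2 (hI f hf).2) fun f hf => by linarith [(hI f hf).1]
  have h4 := le_prod (A ∩ B) p hI
  have h5 := mul_le_of_le_one_left (sub_nonneg.2 h3) h1
  refine le_min ?_ ?_ <;> nlinarith

/-- expected excess over `1` of a weighted sum of avoidance indicators: `a j` are weights,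
`N j` the sets to avoid, `B` bounds the total covariance. -/
theorem pr_excess {J : Type} (H : Finset ι) (p : ι → ℝ) (hp : ∀ f ∈ H, 0 ≤ p f ∧ p f ≤ 1)
    (I : Finset J) (a : J → ℝ) (ha : ∀ j ∈ I, 0 ≤ a j) (N : J → Finset ι) (hN : ∀ j ∈ I, N j ⊆ H)
    (hmean : ∑ j ∈ I, a j * ∏ g ∈ N j, (1 - p g) ≤ 1) (B θ : ℝ) (hθ : 0 < θ)
    (hB : ∑ i ∈ I, ∑ j ∈ I, a i * a j * min 1 (∑ g ∈ N i ∩ N j, p g) ≤ B) :
    ∑ S ∈ H.powerset, pr H p S *
      max 0 (∑ j ∈ I, a j * (if Disjoint S (N j) then 1 else 0) - 1) ≤ θ + B / (4 * θ) := by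
  set μ := ∑ j ∈ I, a j * ∏ g ∈ N j, (1 - p g) with hμ
  let X : Finset ι → ℝ := fun S => ∑ j ∈ I, a j * (if Disjoint S (N j) then 1 else 0)
  have hX1 : ∑ S ∈ H.powerset, pr H p S * X S = μ := by
    simp only [X, mul_sum]
    rw [sum_comm]
    refine sum_congr rfl fun j hj => ?_
    rw [← pr_avoid H p (N j) (hN j hj), mul_sum]
    exact sum_congr rfl fun S _ => by ring
  have hX2 : ∑ S ∈ H.powerset, pr H p S * (X S * X S) =
      ∑ i ∈ I, ∑ j ∈ I, a i * a j * ∏ g ∈ N i ∪ N j, (1 - p g) := by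
    simp only [X, sum_mul_sum]
    simp only [mul_sum]
    rw [sum_comm]
    refine sum_congr rfl fun i hi => ?_
    rw [sum_comm]
    refine sum_congr rfl fun j hj => ?_
    rw [← pr_avoid H p (N i ∪ N j) (union_subset (hN i hi) (hN j hj)), mul_sum]
    refine sum_congr rfl fun S _ => ?_
    by_cases h1 : Disjoint S (N i) <;> by_cases h2 : Disjoint S (N j) <;>
      simp [h1, h2, disjoint_union_right, mul_comm]
  have hvar : ∑ S ∈ H.powerset, pr H p S * (X S * X S) - μ * μ ≤ B := by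
    refine le_trans ?_ hB
    rw [hX2, hμ, sum_mul_sum, ← sum_sub_distrib]
    refine sum_le_sum fun i hi => ?_
    rw [← sum_sub_distrib]
    refine sum_le_sum fun j hj => ?_
    have h1 := Prob_cov H p hp (N i) (N j) (hN i hi) (hN j hj)
    have h2 := mul_le_mul_of_nonneg_left h1 (mul_nonneg (ha i hi) (ha j hj))
    linarith
  have hpt : ∀ S, max 0 (X S - 1) ≤ θ + (X S * X S - 2 * μ * X S + μ * μ) / (4 * θ) := by
    intro S
    have h4 : 0 < 4 * θ := by linarith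
    have e : X S * X S - 2 * μ * X S + μ * μ = (X S - μ) ^ 2 := by ring
    rw [e]
    refine max_le (by positivity) ?_
    have : X S - μ - θ ≤ (X S - μ) ^ 2 / (4 * θ) := by
      rw [le_div_iff₀ h4]
      nlinarith [sq_nonneg (X S - μ - 2 * θ)]
    linarith
  calc ∑ S ∈ H.powerset, pr H p S * max 0 (X S - 1)
      ≤ ∑ S ∈ H.powerset, pr H p S * (θ + (X S * X S - 2 * μ * X S + μ * μ) / (4 * θ)) :=
        sum_le_sum fun S hS => mul_le_mul_of_nonneg_left (hpt S) (pr_nonneg H p hp S hS)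
    _ = θ * ∑ S ∈ H.powerset, pr H p S + (∑ S ∈ H.powerset, pr H p S * (X S * X S)
          - 2 * μ * ∑ S ∈ H.powerset, pr H p S * X S
          + μ * μ * ∑ S ∈ H.powerset, pr H p S) / (4 * θ) := by
        rw [mul_sum H.powerset, mul_sum H.powerset, mul_sum H.powerset, ← sum_sub_distrib,
          ← sum_add_distrib, sum_div, ← sum_add_distrib]
        exact sum_congr rfl fun S _ => by ring
    _ ≤ θ + B / (4 * θ) := by
        rw [pr_sum, hX1, mul_one, mul_one]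
        have h4 : 0 ≤ 4 * θ := by linarith
        have : ∑ S ∈ H.powerset, pr H p S * (X S * X S) - 2 * μ * μ + μ * μ ≤ B := by linarith
        linarith [div_le_div_of_nonneg_right this h4]

/-- truncation of a weighting to a fractional matching -/
theorem trunc {Ω : Type} [DecidableEq Ω] (U : Finset Ω) (H : Finset ι) (E : ι → Finset Ω)
    (hE : ∀ f ∈ H, E f ⊆ U) (w ψ : ι → ℝ) (hw : ∀ f ∈ H, 0 ≤ w f ∧ w f ≤ 1) (hψ : ∀ f, 0 ≤ ψ f)
    (d : Ω → ℝ) (hd : ∀ u ∈ U, ∑ f ∈ H.filter (fun f => u ∈ E f), ψ f ≤ d u) :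
    ∃ φ : ι → ℝ, (∀ f, 0 ≤ φ f) ∧ (∀ f, φ f ≤ ψ f) ∧
      (∀ u ∈ U, ∑ f ∈ H.filter (fun f => u ∈ E f), φ f ≤ 1) ∧
      ∑ f ∈ H, w f * ψ f - ∑ u ∈ U, max 0 (d u - 1) ≤ ∑ f ∈ H, w f * φ f := by
  let q : Ω → ℝ := fun u => 1 - (max 1 (d u))⁻¹
  have hm : ∀ u, 1 ≤ max 1 (d u) := fun u => le_max_left _ _
  have hi0 : ∀ u, 0 ≤ (max 1 (d u))⁻¹ := fun u => inv_nonneg.2 (zero_le_one.trans (hm u))
  have hi1 : ∀ u, (max 1 (d u))⁻¹ ≤ 1 := fun u => inv_le_one_of_one_le₀ (hm u)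
  have hq : ∀ u, 0 ≤ q u ∧ q u ≤ 1 := fun u =>
    ⟨sub_nonneg.2 (hi1 u), by simp only [q]; linarith [hi0 u]⟩
  have hP0 : ∀ f, 0 ≤ ∏ u ∈ E f, (1 - q u) := fun f =>
    prod_nonneg fun u _ => sub_nonneg.2 (hq u).2
  have hP1 : ∀ A : Finset Ω, ∏ u ∈ A, (1 - q u) ≤ 1 := fun A =>
    prod_le_one (fun u _ => sub_nonneg.2 (hq u).2) fun u _ => by linarith [(hq u).1]
  refine ⟨fun f => ψ f * ∏ u ∈ E f, (1 - q u), fun f => mul_nonneg (hψ f) (hP0 f),
    fun f => mul_le_of_le_one_right (hψ f) (hP1 _), fun u hu => ?_, ?_⟩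
  · calc ∑ f ∈ H.filter (fun f => u ∈ E f), ψ f * ∏ v ∈ E f, (1 - q v)
        ≤ ∑ f ∈ H.filter (fun f => u ∈ E f), ψ f * (max 1 (d u))⁻¹ := by
          refine sum_le_sum fun f hf => mul_le_mul_of_nonneg_left ?_ (hψ f)
          rw [← mul_prod_erase _ _ (mem_filter.1 hf).2]
          have e : 1 - q u = (max 1 (d u))⁻¹ := by simp only [q]; ring
          rw [e]
          exact mul_le_of_le_one_right (hi0 u) (hP1 _)
      _ ≤ max 1 (d u) * (max 1 (d u))⁻¹ := by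
          rw [← sum_mul]
          exact mul_le_mul_of_nonneg_right ((hd u hu).trans (le_max_right _ _)) (hi0 u)
      _ = 1 := mul_inv_cancel₀ (by linarith [hm u])
  · have h1 : ∑ f ∈ H, w f * ψ f - ∑ f ∈ H, w f * (ψ f * ∏ u ∈ E f, (1 - q u))
        ≤ ∑ f ∈ H, ∑ u ∈ U, (if u ∈ E f then q u * ψ f else 0) := by
      rw [← sum_sub_distrib]
      refine sum_le_sum fun f hf => ?_
      rw [← sum_filter, filter_mem_eq_inter, inter_eq_right.2 (hE f hf), ← sum_mul]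
      have h2 := le_prod (E f) q fun u _ => hq u
      have h3 : 0 ≤ ψ f * (1 - ∏ u ∈ E f, (1 - q u)) :=
        mul_nonneg (hψ f) (sub_nonneg.2 (hP1 _))
      have h4 := mul_le_of_le_one_left h3 (hw f hf).2
      have h5 := mul_le_mul_of_nonneg_left h2 (hψ f)
      linarith
    have h2 : ∑ f ∈ H, ∑ u ∈ U, (if u ∈ E f then q u * ψ f else 0)
        ≤ ∑ u ∈ U, max 0 (d u - 1) := by
      rw [sum_comm]
      refine sum_le_sum fun u hu => ?_
      rw [← sum_filter, ← mul_sum]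
      refine (mul_le_mul_of_nonneg_left (hd u hu) (hq u).1).trans ?_
      rcases le_total (d u) 1 with h | h
      · simp only [q, max_eq_left h]
        simp
      · simp only [q, max_eq_right h]
        have : (1 - (d u)⁻¹) * d u = d u - 1 := by
          have : d u ≠ 0 := by linarith
          field_simp
        rw [this]
        exact le_max_right _ _
    linarith

end Pool.Agent.P.MP_c18ddb_co.Q
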