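import Pool.Agent.P.MP_c18ddb_co.Q.Rows

/-! Structures rooted at a lightest pentagon. -/

namespace Pool.Agent.P.MP_c18ddb_co.Q

open Finset

structure Rt (V : Type) [Fintype V] where
  S : WS V (3 / 7)
  r0 : V
  r1 : V
  r2 : V
  r3 : V
  r4 : V
  hp : Pent S r0 r1 r2 r3 r4
  hmin : ∀ a b d e f, Pent S a b d e f → tot S r0 r1 r2 r3 r4 ≤ tot S a b d e f

/-- red neighbourhoods of the twins: type `2 i + s` is a twin of root `i` with colour `s` to it -/
def patT : List ℕ := [18, 19, 5, 7, 10, 14, 20, 28, 9, 25]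

/-- exchange of the two sampled points on coordinates -/
def sw (k : ℕ) : ℕ :=
  [0, 1, 2, 3, 4, 5, 6, 7, 8, 9, 10, 16, 17, 18, 19, 20, 11, 12, 13, 14, 15, 21].getD k k

def zf (z : List ℤ) : List (ℤ × ℕ) :=
  ((List.range 11).map fun k => (z.getD k 0, k)).filter fun p => p.1 != 0

def actM (b : List ℤ) : List ℤ := [1, 0, 7, 6, 3, 2, 9, 8, 5, 4, 10].map fun k => b.getD k 0
def actZ (z : List ℤ) : List ℤ := [0, 4, 1, 5, 7, 10, 8, 2, 6, 3, 9].map fun k => z.getD k 0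

def cl (act : List ℤ → List ℤ) : List (List ℤ) → List (List ℤ)
  | [] => []
  | b :: l => b :: act b :: act (act b) :: act (act (act b)) :: cl act l

/-- colour between a root and a point of type `F` -/
def tb (F i : ℕ) : ℕ := if F < 10 then patT.getD F 0 / 2 ^ i % 2 else 2

def colLt (F G c i j : ℕ) : ℕ :=
  if j < 5 then (if i + 1 = j ∨ i + 4 = j then 1 else 0)
  else if j = 5 then tb F i
  else if j = 6 then (if i = 5 then (if G < 11 then c else 2) else tb G i) else 2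

/-- colours of the seven points; `G = 11` means that the last point is not known -/
def col2 (F G c i j : ℕ) : ℕ :=
  if i < j then colLt F G c i j else if j < i then colLt F G c j i else 2

def px2 : List (ℤ × ℕ) :=
  [(-1, 1), (-1, 2), (-1, 3), (-1, 4), (-1, 5), (-1, 6), (-1, 7), (-1, 8), (-1, 9), (-1, 10)]

/-- a point that is not a twin closes two edge disjoint triangles; `o = 11` or `o = 16` -/
def wrow (o : ℕ) : List (ℤ × ℕ) :=
  [(-4, 0), (1, 1), (1, 2), (1, 3), (1, 4), (1, 5), (1, 6), (1, 7), (1, 8), (1, 9), (1, 10),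
    (1, o), (1, o + 1), (1, o + 2), (1, o + 3), (1, o + 4)]

def ex2 (F G : ℕ) (Zs : List (List (ℤ × ℕ))) : List (List (ℤ × ℕ)) :=
  (if F = 10 then wrow 11 else []) :: (if G = 10 then wrow 16 else []) :: Zs

def row2 (F G c : ℕ) (Zs : List (List (ℤ × ℕ))) (code : ℕ) : List (ℤ × ℕ) :=
  rowF (col2 F G c) 1 px2 (ex2 F G Zs) code

section
variable {V : Type} [Fintype V]

def Rt.ty (R : Rt V) (y : V) : ℕ :=
  patT.idxOf (nb [R.S.c R.r0 y, R.S.c R.r1 y, R.S.c R.r2 y, R.S.c R.r3 y, R.S.c R.r4 y])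

def Rt.cn (R : Rt V) (y y' : V) : ℕ := bif R.S.c y y' then 1 else 0

noncomputable def Rt.dd (R : Rt V) (y y' : V) (k : ℕ) : ℝ :=
  [1, R.S.D R.r0 R.r1, R.S.D R.r0 R.r2, R.S.D R.r1 R.r2, R.S.D R.r0 R.r3, R.S.D R.r1 R.r3,
    R.S.D R.r2 R.r3, R.S.D R.r0 R.r4, R.S.D R.r1 R.r4, R.S.D R.r2 R.r4, R.S.D R.r3 R.r4,
    R.S.D R.r0 y, R.S.D R.r1 y, R.S.D R.r2 y, R.S.D R.r3 y, R.S.D R.r4 y,
    R.S.D R.r0 y', R.S.D R.r1 y', R.S.D R.r2 y', R.S.D R.r3 y', R.S.D R.r4 y',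
    R.S.D y y'].getD k 0

noncomputable def Rt.eta (R : Rt V) : ℝ := tot R.S R.r0 R.r1 R.r2 R.r3 R.r4

noncomputable def valM (R : Rt V) (b : List ℤ) : ℝ := ∑ y, R.S.x y * (b.getD (R.ty y) 0 : ℤ)
noncomputable def valZ (R : Rt V) (z : List ℤ) : ℝ := sev (R.dd R.r0 R.r0) (zf z)

def GM (R : Rt V) (b : List ℤ) : Prop := ∀ a ∈ cl actM [b], 0 ≤ valM R a
def GZ (R : Rt V) (z : List ℤ) : Prop := ∀ a ∈ cl actZ [z], 0 ≤ valZ R a

def AllP (P : List ℤ → Prop) : List (List ℤ) → Prop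
  | [] => True
  | b :: l => P b ∧ AllP P l

theorem root_getD {P : ℝ → Prop} (h0 : P 0) (l : List ℝ) (h : ∀ a ∈ l, P a) (k : ℕ) :
    P (l.getD k 0) := by
  by_cases hk : k < l.length
  · rw [List.getD_eq_getElem _ _ hk]
    exact h _ (List.getElem_mem hk)
  · rw [List.getD_eq_default _ _ (not_lt.1 hk)]
    exact h0

theorem root_zf_lt {z : List ℤ} {p : ℤ × ℕ} (hp : p ∈ zf z) : p.2 < 11 := by
  obtain ⟨k, hk, rfl⟩ := List.mem_map.1 (List.mem_filter.1 hp).1
  exact List.mem_range.1 hk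

theorem ty_le (R : Rt V) (y : V) : R.ty y ≤ 10 := by
  exact List.idxOf_le_length

theorem dd_zero (R : Rt V) (y y' : V) : R.dd y y' 0 = 1 := by
  rfl

theorem dd_bound (R : Rt V) (y y' : V) (k : ℕ) : 0 ≤ R.dd y y' k ∧ R.dd y y' k ≤ 3 := by
  refine root_getD (P := fun a => 0 ≤ a ∧ a ≤ 3) ⟨le_rfl, by norm_num⟩ _ ?_ k
  have h : ∀ u v, 0 ≤ R.S.D u v ∧ R.S.D u v ≤ 3 := fun u v => ⟨R.S.D_nonneg u v, R.S.D_le u v⟩
  simp only [List.forall_mem_cons, h, and_self, and_true, List.not_mem_nil, IsEmpty.forall_iff,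
    implies_true]
  norm_num

theorem dd_sw (R : Rt V) (y y' : V) (k : ℕ) : R.dd y' y k = R.dd y y' (sw k) := by
  by_cases hk : k < 22
  · interval_cases k
    all_goals first | rfl | exact R.S.D_symm _ _
  · have h1 : sw k = k := List.getD_eq_default _ _ (by simpa using hk)
    rw [h1]
    exact (List.getD_eq_default _ _ (by simpa using hk)).trans
      (List.getD_eq_default _ _ (by simpa using hk)).symm

theorem dd_ge (R : Rt V) (y y' : V) (k : ℕ) (hk : 22 ≤ k) : R.dd y y' k = 0 := by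
  exact List.getD_eq_default _ _ (by simpa using hk)

theorem sw_lt (k : ℕ) (hk : k < 22) : sw k < 22 := by
  interval_cases k <;> decide

theorem db_indep (R : Rt V) (y y' : V) : db (R.dd y y') 16 = db (R.dd y y) 16 := by
  funext k
  unfold db
  split_ifs with hk
  · interval_cases k <;> rfl
  · rfl

theorem sev_zf (R : Rt V) (y y' : V) (z : List ℤ) : sev (R.dd y y') (zf z) = valZ R z := by
  refine sev_congr _ fun p hp => ?_
  have hk := root_zf_lt hp
  generalize p.2 = k at hk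
  interval_cases k <;> rfl

theorem sev_zf_db (R : Rt V) (y y' : V) (z : List ℤ) :
    sev (db (R.dd y y') 16) (zf z) = valZ R z := by
  rw [← sev_zf R y y' z]
  refine sev_congr _ fun p hp => ?_
  have hk := root_zf_lt hp
  exact if_pos (by omega)

/-- the seven points -/
def Rt.pt (R : Rt V) (y y' : V) : ℕ → V
  | 0 => R.r0
  | 1 => R.r1
  | 2 => R.r2
  | 3 => R.r3
  | 4 => R.r4
  | 5 => y
  | _ => y'

theorem root_tb_lt {F i : ℕ} (h : tb F i ≤ 1) : F < 10 := by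
  by_contra hF
  rw [tb, if_neg hF] at h
  omega

theorem root_tb_abs : ∀ b0 b1 b2 b3 b4 : Bool, patT.idxOf (nb [b0, b1, b2, b3, b4]) < 10 →
    b0 = Nat.beq (tb (patT.idxOf (nb [b0, b1, b2, b3, b4])) 0) 1 ∧
    b1 = Nat.beq (tb (patT.idxOf (nb [b0, b1, b2, b3, b4])) 1) 1 ∧
    b2 = Nat.beq (tb (patT.idxOf (nb [b0, b1, b2, b3, b4])) 2) 1 ∧
    b3 = Nat.beq (tb (patT.idxOf (nb [b0, b1, b2, b3, b4])) 3) 1 ∧
    b4 = Nat.beq (tb (patT.idxOf (nb [b0, b1, b2, b3, b4])) 4) 1 := by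
  decide

theorem root_tb (R : Rt V) (y u u' : V) (h : R.ty y < 10) (i : ℕ) (hi : i < 5) :
    R.S.c (R.pt u u' i) y = Nat.beq (tb (R.ty y) i) 1 := by
  obtain ⟨h0, h1, h2, h3, h4⟩ := root_tb_abs _ _ _ _ _ h
  interval_cases i
  exacts [h0, h1, h2, h3, h4]

theorem root_colLt (R : Rt V) (y y' : V) (G c : ℕ) (d : ℕ → ℝ)
    (hd : ∀ k < 16, d k = R.dd y y' k)
    (hG : G < 11 → G = R.ty y' ∧ c = R.cn y y' ∧ ∀ k, d k = R.dd y y' k)
    (i j : ℕ) (hij : i < j) (h : colLt (R.ty y) G c i j ≤ 1) :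
    R.S.c (R.pt y y' i) (R.pt y y' j) = Nat.beq (colLt (R.ty y) G c i j) 1 ∧
      d (slot i j) = R.S.D (R.pt y y' i) (R.pt y y' j) := by
  obtain ⟨c01, c02, c12, c03, c13, c23, c04, c14, c24, c34⟩ := R.hp
  by_cases h5 : j < 5
  · constructor
    · interval_cases j <;> interval_cases i <;> assumption
    · interval_cases j <;> interval_cases i <;> exact hd _ (by decide)
  by_cases h5' : j = 5
  · subst h5'
    have e : colLt (R.ty y) G c i 5 = tb (R.ty y) i := rfl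
    rw [e] at h ⊢
    refine ⟨root_tb R y y y' (root_tb_lt h) i hij, ?_⟩
    interval_cases i <;> exact hd _ (by decide)
  by_cases h6 : j = 6
  · subst h6
    by_cases hi : i = 5
    · subst hi
      have e : colLt (R.ty y) G c 5 6 = if G < 11 then c else 2 := rfl
      rw [e] at h ⊢
      have hG' : G < 11 := by
        by_contra hG'
        rw [if_neg hG'] at h
        omega
      obtain ⟨-, hc, hd'⟩ := hG hG'
      rw [if_pos hG', hc]
      refine ⟨?_, hd' _⟩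
      show R.S.c y y' = Nat.beq (bif R.S.c y y' then 1 else 0) 1
      cases R.S.c y y' <;> rfl
    · have e : colLt (R.ty y) G c i 6 = tb G i := if_neg hi
      rw [e] at h ⊢
      have hG' := root_tb_lt h
      obtain ⟨hg, -, hd'⟩ := hG (by omega)
      have hi5 : i < 5 := by omega
      subst hg
      refine ⟨root_tb R y' y y' hG' i hi5, ?_⟩
      interval_cases i <;> exact hd' _
  · rw [colLt, if_neg h5, if_neg h5', if_neg h6] at h
    omega

theorem root_col2 (R : Rt V) (y y' : V) (G c : ℕ) (d : ℕ → ℝ)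
    (hd : ∀ k < 16, d k = R.dd y y' k)
    (hG : G < 11 → G = R.ty y' ∧ c = R.cn y y' ∧ ∀ k, d k = R.dd y y' k)
    (i j : ℕ) (h : col2 (R.ty y) G c i j ≤ 1) :
    R.S.c (R.pt y y' i) (R.pt y y' j) = Nat.beq (col2 (R.ty y) G c i j) 1 ∧
      d (slot i j) = R.S.D (R.pt y y' i) (R.pt y y' j) := by
  by_cases hij : i < j
  · rw [col2, if_pos hij] at h ⊢
    exact root_colLt R y y' G c d hd hG i j hij h
  by_cases hji : j < i
  · rw [col2, if_neg hij, if_pos hji] at h ⊢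
    have e : slot i j = slot j i := by rw [slot, slot, if_neg hij, if_pos hji]
    rw [e, R.S.c_symm, R.S.D_symm]
    exact root_colLt R y y' G c d hd hG j i hji h
  · rw [col2, if_neg hij, if_neg hji] at h
    omega

theorem root_w_abs (b0 b1 b2 b3 b4 : Bool) (h : patT.idxOf (nb [b0, b1, b2, b3, b4]) = 10)
    (d01 d02 d12 d03 d13 d23 d04 d14 d24 d34 e0 e1 e2 e3 e4 : ℝ)
    (n01 : 0 ≤ d01) (n02 : 0 ≤ d02) (n12 : 0 ≤ d12) (n03 : 0 ≤ d03) (n13 : 0 ≤ d13)
    (n23 : 0 ≤ d23) (n04 : 0 ≤ d04) (n14 : 0 ≤ d14) (n24 : 0 ≤ d24) (n34 : 0 ≤ d34)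
    (n0 : 0 ≤ e0) (n1 : 0 ≤ e1) (n2 : 0 ≤ e2) (n3 : 0 ≤ e3) (n4 : 0 ≤ e4)
    (t01 : b0 = true → b1 = true → 2 ≤ d01 + e0 + e1)
    (t02 : b0 = false → b2 = false → 2 ≤ d02 + e0 + e2)
    (t12 : b1 = true → b2 = true → 2 ≤ d12 + e1 + e2)
    (t03 : b0 = false → b3 = false → 2 ≤ d03 + e0 + e3)
    (t13 : b1 = false → b3 = false → 2 ≤ d13 + e1 + e3)
    (t23 : b2 = true → b3 = true → 2 ≤ d23 + e2 + e3)
    (t04 : b0 = true → b4 = true → 2 ≤ d04 + e0 + e4)
    (t14 : b1 = false → b4 = false → 2 ≤ d14 + e1 + e4)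
    (t24 : b2 = false → b4 = false → 2 ≤ d24 + e2 + e4)
    (t34 : b3 = true → b4 = true → 2 ≤ d34 + e3 + e4) :
    4 ≤ d01 + d02 + d12 + d03 + d13 + d23 + d04 + d14 + d24 + d34 + (e0 + e1 + e2 + e3 + e4) := by
  cases b0 <;> cases b1 <;> cases b2 <;> cases b3 <;> cases b4
  all_goals
    first
    | exact absurd h (by decide)
    | (simp only [forall_true_left, Bool.false_eq_true, Bool.true_eq_false, IsEmpty.forall_iff]
        at t01 t02 t12 t03 t13 t23 t04 t14 t24 t34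
       linarith)

theorem root_w (R : Rt V) (y : V) (h : R.ty y = 10) :
    4 ≤ R.eta + (R.S.D R.r0 y + R.S.D R.r1 y + R.S.D R.r2 y + R.S.D R.r3 y + R.S.D R.r4 y) := by
  obtain ⟨c01, c02, c12, c03, c13, c23, c04, c14, c24, c34⟩ := R.hp
  have n := R.S.D_nonneg
  exact root_w_abs _ _ _ _ _ h _ _ _ _ _ _ _ _ _ _ _ _ _ _ _ (n _ _) (n _ _) (n _ _) (n _ _)
    (n _ _) (n _ _) (n _ _) (n _ _) (n _ _) (n _ _) (n _ _) (n _ _) (n _ _) (n _ _) (n _ _)
    (R.S.k3 _ _ _ _ c01) (R.S.k3 _ _ _ _ c02) (R.S.k3 _ _ _ _ c12) (R.S.k3 _ _ _ _ c03)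
    (R.S.k3 _ _ _ _ c13) (R.S.k3 _ _ _ _ c23) (R.S.k3 _ _ _ _ c04) (R.S.k3 _ _ _ _ c14)
    (R.S.k3 _ _ _ _ c24) (R.S.k3 _ _ _ _ c34)

theorem root_row (R : Rt V) (y y' : V) (G c : ℕ) (d : ℕ → ℝ) (hb : ∀ k, 0 ≤ d k ∧ d k ≤ 3)
    (hd : ∀ k < 16, d k = R.dd y y' k)
    (hG : G < 11 → G = R.ty y' ∧ c = R.cn y y' ∧ ∀ k, d k = R.dd y y' k)
    (Zs : List (List (ℤ × ℕ))) (hZ : ∀ l ∈ Zs, 0 ≤ sev d l) (code : ℕ) :
    0 ≤ sev d (row2 (R.ty y) G c Zs code) := by
  have h0 : d 0 = 1 := hd 0 (by decide)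
  have he : d 1 + d 2 + d 3 + d 4 + d 5 + d 6 + d 7 + d 8 + d 9 + d 10 = R.eta := by
    rw [hd 1 (by decide), hd 2 (by decide), hd 3 (by decide), hd 4 (by decide), hd 5 (by decide),
      hd 6 (by decide), hd 7 (by decide), hd 8 (by decide), hd 9 (by decide), hd 10 (by decide)]
    rfl
  have hw : ∀ o, sev d (wrow o) =
      R.eta + (d o + d (o + 1) + d (o + 2) + d (o + 3) + d (o + 4)) - 4 := by
    intro o
    simp only [wrow, sev, h0, ← he]
    push_cast
    ring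
  refine row_nonneg R.S (R.pt y y') d _ 1 px2 _ h0 hb (root_col2 R y y' G c d hd hG) ?_ ?_ code
  · intro a b c e f hp
    have h1 := R.hmin a b c e f hp
    have h2 : sev d px2 = -R.eta := by
      simp only [px2, sev, ← he]
      push_cast
      ring
    rw [h2]
    unfold Rt.eta
    push_cast
    linarith
  · intro l hl
    rcases List.mem_cons.1 hl with rfl | hl
    · split_ifs with hF
      · have := root_w R y hF
        rw [hw, hd 11 (by decide), hd (11 + 1) (by decide), hd (11 + 2) (by decide),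
          hd (11 + 3) (by decide), hd (11 + 4) (by decide)]
        exact sub_nonneg.2 this
      · exact le_rfl
    rcases List.mem_cons.1 hl with rfl | hl
    · split_ifs with hF
      · obtain ⟨hg, -, hd'⟩ := hG (by omega)
        have := root_w R y' (hg ▸ hF)
        rw [hw, hd' 16, hd' (16 + 1), hd' (16 + 2), hd' (16 + 3), hd' (16 + 4)]
        exact sub_nonneg.2 this
      · exact le_rfl
    · exact hZ l hl

/-- forms in both sampled points -/
theorem row2_nonneg (R : Rt V) (y y' : V) (Zs : List (List (ℤ × ℕ)))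
    (hZ : ∀ l ∈ Zs, 0 ≤ sev (R.dd y y') l) (code : ℕ) :
    0 ≤ sev (R.dd y y') (row2 (R.ty y) (R.ty y') (R.cn y y') Zs code) := by
  refine root_row R y y' _ _ _ (dd_bound R y y') (fun _ _ => rfl) (fun _ => ⟨rfl, rfl, fun _ => rfl⟩)
    Zs hZ code

/-- forms in the first sampled point -/
theorem row1_nonneg (R : Rt V) (y y' : V) (Zs : List (List (ℤ × ℕ)))
    (hZ : ∀ l ∈ Zs, 0 ≤ sev (db (R.dd y y') 16) l) (code : ℕ) :
    0 ≤ sev (db (R.dd y y') 16) (row2 (R.ty y) 11 0 Zs code) := by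
  refine root_row R y y' _ _ _ (fun k => ?_) (fun k hk => if_pos hk)
    (fun h => absurd h (lt_irrefl _)) Zs hZ code
  split_ifs
  · exact dd_bound R y y' k
  · norm_num

/-- regularity: `v < 6` -/
theorem reg_zero (R : Rt V) (y : V) (v : ℕ) (hv : v < 6) :
    ∑ y', R.S.x y' * (7 * R.dd y y' (16 + v) - 3) = 0 := by
  have h : ∀ y', R.dd y y' (16 + v) = R.S.D (R.pt y y v) y' := by
    intro y'
    interval_cases v <;> rfl
  have e : ∀ y', R.S.x y' * (7 * R.dd y y' (16 + v) - 3) =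
      7 * (R.S.x y' * R.S.D (R.pt y y v) y') - 3 * R.S.x y' := by
    intro y'
    rw [h]; ring
  simp only [e]
  rw [Finset.sum_sub_distrib, ← Finset.mul_sum, ← Finset.mul_sum, R.S.reg, R.S.x_sum]
  norm_num

end

/-- a derived inequality -/
def Imp (Lm Lz : List (List ℤ)) (tm tz : List ℤ) : Prop :=
  ∀ (V : Type) [Fintype V] (R : Rt V), (∀ b ∈ cl actM Lm, 0 ≤ valM R b) →
    (∀ z ∈ cl actZ Lz, 0 ≤ valZ R z) → 0 ≤ valM R tm + valZ R tz

end Pool.Agent.P.MP_c18ddb_co.Q
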