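import Pool.Agent.P.MP_c18ddb_co.Q.Defs
import Pool.Agent.P.MP_c18ddb_co.Q.Pk

/-! Valid linear forms in the deficiencies of a few sampled points. -/

namespace Pool.Agent.P.MP_c18ddb_co.Q

open Finset

/-- position of the pair `i, j` among the coordinates (coordinate `0` is the constant) -/
def slot (i j : ℕ) : ℕ := if i < j then 1 + j * (j - 1) / 2 + i else 1 + i * (i - 1) / 2 + j

/-- number with the given binary digits -/
def nb : List Bool → ℕ
  | [] => 0
  | b :: l => (bif b then 1 else 0) + 2 * nb l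

section
variable {V : Type} [Fintype V] {lam : ℝ}

/-- `a b d e f` is a red five-cycle with blue diagonals -/
def Pent (S : WS V lam) (a b d e f : V) : Prop :=
  S.c a b = true ∧ S.c a d = false ∧ S.c b d = true ∧ S.c a e = false ∧ S.c b e = false ∧
    S.c d e = true ∧ S.c a f = true ∧ S.c b f = false ∧ S.c d f = false ∧ S.c e f = true

def tot (S : WS V lam) (a b d e f : V) : ℝ :=
  S.D a b + S.D a d + S.D b d + S.D a e + S.D b e + S.D d e + S.D a f + S.D b f + S.D d f + S.D e f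

end

def e3 (m : ℤ) (a b d : ℕ) : List (ℤ × ℕ) := [(m, slot a b), (m, slot a d), (m, slot b d)]
def e4 (m : ℤ) (a b d e : ℕ) : List (ℤ × ℕ) :=
  (m, slot a e) :: (m, slot b e) :: (m, slot d e) :: e3 m a b d
def e5 (m : ℤ) (a b d e f : ℕ) : List (ℤ × ℕ) :=
  (m, slot a f) :: (m, slot b f) :: (m, slot d f) :: (m, slot e f) :: e4 m a b d e

def m3 (col : ℕ → ℕ → ℕ) (a b d : ℕ) : Bool :=
  Nat.ble (col a b) 1 && Nat.beq (col a d) (col a b) && Nat.beq (col b d) (col a b)
def m4 (col : ℕ → ℕ → ℕ) (a b d e : ℕ) : Bool :=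
  m3 col a b d && Nat.beq (col a e) (col a b) && Nat.beq (col b e) (col a b) &&
    Nat.beq (col d e) (col a b)
def m5 (col : ℕ → ℕ → ℕ) (a b d e f : ℕ) : Bool :=
  m4 col a b d e && Nat.beq (col a f) (col a b) && Nat.beq (col b f) (col a b) &&
    Nat.beq (col d f) (col a b) && Nat.beq (col e f) (col a b)
def p5 (col : ℕ → ℕ → ℕ) (a b d e f : ℕ) : Bool :=
  Nat.beq (col a b) 1 && Nat.beq (col a d) 0 && Nat.beq (col b d) 1 && Nat.beq (col a e) 0 &&
    Nat.beq (col b e) 0 && Nat.beq (col d e) 1 && Nat.beq (col a f) 1 && Nat.beq (col b f) 0 &&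
    Nat.beq (col d f) 0 && Nat.beq (col e f) 1

def rowK (col : ℕ → ℕ → ℕ) (m : ℤ) (px : List (ℤ × ℕ)) (ex : List (List (ℤ × ℕ)))
    (x a b d e f : ℕ) : ℕ → List (ℤ × ℕ)
  | 0 => [(1, 0)]
  | 1 => [(1, x)]
  | 2 => [(3, 0), (-1, x)]
  | 3 => bif m3 col a b d then (-2, 0) :: e3 1 a b d else []
  | 4 => bif m4 col a b d e then (-5, 0) :: e4 1 a b d e else []
  | 5 => bif p5 col a b d e f then px ++ e5 m a b d e f else []
  | 6 => bif m5 col a b d e f then (-9, 0) :: e5 1 a b d e f else []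
  | _ => ex.getD x []

/-- the form with number `code`; colours are `0` (blue), `1` (red), `2` (not known) -/
def rowF (col : ℕ → ℕ → ℕ) (m : ℤ) (px : List (ℤ × ℕ)) (ex : List (List (ℤ × ℕ))) (code : ℕ) :
    List (ℤ × ℕ) :=
  rowK col m px ex (code / 8) (code / 8 % 8) (code / 64 % 8) (code / 512 % 8) (code / 4096 % 8)
    (code / 32768 % 8) (code % 8)

theorem row_nonneg {V : Type} [Fintype V] {lam : ℝ} (S : WS V lam) (p : ℕ → V) (d : ℕ → ℝ)
    (col : ℕ → ℕ → ℕ) (m : ℤ) (px : List (ℤ × ℕ)) (ex : List (List (ℤ × ℕ)))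
    (h0 : d 0 = 1) (hd : ∀ k, 0 ≤ d k ∧ d k ≤ 3)
    (hcol : ∀ i j, col i j ≤ 1 →
      S.c (p i) (p j) = Nat.beq (col i j) 1 ∧ d (slot i j) = S.D (p i) (p j))
    (hp : ∀ a b c e f, Pent S a b c e f → 0 ≤ sev d px + m * tot S a b c e f)
    (hex : ∀ l ∈ ex, 0 ≤ sev d l) (code : ℕ) : 0 ≤ sev d (rowF col m px ex code) := by
  unfold rowF
  generalize code / 8 % 8 = a
  generalize code / 64 % 8 = b
  generalize code / 512 % 8 = c
  generalize code / 4096 % 8 = e
  generalize code / 32768 % 8 = f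
  generalize code / 8 = x
  generalize code % 8 = k
  have eq : ∀ i j u, u ≤ 1 → col i j = u →
      S.c (p i) (p j) = Nat.beq u 1 ∧ d (slot i j) = S.D (p i) (p j) := by
    rintro i j u hu rfl
    exact hcol i j hu
  match k with
  | 0 => simp [rowK, sev, h0]
  | 1 => simpa [rowK, sev] using (hd x).1
  | 2 =>
    simp only [rowK, sev, h0]
    push_cast
    linarith [(hd x).2]
  | 3 =>
    simp only [rowK]
    cases h : m3 col a b c
    · simp [sev]
    · simp only [m3, Bool.and_eq_true, Nat.ble_eq, Nat.beq_eq] at h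
      obtain ⟨⟨hu, h2⟩, h3⟩ := h
      have k1 := eq a b _ hu rfl
      have k2 := eq a c _ hu h2
      have k3 := eq b c _ hu h3
      have := S.k3 _ _ _ _ k1.1 k2.1 k3.1
      simp only [cond_true, e3, sev, h0, k1.2, k2.2, k3.2]
      push_cast
      linarith
  | 4 =>
    simp only [rowK]
    cases h : m4 col a b c e
    · simp [sev]
    · simp only [m4, m3, Bool.and_eq_true, Nat.ble_eq, Nat.beq_eq] at h
      obtain ⟨⟨⟨⟨⟨hu, h2⟩, h3⟩, h4⟩, h5⟩, h6⟩ := h
      have k1 := eq a b _ hu rfl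
      have k2 := eq a c _ hu h2
      have k3 := eq b c _ hu h3
      have k4 := eq a e _ hu h4
      have k5 := eq b e _ hu h5
      have k6 := eq c e _ hu h6
      have := S.k4 _ _ _ _ _ k1.1 k2.1 k3.1 k4.1 k5.1 k6.1
      simp only [cond_true, e4, e3, sev, h0, k1.2, k2.2, k3.2, k4.2, k5.2, k6.2]
      push_cast
      linarith
  | 5 =>
    simp only [rowK]
    cases h : p5 col a b c e f
    · simp [sev]
    · simp only [p5, Bool.and_eq_true, Nat.beq_eq] at h
      obtain ⟨⟨⟨⟨⟨⟨⟨⟨⟨h1, h2⟩, h3⟩, h4⟩, h5⟩, h6⟩, h7⟩, h8⟩, h9⟩, h10⟩ := h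
      have k1 := eq a b _ le_rfl h1
      have k2 := eq a c _ zero_le_one h2
      have k3 := eq b c _ le_rfl h3
      have k4 := eq a e _ zero_le_one h4
      have k5 := eq b e _ zero_le_one h5
      have k6 := eq c e _ le_rfl h6
      have k7 := eq a f _ le_rfl h7
      have k8 := eq b f _ zero_le_one h8
      have k9 := eq c f _ zero_le_one h9
      have k10 := eq e f _ le_rfl h10
      have := hp (p a) (p b) (p c) (p e) (p f)
        ⟨k1.1, k2.1, k3.1, k4.1, k5.1, k6.1, k7.1, k8.1, k9.1, k10.1⟩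
      simp only [cond_true, sev_append, e5, e4, e3, sev, k1.2, k2.2, k3.2, k4.2, k5.2, k6.2, k7.2,
        k8.2, k9.2, k10.2]
      simp only [tot] at this
      linarith
  | 6 =>
    simp only [rowK]
    cases h : m5 col a b c e f
    · simp [sev]
    · simp only [m5, m4, m3, Bool.and_eq_true, Nat.ble_eq, Nat.beq_eq] at h
      obtain ⟨⟨⟨⟨⟨⟨⟨⟨⟨hu, h2⟩, h3⟩, h4⟩, h5⟩, h6⟩, h7⟩, h8⟩, h9⟩, h10⟩ := h
      have k1 := eq a b _ hu rfl
      have k2 := eq a c _ hu h2
      have k3 := eq b c _ hu h3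
      have k4 := eq a e _ hu h4
      have k5 := eq b e _ hu h5
      have k6 := eq c e _ hu h6
      have k7 := eq a f _ hu h7
      have k8 := eq b f _ hu h8
      have k9 := eq c f _ hu h9
      have k10 := eq e f _ hu h10
      have := S.k5 _ _ _ _ _ _ k1.1 k2.1 k3.1 k4.1 k5.1 k6.1 k7.1 k8.1 k9.1 k10.1
      simp only [cond_true, e5, e4, e3, sev, h0, k1.2, k2.2, k3.2, k4.2, k5.2, k6.2, k7.2,
        k8.2, k9.2, k10.2]
      push_cast
      linarith
  | n + 7 =>
    simp only [rowK]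
    rcases lt_or_ge x ex.length with h | h
    · rw [List.getD_eq_getElem _ _ h]
      exact hex _ (List.getElem_mem h)
    · rw [List.getD_eq_default _ _ h]
      simp [sev]

/-- nonnegative combination of forms; an entry is `code + 2^18 * multiplier` -/
def comb (Q : ℕ) (row : ℕ → List (ℤ × ℕ)) (u : ℕ → PF) (n : ℕ) : PF :=
  psum (fun e => psm (Int.ofNat (Nat.div e 262144)) (spk u (row (Nat.mod e 262144)))) (unp Q 200 n)

noncomputable def combR (Q : ℕ) (row : ℕ → List (ℤ × ℕ)) (d : ℕ → ℝ) (n : ℕ) : ℝ :=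
  ((unp Q 200 n).map fun e => ((e / 262144 : ℕ) : ℝ) * sev d (row (e % 262144))).sum

theorem rep_comb {B K : ℕ} {z : ℕ → ℝ} {u : ℕ → PF} {d : ℕ → ℝ} (h : ∀ k, Rep B K z (u k) (d k))
    (Q : ℕ) (row : ℕ → List (ℤ × ℕ)) (n : ℕ) : Rep B K z (comb Q row u n) (combR Q row d n) := by
  refine rep_psum _ fun e _ => ?_
  have := rep_sm (Int.ofNat (Nat.div e 262144)) (rep_spk h (row (Nat.mod e 262144)))
  exact this

theorem combR_nonneg {d : ℕ → ℝ} (Q : ℕ) {row : ℕ → List (ℤ × ℕ)} (h : ∀ c, 0 ≤ sev d (row c))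
    (n : ℕ) : 0 ≤ combR Q row d n := by
  refine List.sum_nonneg fun v hv => ?_
  obtain ⟨e, -, rfl⟩ := List.mem_map.1 hv
  exact mul_nonneg (Nat.cast_nonneg _) (h _)

end Pool.Agent.P.MP_c18ddb_co.Q
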