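import Pool.Agent.P.MP_c18ddb_co.Q.Prob

namespace Pool.Agent.P.MP_c18ddb_co.Q

open Finset

set_option linter.unusedSectionVars false

section

variable {Ω κ : Type} [DecidableEq Ω] [DecidableEq κ]

/-- the edges meeting `A` -/
def stepN (P : Finset κ) (E : κ → Finset Ω) (A : Finset Ω) : Finset κ :=
  P.filter fun h => ¬ Disjoint (E h) A

/-- the number of points of `A` in the edge `h` -/
def stepT (E : κ → Finset Ω) (A : Finset Ω) (h : κ) : ℝ := ∑ u ∈ A, if u ∈ E h then 1 else 0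

theorem stepT_eq (E : κ → Finset Ω) (A : Finset Ω) (h : κ) :
    stepT E A h = (A.filter fun u => u ∈ E h).card := by
  rw [stepT, sum_boole]

theorem stepT_nonneg (E : κ → Finset Ω) (A : Finset Ω) (h : κ) : 0 ≤ stepT E A h := by
  rw [stepT_eq]; positivity

theorem step_one_le {E : κ → Finset Ω} {A : Finset Ω} {h : κ} (hd : ¬ Disjoint (E h) A) :
    1 ≤ stepT E A h := by
  obtain ⟨u, h1, h2⟩ := not_disjoint_iff.1 hd
  rw [stepT_eq]
  exact_mod_cast card_pos.2 ⟨u, mem_filter.2 ⟨h2, h1⟩⟩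

theorem stepT_zero {E : κ → Finset Ω} {A : Finset Ω} {h : κ} (hd : Disjoint (E h) A) :
    stepT E A h = 0 :=
  sum_eq_zero fun _ hu => if_neg (disjoint_right.1 hd hu)

theorem step_sum_one (P : Finset κ) (E : κ → Finset Ω) (φ : κ → ℝ) (A : Finset Ω) :
    ∑ h ∈ P, φ h * stepT E A h = ∑ u ∈ A, ∑ h ∈ P.filter (fun h => u ∈ E h), φ h := by
  simp only [stepT, mul_sum, sum_filter, mul_ite, mul_one, mul_zero]
  exact sum_comm

theorem step_sum_two (P : Finset κ) (E : κ → Finset Ω) (φ : κ → ℝ) (A B : Finset Ω) :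
    ∑ h ∈ P, φ h * (stepT E A h * stepT E B h) =
      ∑ u ∈ A, ∑ v ∈ B, ∑ h ∈ P.filter (fun h => u ∈ E h ∧ v ∈ E h), φ h := by
  simp only [stepT, sum_mul_sum]
  simp only [mul_sum, sum_filter]
  rw [sum_comm]
  refine sum_congr rfl fun u _ => ?_
  rw [sum_comm]
  refine sum_congr rfl fun v _ => sum_congr rfl fun h _ => ?_
  by_cases h1 : u ∈ E h <;> by_cases h2 : v ∈ E h <;> simp [h1, h2]

variable {U : Finset Ω} {P : Finset κ} {E : κ → Finset Ω} {φ : κ → ℝ} {γ : ℝ}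

theorem step_upper (hφ : ∀ h ∈ P, 0 ≤ φ h)
    (hdeg : ∀ u ∈ U, ∑ h ∈ P.filter (fun h => u ∈ E h), φ h = 1) {A : Finset Ω} (hA : A ⊆ U) :
    ∑ h ∈ stepN P E A, φ h ≤ A.card := by
  calc _ ≤ ∑ h ∈ P, φ h * stepT E A h := by
        rw [stepN, sum_filter]
        refine sum_le_sum fun h hh => ?_
        split_ifs with hd
        · exact mul_nonneg (hφ h hh) (stepT_nonneg _ _ _)
        · exact le_mul_of_one_le_right (hφ h hh) (step_one_le hd)
    _ = A.card := by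
        rw [step_sum_one, sum_congr rfl fun u hu => hdeg u (hA hu)]
        simp

theorem step_lower (hγ : 0 ≤ γ) (hφ : ∀ h ∈ P, 0 ≤ φ h)
    (hdeg : ∀ u ∈ U, ∑ h ∈ P.filter (fun h => u ∈ E h), φ h = 1)
    (hco : ∀ u ∈ U, ∀ v ∈ U, u ≠ v → ∑ h ∈ P.filter (fun h => u ∈ E h ∧ v ∈ E h), φ h ≤ γ)
    {A : Finset Ω} (hA : A ⊆ U) :
    A.card - (A.card : ℝ) ^ 2 * γ / 2 ≤ ∑ h ∈ stepN P E A, φ h := by
  have h1 : ∑ h ∈ P, φ h * stepT E A h = A.card := by
    rw [step_sum_one, sum_congr rfl fun u hu => hdeg u (hA hu)]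
    simp
  have h2 : ∑ h ∈ P, φ h * (stepT E A h * stepT E A h) ≤ A.card + (A.card : ℝ) ^ 2 * γ := by
    rw [step_sum_two]
    calc _ ≤ ∑ u ∈ A, ∑ v ∈ A, ((if u = v then 1 else 0) + γ) := by
          refine sum_le_sum fun u hu => sum_le_sum fun v hv => ?_
          split_ifs with e
          · subst e
            simp only [and_self, hdeg u (hA hu)]
            linarith
          · rw [zero_add]
            exact hco u (hA hu) v (hA hv) e
      _ = _ := by
          rw [sum_congr rfl fun u hu => by rw [sum_add_distrib, sum_ite_eq, if_pos hu]]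
          simp only [sum_const, nsmul_eq_mul]
          ring
  have h3 : ∑ h ∈ P, (3 / 2 * (φ h * stepT E A h) - 1 / 2 * (φ h * (stepT E A h * stepT E A h))) ≤
      ∑ h ∈ stepN P E A, φ h := by
    rw [stepN, sum_filter]
    refine sum_le_sum fun h hh => ?_
    split_ifs with hd
    · simp [stepT_zero hd]
    · have h4 : 0 ≤ (stepT E A h - 1) * (stepT E A h - 2) := by
        have h5 := step_one_le hd
        rw [stepT_eq] at h5 ⊢
        generalize (A.filter fun u => u ∈ E h).card = t at h5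
        rcases (show t = 1 ∨ 2 ≤ t by have : 1 ≤ t := by exact_mod_cast h5
                                      omega) with rfl | h6
        · simp
        · have : (2 : ℝ) ≤ t := by exact_mod_cast h6
          exact mul_nonneg (by linarith) (by linarith)
      nlinarith [mul_nonneg (hφ h hh) h4]
  rw [sum_sub_distrib, ← mul_sum, ← mul_sum, h1] at h3
  linarith

theorem step_inter (hφ : ∀ h ∈ P, 0 ≤ φ h)
    (hco : ∀ u ∈ U, ∀ v ∈ U, u ≠ v → ∑ h ∈ P.filter (fun h => u ∈ E h ∧ v ∈ E h), φ h ≤ γ)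
    {A B : Finset Ω} (hA : A ⊆ U) (hB : B ⊆ U) (hAB : Disjoint A B) :
    ∑ h ∈ stepN P E A ∩ stepN P E B, φ h ≤ A.card * (B.card * γ) := by
  calc _ ≤ ∑ h ∈ P, φ h * (stepT E A h * stepT E B h) := by
        rw [stepN, stepN, ← filter_and, sum_filter]
        refine sum_le_sum fun h hh => ?_
        split_ifs with hd
        · exact le_mul_of_one_le_right (hφ h hh)
            (one_le_mul_of_one_le_of_one_le (step_one_le hd.1) (step_one_le hd.2))
        · exact mul_nonneg (hφ h hh) (mul_nonneg (stepT_nonneg _ _ _) (stepT_nonneg _ _ _))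
    _ ≤ ∑ u ∈ A, ∑ v ∈ B, γ := by
        rw [step_sum_two]
        exact sum_le_sum fun u hu => sum_le_sum fun v hv =>
          hco u (hA hu) v (hB hv) fun e => disjoint_left.1 hAB hu (e ▸ hv)
    _ = _ := by simp

end

/-- the bite, for a hypergraph inside a regular one -/
theorem step_core {Ω ι κ : Type} [DecidableEq Ω] [DecidableEq ι] [DecidableEq κ] (k : ℕ)
    (ε γ θ F : ℝ) (hε : 0 < ε) (hε1 : ε ≤ 1) (hkε : (k : ℝ) * ε ≤ 1) (hγ : 0 ≤ γ) (hγε : γ ≤ ε)
    (hθ : 0 < θ) (hF : 0 ≤ F) (U : Finset Ω) (H : Finset ι) (E : ι → Finset Ω) (w φ : ι → ℝ)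
    (hE : ∀ f ∈ H, E f ⊆ U) (hk : ∀ f ∈ H, (E f).card ≤ k) (hne : ∀ f ∈ H, (E f).Nonempty)
    (hw : ∀ f ∈ H, 0 ≤ w f ∧ w f ≤ 1) (hφ : ∀ f, 0 ≤ φ f)
    (hdeg : ∀ u ∈ U, ∑ f ∈ H.filter (fun f => u ∈ E f), φ f ≤ 1)
    (hco : ∀ u ∈ U, ∀ v ∈ U, u ≠ v → ∑ f ∈ H.filter (fun f => u ∈ E f ∧ v ∈ E f), φ f ≤ γ)
    (P : Finset κ) (E' : κ → Finset Ω) (q : κ → ℝ) (e : ι → κ) (e1 : Function.Injective e)
    (e2 : ∀ f ∈ H, e f ∈ P) (e3 : ∀ f, E' (e f) = E f) (e4 : ∀ f, q (e f) = φ f)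
    (hq : ∀ h ∈ P, 0 ≤ q h ∧ q h ≤ 1)
    (qdeg : ∀ u ∈ U, ∑ h ∈ P.filter (fun h => u ∈ E' h), q h = 1)
    (qco : ∀ u ∈ U, ∀ v ∈ U, u ≠ v → ∑ h ∈ P.filter (fun h => u ∈ E' h ∧ v ∈ E' h), q h ≤ γ) :
    ∃ (M H' : Finset ι) (φ' : ι → ℝ), M ⊆ H ∧ H' ⊆ H ∧
      (∀ f ∈ M, ∀ g ∈ M, f ≠ g → Disjoint (E f) (E g)) ∧
      (∀ f ∈ M, ∀ g ∈ H', Disjoint (E f) (E g)) ∧
      (∀ f, 0 ≤ φ' f) ∧ (∀ f, φ' f ≤ 2 * φ f) ∧
      (∀ u ∈ U, ∑ f ∈ H'.filter (fun f => u ∈ E f), φ' f ≤ 1) ∧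
      (ε - k * ε ^ 2) * ∑ f ∈ H, w f * φ f +
          F * ((1 - ε - 2 * k ^ 2 * ε ^ 2) * ∑ f ∈ H, w f * φ f -
            (θ + 2 * k * γ / θ) * U.card) ≤
        ∑ f ∈ M, w f + F * ∑ f ∈ H', w f * φ' f := by
  have hq0 : ∀ h ∈ P, 0 ≤ q h := fun h hh => (hq h hh).1
  have hp : ∀ h ∈ P, 0 ≤ ε * q h ∧ ε * q h ≤ 1 := fun h hh =>
    ⟨mul_nonneg hε.le (hq0 h hh), mul_le_one₀ hε1 (hq0 h hh) (hq h hh).2⟩
  have hN : ∀ A, stepN P E' A ⊆ P := fun A => filter_subset _ _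
  have hk' : ∀ f ∈ H, ((E f).card : ℝ) ≤ k := fun f hf => by exact_mod_cast hk f hf
  have hk1 : ∀ f ∈ H, (1 : ℝ) ≤ (E f).card := fun f hf => by exact_mod_cast card_pos.2 (hne f hf)
  have her : ∀ f u, u ∈ E f → (((E f).erase u).card : ℝ) = (E f).card - 1 := fun f u hu => by
    rw [← card_erase_add_one hu]; push_cast; ring
  obtain ⟨s, s1, s2, s3, s4⟩ : ∃ s : ι → ℝ, (∀ f ∈ H, 0 ≤ s f) ∧ (∀ f ∈ H, s f ≤ 2) ∧
      (∀ f ∈ H, 1 - ε - 2 * k ^ 2 * ε ^ 2 ≤ s f * ∏ h ∈ stepN P E' (E f), (1 - ε * q h)) ∧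
      ∀ f ∈ H, ∀ u ∈ E f, s f * ∏ h ∈ stepN P E' ((E f).erase u), (1 - ε * q h) ≤ 1 := by
    have hx : ∀ f ∈ H, 0 ≤ ε * ((E f).card - 1) ∧ ε * ((E f).card - 1) + ε ≤ k * ε := fun f hf =>
      ⟨mul_nonneg hε.le (sub_nonneg.2 (hk1 f hf)), by nlinarith [hk' f hf]⟩
    have s0 : ∀ f ∈ H, 0 ≤ 1 + ε * ((E f).card - 1) - (ε * ((E f).card - 1)) ^ 2 / 2 :=
      fun f hf => by nlinarith [hx f hf]
    refine ⟨fun f => 1 + ε * ((E f).card - 1) - (ε * ((E f).card - 1)) ^ 2 / 2, s0,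
      fun f hf => by nlinarith [hx f hf], fun f hf => ?_, fun f hf u hu => ?_⟩
    · have h1 := le_prod _ _ fun h hh => hp h (hN (E f) hh)
      have h2 := mul_le_mul_of_nonneg_left (step_upper hq0 qdeg (hE f hf)) hε.le
      rw [← mul_sum] at h1
      refine le_trans ?_ (mul_le_mul_of_nonneg_left
        (show 1 - (ε * ((E f).card - 1) + ε) ≤ _ by linarith) (s0 f hf))
      obtain ⟨h3, h4⟩ := hx f hf
      beta_reduce
      generalize ε * (((E f).card : ℝ) - 1) = x at h3 h4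
      have h5 : x * (x + ε) ≤ (k * ε) * (k * ε) := by gcongr; linarith
      nlinarith [mul_nonneg h3 hε.le, mul_nonneg (mul_nonneg h3 h3) (add_nonneg h3 hε.le),
        mul_nonneg h3 h3]
    · have h1 := prod_mul_le _ _ fun h hh => hp h (hN ((E f).erase u) hh)
      have h2 := mul_le_mul_of_nonneg_left
        (step_lower hγ hq0 qdeg qco ((erase_subset u _).trans (hE f hf))) hε.le
      rw [← mul_sum] at h1
      rw [her f u hu] at h2
      refine le_trans ?_ h1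
      rw [mul_comm]
      refine mul_le_mul_of_nonneg_left ?_
        (prod_nonneg fun h hh => sub_nonneg.2 (hp h (hN _ hh)).2)
      nlinarith [mul_le_mul_of_nonneg_left hγε
        (mul_nonneg hε.le (sq_nonneg (((E f).card : ℝ) - 1)))]
  obtain ⟨ψ, ψ0, ψ1, ψ2⟩ : ∃ ψ : ι → ℝ, (∀ f, 0 ≤ ψ f) ∧ (∀ f, ψ f ≤ 2 * φ f) ∧
      ∀ f ∈ H, ψ f = s f * φ f := by
    refine ⟨fun f => if f ∈ H then s f * φ f else 0, fun f => ?_, fun f => ?_,
      fun f hf => if_pos hf⟩ <;> beta_reduce <;> split_ifs with hf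
    exacts [mul_nonneg (s1 f hf) (hφ f), le_rfl, mul_le_mul_of_nonneg_right (s2 f hf) (hφ f),
      mul_nonneg zero_le_two (hφ f)]
  have hex : ∀ u ∈ U, ∑ S ∈ P.powerset, pr P (fun h => ε * q h) S *
      max 0 (∑ f ∈ H.filter (fun f => u ∈ E f), ψ f *
        (if Disjoint S (stepN P E' ((E f).erase u)) then 1 else 0) - 1) ≤ θ + 2 * k * γ / θ := by
    intro u hu
    refine (pr_excess P _ hp _ ψ (fun f _ => ψ0 f) _ (fun f _ => hN _) ?_ (8 * k * γ) θ hθ
      ?_).trans_eq (by field_simp; ring)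
    · refine (sum_le_sum fun f hf => ?_).trans (hdeg u hu)
      obtain ⟨h1, h2⟩ := mem_filter.1 hf
      rw [ψ2 f h1, mul_right_comm]
      exact mul_le_of_le_one_left (hφ f) (s4 f h1 u h2)
    · have hkγ : 0 ≤ k * γ := by positivity
      have h1 : ∀ f ∈ H.filter (fun f => u ∈ E f), ∀ g ∈ H.filter (fun f => u ∈ E f),
          min 1 (∑ h ∈ stepN P E' ((E f).erase u) ∩ stepN P E' ((E g).erase u), ε * q h) ≤
            k * γ + stepT E ((E f).erase u) g := by
        intro f hf g hg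
        obtain ⟨f1, f2⟩ := mem_filter.1 hf
        obtain ⟨g1, g2⟩ := mem_filter.1 hg
        by_cases hd : Disjoint (E g) ((E f).erase u)
        · refine (min_le_right _ _).trans ?_
          have h2 := step_inter hq0 qco ((erase_subset u _).trans (hE f f1))
            ((erase_subset u _).trans (hE g g1)) (hd.symm.mono_right (erase_subset u _))
          rw [← mul_sum, stepT_zero hd, add_zero]
          calc _ ≤ ε * (k * (k * γ)) := by
                refine mul_le_mul_of_nonneg_left (h2.trans ?_) hε.le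
                rw [her f u f2, her g u g2]
                exact mul_le_mul (by linarith [hk' f f1])
                  (mul_le_mul_of_nonneg_right (by linarith [hk' g g1]) hγ)
                  (mul_nonneg (sub_nonneg.2 (hk1 g g1)) hγ) (Nat.cast_nonneg k)
            _ = k * ε * (k * γ) := by ring
            _ ≤ k * γ := mul_le_of_le_one_left hkγ hkε
        · linarith [min_le_left (1 : ℝ)
            (∑ h ∈ stepN P E' ((E f).erase u) ∩ stepN P E' ((E g).erase u), ε * q h), step_one_le hd]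
      have h2 : ∀ f ∈ H.filter (fun f => u ∈ E f), ∑ g ∈ H.filter (fun f => u ∈ E f),
          φ g * (k * γ + stepT E ((E f).erase u) g) ≤ 2 * (k * γ) := by
        intro f hf
        obtain ⟨f1, f2⟩ := mem_filter.1 hf
        have h3 : ∑ v ∈ (E f).erase u, ∑ g ∈ (H.filter (fun f => u ∈ E f)).filter
            (fun g => v ∈ E g), φ g ≤ ∑ v ∈ (E f).erase u, γ := sum_le_sum fun v hv => by
          rw [filter_filter]
          exact hco u hu v (hE f f1 (mem_of_mem_erase hv)) (ne_of_mem_erase hv).symm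
        rw [sum_const, nsmul_eq_mul, her f u f2] at h3
        simp only [mul_add, sum_add_distrib, ← sum_mul, step_sum_one]
        nlinarith [mul_le_of_le_one_left hkγ (hdeg u hu), hk' f f1]
      calc _ ≤ ∑ f ∈ H.filter (fun f => u ∈ E f), 4 * φ f * ∑ g ∈ H.filter (fun f => u ∈ E f),
            φ g * (k * γ + stepT E ((E f).erase u) g) := by
            refine sum_le_sum fun f hf => ?_
            rw [mul_sum]
            refine sum_le_sum fun g hg => ?_
            calc _ ≤ ψ f * ψ g * (k * γ + stepT E ((E f).erase u) g) :=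
                  mul_le_mul_of_nonneg_left (h1 f hf g hg) (mul_nonneg (ψ0 f) (ψ0 g))
              _ ≤ 2 * φ f * (2 * φ g) * (k * γ + stepT E ((E f).erase u) g) :=
                  mul_le_mul_of_nonneg_right
                    (mul_le_mul (ψ1 f) (ψ1 g) (ψ0 g) ((ψ0 f).trans (ψ1 f)))
                    (add_nonneg hkγ (stepT_nonneg _ _ _))
              _ = _ := by ring
        _ ≤ ∑ f ∈ H.filter (fun f => u ∈ E f), φ f * (8 * k * γ) := sum_le_sum fun f hf =>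
            (mul_le_mul_of_nonneg_left (h2 f hf) (mul_nonneg zero_le_four (hφ f))).trans_eq (by ring)
        _ ≤ 8 * k * γ := by
            rw [← sum_mul]
            exact mul_le_of_le_one_left (by positivity) (hdeg u hu)
  obtain ⟨S, -, hS⟩ := pr_exists P _ hp fun S =>
    ∑ f ∈ H, w f * (if e f ∈ S ∧ Disjoint S ((stepN P E' (E f)).erase (e f)) then 1 else 0) +
      F * (∑ f ∈ H, w f * ψ f * (if Disjoint S (stepN P E' (E f)) then 1 else 0) -
        ∑ u ∈ U, max 0 (∑ f ∈ H.filter (fun f => u ∈ E f), ψ f *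
          (if Disjoint S (stepN P E' ((E f).erase u)) then 1 else 0) - 1))
  obtain ⟨φ', t1, t2, t3, t4⟩ := trunc U (H.filter fun f => Disjoint S (stepN P E' (E f))) E
    (fun f hf => hE f (mem_filter.1 hf).1) w ψ (fun f hf => hw f (mem_filter.1 hf).1) ψ0
    (fun u => ∑ f ∈ H.filter (fun f => u ∈ E f), ψ f *
      (if Disjoint S (stepN P E' ((E f).erase u)) then 1 else 0)) fun u _ => by
      rw [filter_comm, sum_filter]
      refine sum_le_sum fun f _ => ?_
      split_ifs with h1 h2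
      · rw [mul_one]
      · refine (h2 (h1.mono_right fun h hh => ?_)).elim
        exact mem_filter.2 ⟨(mem_filter.1 hh).1, fun hd =>
          (mem_filter.1 hh).2 (hd.mono_right (erase_subset u _))⟩
      · rw [mul_one]; exact ψ0 f
      · rw [mul_zero]
  refine ⟨H.filter fun f => e f ∈ S ∧ Disjoint S ((stepN P E' (E f)).erase (e f)), _, φ',
    filter_subset _ _, filter_subset _ _, fun f hf g hg hfg => ?_, fun f hf g hg => ?_, t1,
    fun f => (t2 f).trans (ψ1 f), t3, le_trans ?_ (hS.trans ?_)⟩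
  · by_contra hd
    exact disjoint_left.1 (mem_filter.1 hf).2.2 (mem_filter.1 hg).2.1 (mem_erase.2
      ⟨e1.ne hfg.symm, mem_filter.2 ⟨e2 g (mem_filter.1 hg).1, by rwa [e3, disjoint_comm]⟩⟩)
  · by_contra hd
    exact disjoint_left.1 (mem_filter.1 hg).2 (mem_filter.1 hf).2.1
      (mem_filter.2 ⟨e2 f (mem_filter.1 hf).1, by rwa [e3]⟩)
  · have sw : ∀ {J : Type} (I : Finset J) (a : J → ℝ) (X : Finset κ → J → ℝ),
        ∑ T ∈ P.powerset, pr P (fun h => ε * q h) T * ∑ j ∈ I, a j * X T j =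
          ∑ j ∈ I, a j * ∑ T ∈ P.powerset, pr P (fun h => ε * q h) T * X T j := by
      intro J I a X
      simp only [mul_sum]
      rw [sum_comm]
      exact sum_congr rfl fun j _ => sum_congr rfl fun T _ => by ring
    simp only [mul_add, sum_add_distrib, mul_left_comm _ F, ← mul_sum, mul_sub, sum_sub_distrib]
    rw [sw, sw, ← mul_sub, ← mul_sub]
    refine add_le_add ?_ (mul_le_mul_of_nonneg_left (sub_le_sub ?_ ?_) hF)
    · rw [mul_sum]
      refine sum_le_sum fun f hf => ?_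
      rw [pr_hit_avoid P _ _ ((erase_subset _ _).trans (hN _)) _ (e2 f hf) (notMem_erase _ _), e4]
      have h1 := le_prod ((stepN P E' (E f)).erase (e f)) _ fun h hh =>
        hp h (hN (E f) (mem_of_mem_erase hh))
      have h2 := (sum_le_sum_of_subset_of_nonneg (erase_subset (e f) _)
        fun h hh _ => hq0 h (hN _ hh)).trans ((step_upper hq0 qdeg (hE f hf)).trans (hk' f hf))
      rw [← mul_sum] at h1
      have h3 := mul_le_mul_of_nonneg_left (show 1 - ε * k ≤ _ from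
        (sub_le_sub_left (mul_le_mul_of_nonneg_left h2 hε.le) 1).trans h1)
        (mul_nonneg (hw f hf).1 (mul_nonneg hε.le (hφ f)))
      linarith
    · rw [mul_sum]
      refine sum_le_sum fun f hf => ?_
      rw [pr_avoid P _ _ (hN _), ψ2 f hf]
      have h3 := mul_le_mul_of_nonneg_left (s3 f hf) (mul_nonneg (hw f hf).1 (hφ f))
      linarith
    · simp only [mul_sum]
      rw [sum_comm]
      refine (sum_le_sum hex).trans_eq ?_
      rw [sum_const, nsmul_eq_mul, mul_comm]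
  · refine add_le_add (le_of_eq ?_) (mul_le_mul_of_nonneg_left (le_of_eq_of_le ?_ t4) hF)
    · simp only [sum_filter, mul_ite, mul_one, mul_zero]
    · rw [sum_filter (fun f => Disjoint S (stepN P E' (E f)))]
      simp only [mul_ite, mul_one, mul_zero]

/-- one bite of the nibble -/
theorem nib_step {Ω ι : Type} [DecidableEq Ω] [DecidableEq ι] (k : ℕ) (ε γ θ F : ℝ)
    (hε : 0 < ε) (hkε : (k : ℝ) * ε ≤ 1) (hγ : 0 ≤ γ) (hγε : γ ≤ ε) (hθ : 0 < θ) (hF : 0 ≤ F)
    (U : Finset Ω) (H : Finset ι) (E : ι → Finset Ω) (w φ : ι → ℝ)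
    (hE : ∀ f ∈ H, E f ⊆ U) (hk : ∀ f ∈ H, (E f).card ≤ k) (hne : ∀ f ∈ H, (E f).Nonempty)
    (hw : ∀ f ∈ H, 0 ≤ w f ∧ w f ≤ 1) (hφ : ∀ f, 0 ≤ φ f)
    (hdeg : ∀ u ∈ U, ∑ f ∈ H.filter (fun f => u ∈ E f), φ f ≤ 1)
    (hco : ∀ u ∈ U, ∀ v ∈ U, u ≠ v → ∑ f ∈ H.filter (fun f => u ∈ E f ∧ v ∈ E f), φ f ≤ γ) :
    ∃ (M H' : Finset ι) (φ' : ι → ℝ), M ⊆ H ∧ H' ⊆ H ∧
      (∀ f ∈ M, ∀ g ∈ M, f ≠ g → Disjoint (E f) (E g)) ∧
      (∀ f ∈ M, ∀ g ∈ H', Disjoint (E f) (E g)) ∧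
      (∀ f, 0 ≤ φ' f) ∧ (∀ f, φ' f ≤ 2 * φ f) ∧
      (∀ u ∈ U, ∑ f ∈ H'.filter (fun f => u ∈ E f), φ' f ≤ 1) ∧
      (ε - k * ε ^ 2) * ∑ f ∈ H, w f * φ f +
          F * ((1 - ε - 2 * k ^ 2 * ε ^ 2) * ∑ f ∈ H, w f * φ f -
            (θ + 2 * k * γ / θ) * U.card) ≤
        ∑ f ∈ M, w f + F * ∑ f ∈ H', w f * φ' f := by
  rcases H.eq_empty_or_nonempty with rfl | ⟨f₀, hf₀⟩
  · refine ⟨∅, ∅, fun _ => 0, Subset.rfl, Subset.rfl, by simp, by simp, fun _ => le_rfl,
      fun f => mul_nonneg zero_le_two (hφ f), by simp, ?_⟩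
    simp only [sum_empty, mul_zero, zero_add, zero_sub, mul_neg, neg_nonpos]
    positivity
  have h1 : (1 : ℝ) ≤ k := by exact_mod_cast (card_pos.2 (hne f₀ hf₀)).trans_le (hk f₀ hf₀)
  refine step_core k ε γ θ F hε (by nlinarith) hkε hγ hγε hθ hF U H E w φ hE hk hne hw hφ hdeg hco
    (H.disjSum U) (Sum.elim E fun u => {u})
    (Sum.elim φ fun u => 1 - ∑ f ∈ H.filter (fun f => u ∈ E f), φ f) Sum.inl Sum.inl_injective
    (fun f hf => inl_mem_disjSum.2 hf) (fun _ => rfl) (fun _ => rfl) ?_ (fun u hu => ?_)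
    fun u hu v hv huv => ?_
  · rintro (f | u) hh
    · obtain ⟨u, hu⟩ := hne f (inl_mem_disjSum.1 hh)
      exact ⟨hφ f, (single_le_sum (fun f _ => hφ f)
        (mem_filter.2 ⟨inl_mem_disjSum.1 hh, hu⟩)).trans (hdeg u (hE f (inl_mem_disjSum.1 hh) hu))⟩
    · exact ⟨sub_nonneg.2 (hdeg u (inr_mem_disjSum.1 hh)),
        sub_le_self _ (sum_nonneg fun f _ => hφ f)⟩
  · rw [sum_filter, sum_disjSum]
    simp only [Sum.elim_inl, Sum.elim_inr, mem_singleton, sum_ite_eq, if_pos hu, ← sum_filter]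
    ring
  · rw [sum_filter, sum_disjSum]
    simp only [Sum.elim_inl, Sum.elim_inr, mem_singleton]
    rw [sum_eq_zero (s := U) fun x _ => if_neg fun h => huv (h.1.trans h.2.symm), add_zero,
      ← sum_filter]
    exact hco u hu v hv huv

end Pool.Agent.P.MP_c18ddb_co.Q
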