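import Pool.Agent.P.MP_c18ddb_co.Q.Frac
import Pool.Agent.P.MP_c18ddb_co.Q.Avg
import Pool.Agent.P.MP_c18ddb_co.Q.Nibble
import Pool.Agent.P.MP_c18ddb_co.Q.Pack
import Pool.Agent.P.MP_c18ddb_co.Lower

namespace Pool.Agent.P.MP_c18ddb_co.Q

open Finset Filter Topology

theorem sum_card_cases {V : Type} [DecidableEq V] {c : V → V → Bool} {S K : Finset V}
    (h : K ∈ Cl c S) : K.card = 3 ∨ K.card = 4 ∨ K.card = 5 := by
  classical
  unfold Cl at h
  have := (mem_filter.1 h).2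
  omega

theorem sum_round (η : ℝ) (hη : 0 < η) : ∃ γ : ℝ, 0 < γ ∧ ∀ (n : ℕ) (G : SimpleGraph (Fin n))
    (φ : Finset (Fin n) → ℝ), FracPack (col G) univ φ →
    (∀ e ∈ (univ : Finset (Fin n)).powersetCard 2, ∀ e' ∈ (univ : Finset (Fin n)).powersetCard 2,
      e ≠ e' → ∑ K ∈ (Cl (col G) univ).filter (fun K => e ⊆ K ∧ e' ⊆ K), φ K ≤ γ) →
    (cp G : ℝ) + cp Gᶜ ≤ (1 + 9 * η) * (n * (n - 1) / 2) - value (col G) univ φ := by
  obtain ⟨γ, hγ, hn⟩ := nibble 10 η hη
  refine ⟨γ, hγ, fun n G φ hφ hco => ?_⟩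
  obtain ⟨M, hM, hd, hw⟩ := hn (Finset (Fin n)) (Finset (Fin n)) (univ.powersetCard 2)
    (Cl (col G) univ) (fun K => K.powersetCard 2) (fun K => val K / 9) φ
    (fun K _ => powersetCard_mono (subset_univ K))
    (fun K hK => by
      rw [card_powersetCard]
      rcases sum_card_cases hK with h | h | h <;> rw [h] <;> decide)
    (fun K hK => by
      rw [powersetCard_nonempty]
      rcases sum_card_cases hK with h | h | h <;> omega)
    (fun K hK => by
      rcases sum_card_cases hK with h | h | h <;> rw [val, h] <;> norm_num [Nat.choose])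
    hφ.1
    (fun e he => le_trans (le_of_eq (sum_congr (filter_congr fun K _ => by
      rw [mem_powersetCard]
      exact and_iff_left (mem_powersetCard.1 he).2) fun _ _ => rfl)) (hφ.2 e he))
    (fun e he e' he' hne => le_trans (le_of_eq (sum_congr (filter_congr fun K _ => by
      rw [mem_powersetCard, mem_powersetCard, and_iff_left (mem_powersetCard.1 he).2,
        and_iff_left (mem_powersetCard.1 he').2]) fun _ _ => rfl)) (hco e he e' he' hne))
  have h1 := cp_add_le G M hM hd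
  rw [Fintype.card_fin, Nat.cast_choose_two] at h1
  rw [card_powersetCard, card_univ, Fintype.card_fin, Nat.cast_choose_two, ← sum_div] at hw
  have h2 : ∑ K ∈ Cl (col G) univ, val K / 9 * φ K = value (col G) univ φ / 9 := by
    rw [value, sum_div]
    exact sum_congr rfl fun K _ => by ring
  rw [h2] at hw
  linarith

/-- the sum bound -/
theorem sum_upper (hcore : Core) (ε : ℝ) (hε : 0 < ε) :
    ∀ᶠ n : ℕ in atTop, ∀ G : SimpleGraph (Fin n),
      (cp G : ℝ) + cp Gᶜ ≤ (2 / 7 + ε) * (n : ℝ) ^ 2 := by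
  obtain ⟨γ, hγ, hr⟩ := sum_round (ε / 20) (by positivity)
  obtain ⟨m, hm⟩ := exists_nat_ge (max 3 (8 / ε + 1))
  have hm3 : (3 : ℝ) ≤ m := (le_max_left _ _).trans hm
  have hm8 : 8 ≤ ε * (m - 1) := by
    have : 8 / ε ≤ m - 1 := by linarith [(le_max_right _ _).trans hm]
    rwa [div_le_iff₀' hε] at this
  obtain ⟨N, hN⟩ := exists_nat_ge ((m - 2) / γ + 2)
  filter_upwards [eventually_ge_atTop m, eventually_ge_atTop N] with n hn hn' G
  have hmn : (m : ℝ) ≤ n := by exact_mod_cast hn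
  have hNn : (N : ℝ) ≤ n := by exact_mod_cast hn'
  obtain ⟨φ, hφ, hv, hco⟩ := avg_pack (univ : Finset (Fin n)) (col G) m (by exact_mod_cast hm3)
    (by rwa [card_univ, Fintype.card_fin]) (3 / 14 * (m : ℝ) ^ 2 - 3 / 2 * m - 1) fun T hT => by
      have := frac_pack hcore T (col G) (col_symm G)
      rwa [(mem_powersetCard.1 hT).2] at this
  rw [card_univ, Fintype.card_fin] at hv hco
  have hg : ((m : ℝ) - 2) / (n - 2) ≤ γ := by
    have h1 : ((m : ℝ) - 2) / γ ≤ n - 2 := by linarith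
    rw [div_le_iff₀' hγ] at h1
    rw [div_le_iff₀ (by linarith)]
    exact h1
  have h1 := hr n G φ hφ fun e he e' he' hne => (hco e he e' he' hne).trans hg
  have hmm : 0 < (m : ℝ) * (m - 1) := mul_pos (by linarith) (by linarith)
  have hnn : 0 ≤ (n : ℝ) * (n - 1) := mul_nonneg (by linarith) (by linarith)
  have h2 : (3 / 14 - ε / 4) * ((m : ℝ) * (m - 1)) ≤ 3 / 14 * (m : ℝ) ^ 2 - 3 / 2 * m - 1 := by
    have := mul_le_mul_of_nonneg_left hm8 (show (0 : ℝ) ≤ m by linarith)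
    nlinarith
  have h3 := mul_le_mul_of_nonneg_right h2 (div_nonneg hnn hmm.le)
  rw [mul_assoc, mul_div_cancel₀ _ hmm.ne'] at h3
  have h4 : (n : ℝ) * (n - 1) ≤ (n : ℝ) ^ 2 := by nlinarith
  have h5 := mul_le_mul_of_nonneg_left h4 (show 0 ≤ 2 / 7 + ε by positivity)
  have h6 := mul_nonneg hε.le hnn
  nlinarith

/-- the limit -/
theorem limit_of_core (hcore : Core) :
    Tendsto (fun n : ℕ => (M n : ℝ) / (n : ℝ) ^ 4) atTop (𝓝 (1 / 49)) := by
  refine tendsto_order.2 ⟨fun a ha => ?_, fun a ha => ?_⟩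
  · have h : Tendsto (fun n : ℕ => (1 / 49 : ℝ) - 8 / 7 / n) atTop (𝓝 (1 / 49 - 0)) :=
      tendsto_const_nhds.sub (tendsto_const_div_atTop_nhds_zero_nat _)
    rw [sub_zero] at h
    filter_upwards [h.eventually (lt_mem_nhds ha), eventually_gt_atTop 0] with n hn hn0
    have hp : (0 : ℝ) < n := by exact_mod_cast hn0
    refine hn.trans_le ?_
    rw [le_div_iff₀ (by positivity)]
    refine le_trans (le_of_eq ?_) (lower_M n)
    field_simp
  · have hε : 0 < min 1 (a - 1 / 49) := lt_min one_pos (by linarith)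
    have h1 := min_le_left 1 (a - 1 / 49)
    have h2 := min_le_right 1 (a - 1 / 49)
    generalize min 1 (a - 1 / 49) = ε at hε h1 h2
    filter_upwards [sum_upper hcore ε hε, eventually_gt_atTop 0] with n hn hn0
    have hp : (0 : ℝ) < n := by exact_mod_cast hn0
    obtain ⟨G, hG⟩ := exists_M n
    have h3 := hn G
    have h4 : ((cp G : ℝ) + cp Gᶜ) ^ 2 ≤ ((2 / 7 + ε) * (n : ℝ) ^ 2) ^ 2 :=
      pow_le_pow_left₀ (by positivity) h3 2
    have h5 : (2 / 7 + ε) ^ 2 < 4 * a := by nlinarith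
    have h6 := mul_lt_mul_of_pos_right h5 (show 0 < (n : ℝ) ^ 4 by positivity)
    rw [div_lt_iff₀ (by positivity), hG, Nat.cast_mul]
    nlinarith [sq_nonneg ((cp G : ℝ) - cp Gᶜ)]

end Pool.Agent.P.MP_c18ddb_co.Q
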